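import Mathlib
import Pool.Agent.H447R2.ML.Pert2
import Pool.Agent.H447R2.ML.Q3

set_option autoImplicit false

/-!
# Window asymptotics for windows of any length, with a bounded perturbation
-/

namespace Pool.Agent.W56

open Filter Topology MeasureTheory
open Pool.Agent.H305R2 (roughPart NN ff measurable_ff ff_nonneg ff_le_one integrableOn_ff
  window_asymp window_short)
open Pool.Agent.H447R2.ML

lemma asymp_fl_l {g : ℕ → ℝ} {κ C : ℝ} (hκ : 0 ≤ κ) (hC : 0 < C)
    (hg : ∀ p : ℕ, |g p| ≤ C * Real.exp (κ * p)) {a l : ℝ} (ha : κ < a) (hl : 0 < l) (hl1 : l ≤ 1)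
    (y : ℕ → ℝ) (hy : Tendsto (fun p : ℕ => y p / p) atTop (𝓝 a)) :
    Tendsto (fun p : ℕ => (∫ t in Set.Ioc (y p) (y p + l), fl g p t) * (p / Real.log p)) atTop
      (𝓝 (Real.exp Real.eulerMascheroniConstant * l / a)) := by
  have ha0 : 0 < a := by linarith
  set c := (κ + a) / 2 with hc
  have hκc : κ < c := by rw [hc]; linarith
  have hca : c < a := by rw [hc]; linarith
  have hδ : 0 < c - κ := by linarith
  have hcy : ∀ᶠ p : ℕ in atTop, c * p ≤ y p := by
    filter_upwards [hy.eventually_const_lt hca, eventually_ge_atTop 1] with p hp hp1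
    have hp0 : (0 : ℝ) < p := by exact_mod_cast hp1
    rw [lt_div_iff₀ hp0] at hp
    exact hp.le
  set y' : ℕ → ℝ := fun p => Real.log (Real.exp (y p) + g p) with hy'd
  have hbasic : ∀ᶠ p : ℕ in atTop, 1 ≤ p ∧ 0 < C * Real.exp (-((c - κ) * p)) ∧
      C * Real.exp (-((c - κ) * p)) ≤ 1 / 4 ∧ |y' p - y p| ≤ 2 * (C * Real.exp (-((c - κ) * p))) ∧
      |(∫ t in Set.Ioc (y p) (y p + l), fl g p t) - ∫ t in Set.Ioc (y' p) (y' p + l), ff p t| ≤
        6 * (C * Real.exp (-((c - κ) * p))) := by
    filter_upwards [hcy, hdecay 0 (c - κ) (1 / (4 * C)) hδ (by positivity),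
      eventually_ge_atTop 1] with p hp hd0 hp1
    set ε := C * Real.exp (-((c - κ) * p)) with hεd
    have hε0 : 0 < ε := by positivity
    have hε1 : ε ≤ 1 / 4 := by
      rw [pow_zero, one_mul, lt_div_iff₀ (by positivity)] at hd0
      rw [hεd]
      linarith
    have hgy : |g p| ≤ ε * Real.exp (y p) := eps_bound hC hg hp
    have hyy : y p ≤ y p + l := by linarith
    have hcmp := compare hε1 hgy hyy
    have hs1 := shift hε1 hgy le_rfl
    have hs2 := shift hε1 hgy hyy
    refine ⟨hp1, hε0, hε1, hs1, ?_⟩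
    have hA1 : ∫ t in Set.Ioc (y p) (y p + l), fl g p t ≤ 1 := by
      calc ∫ t in Set.Ioc (y p) (y p + l), fl g p t ≤ ∫ t in Set.Ioc (y p) (y p + l), (1 : ℝ) :=
            setIntegral_mono_on (integrableOn_fl g p _ _) (integrableOn_const (by simp))
              measurableSet_Ioc fun t _ => fl_le_one g p t
        _ ≤ 1 := by
            rw [setIntegral_const, smul_eq_mul, mul_one, Real.volume_real_Ioc_of_le hyy]
            linarith
    have hmono : Real.log (Real.exp (y p) + g p) ≤ Real.log (Real.exp (y p + l) + g p) := by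
      have h1 := (abs_le.1 hgy).1
      have h2 := Real.exp_pos (y p)
      have h3 : Real.exp (y p) ≤ Real.exp (y p + l) := Real.exp_le_exp.2 hyy
      exact Real.log_le_log (by nlinarith) (by linarith)
    have hB : (∫ u in Set.Ioc (Real.log (Real.exp (y p) + g p)) (Real.log (Real.exp (y p + l) + g p)), ff p u) -
        ∫ t in Set.Ioc (y' p) (y' p + l), ff p t =
        Pool.Agent.H305R2.FF p (Real.log (Real.exp (y p + l) + g p)) -
          Pool.Agent.H305R2.FF p (y' p + l) := by
      rw [← Pool.Agent.H305R2.FF_sub p hmono, ← Pool.Agent.H305R2.FF_sub p (show y' p ≤ y' p + l by linarith)]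
      ring
    have hB2 := FF_lip p (Real.log (Real.exp (y p + l) + g p)) (y' p + l)
    rw [← hB] at hB2
    have hB3 : |Real.log (Real.exp (y p + l) + g p) - (y' p + l)| ≤ 4 * ε := by
      have e : Real.log (Real.exp (y p + l) + g p) - (y' p + l) =
          (Real.log (Real.exp (y p + l) + g p) - (y p + l)) - (y' p - y p) := by ring
      rw [e]
      refine (abs_sub _ _).trans ?_
      have : |y' p - y p| ≤ 2 * ε := hs1
      linarith
    have h5 := hB2.trans hB3
    have hA0 : 0 ≤ ∫ t in Set.Ioc (y p) (y p + l), fl g p t :=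
      setIntegral_nonneg measurableSet_Ioc fun t _ => fl_nonneg g p t
    have h6 : 2 * ε * ∫ t in Set.Ioc (y p) (y p + l), fl g p t ≤ 2 * ε := by nlinarith
    have h7 := abs_le.1 (hcmp.trans h6)
    have h8 := abs_le.1 h5
    rw [abs_le]
    constructor <;> linarith
  have hy' : Tendsto (fun p : ℕ => y' p / p) atTop (𝓝 a) := by
    have h1 : Tendsto (fun p : ℕ => (y' p - y p) / p) atTop (𝓝 0) := by
      refine squeeze_zero_norm' ?_ (tendsto_one_div_atTop_nhds_zero_nat (𝕜 := ℝ))
      filter_upwards [hbasic] with p hp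
      obtain ⟨hp1, -, h2, h3, -⟩ := hp
      have hp0 : (0 : ℝ) < p := by exact_mod_cast hp1
      rw [Real.norm_eq_abs, abs_div, abs_of_pos hp0]
      gcongr
      linarith
    have h2 := h1.add hy
    rw [zero_add] at h2
    refine h2.congr fun p => ?_
    ring
  have hmain := window_asymp_l ha0 hl hl1 hy'
  have hdiff : Tendsto (fun p : ℕ => ((∫ t in Set.Ioc (y p) (y p + l), fl g p t) -
      ∫ t in Set.Ioc (y' p) (y' p + l), ff p t) * (p / Real.log p)) atTop (𝓝 0) := by
    have h0 : Tendsto (fun p : ℕ => 6 * C * ((p : ℝ) ^ 1 * Real.exp (-((c - κ) * p)))) atTop (𝓝 0) := by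
      have hcast := tendsto_natCast_atTop_atTop (R := ℝ)
      have h1 := (Real.tendsto_pow_mul_exp_neg_atTop_nhds_zero 1).comp (hcast.const_mul_atTop hδ)
      have h2 := h1.const_mul (6 * C * (c - κ)⁻¹)
      rw [mul_zero] at h2
      refine h2.congr fun p => ?_
      simp only [Function.comp]
      field_simp
    refine squeeze_zero_norm' ?_ h0
    filter_upwards [hbasic, eventually_ge_atTop 3] with p hp hp3
    obtain ⟨-, h1, -, -, h4⟩ := hp
    have hp3' : (3 : ℝ) ≤ p := by exact_mod_cast hp3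
    have hp0 : (0 : ℝ) < p := by linarith
    have hlog : 1 ≤ Real.log p := by
      rw [Real.le_log_iff_exp_le hp0]
      have := Real.exp_one_lt_d9
      linarith
    rw [Real.norm_eq_abs, abs_mul, abs_of_nonneg (show (0 : ℝ) ≤ p / Real.log p by positivity)]
    calc _ ≤ 6 * (C * Real.exp (-((c - κ) * p))) * (p / 1) := by
          gcongr
      _ = _ := by ring
  have h := hdiff.add hmain
  rw [zero_add] at h
  refine h.congr fun p => ?_
  ring

/-- windows of any length -/
lemma asymp_fl_any {g : ℕ → ℝ} {κ C : ℝ} (hκ : 0 ≤ κ) (hC : 0 < C)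
    (hg : ∀ p : ℕ, |g p| ≤ C * Real.exp (κ * p)) {a l : ℝ} (ha : κ < a) (hl : 0 < l)
    (y : ℕ → ℝ) (hy : Tendsto (fun p : ℕ => y p / p) atTop (𝓝 a)) :
    Tendsto (fun p : ℕ => (∫ t in Set.Ioc (y p) (y p + l), fl g p t) * (p / Real.log p)) atTop
      (𝓝 (Real.exp Real.eulerMascheroniConstant * l / a)) := by
  obtain ⟨k, hk⟩ := exists_nat_gt l
  have hk0 : (0 : ℝ) < k := hl.trans hk
  have hkn : 0 < k := by exact_mod_cast hk0
  set h := l / k with hh
  have hh0 : 0 < h := by positivity
  have hh1 : h ≤ 1 := by rw [hh, div_le_one hk0]; exact hk.le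
  have hlk : l = k * h := by rw [hh]; field_simp
  have key : ∀ j : ℕ, Tendsto (fun p : ℕ =>
      (∫ t in Set.Ioc (y p) (y p + j * h), fl g p t) * (p / Real.log p)) atTop
      (𝓝 (Real.exp Real.eulerMascheroniConstant * (j * h) / a)) := by
    intro j
    induction j with
    | zero => simp
    | succ j ih =>
      have h1 := asymp_fl_l hκ hC hg ha hh0 hh1 (fun p => y p + j * h) (by
        have h2 : Tendsto (fun p : ℕ => (j * h) / (p : ℝ)) atTop (𝓝 0) :=
          tendsto_const_div_atTop_nhds_zero_nat _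
        have h3 := hy.add h2
        rw [add_zero] at h3
        refine h3.congr fun p => ?_
        rw [← add_div])
      have h4 := ih.add h1
      have e : Real.exp Real.eulerMascheroniConstant * (j * h) / a +
          Real.exp Real.eulerMascheroniConstant * h / a =
          Real.exp Real.eulerMascheroniConstant * ((j + 1 : ℕ) * h) / a := by
        push_cast; ring
      rw [e] at h4
      refine h4.congr fun p => ?_
      rw [← add_mul]
      congr 1
      have e1 : y p + ((j + 1 : ℕ) : ℝ) * h = y p + j * h + h := by push_cast; ring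
      rw [e1, ← setIntegral_union (Set.Ioc_disjoint_Ioc_of_le le_rfl) measurableSet_Ioc
        (integrableOn_fl g p _ _) (integrableOn_fl g p _ _),
        Set.Ioc_union_Ioc_eq_Ioc (by nlinarith [hh0.le, (Nat.cast_nonneg j : (0:ℝ) ≤ j), mul_nonneg (Nat.cast_nonneg j : (0:ℝ) ≤ j) hh0.le]) (by linarith)]
  rw [hlk]
  exact key k

/-- upper bound for long windows -/
lemma long_fl {g : ℕ → ℝ} {κ C : ℝ} (hκ : 0 ≤ κ) (hC : 0 < C)
    (hg : ∀ p : ℕ, |g p| ≤ C * Real.exp (κ * p)) {c : ℝ} (hc : κ < c) :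
    ∃ K : ℝ, 0 < K ∧ ∀ᶠ p : ℕ in atTop, ∀ y : ℝ, c * p ≤ y → ∀ n : ℕ,
      ∫ t in Set.Ioc y (y + n), fl g p t ≤ K * n * (Real.log p / p) := by
  obtain ⟨K, hK, hev⟩ := short_fl hκ hC hg c hc
  refine ⟨K, hK, ?_⟩
  filter_upwards [hev, eventually_ge_atTop 1] with p hp hp1 y hy n
  have hp1' : (1 : ℝ) ≤ p := by exact_mod_cast hp1
  induction n with
  | zero => simp
  | succ n ih =>
    have h1 := hp (y + n) (by linarith [(Nat.cast_nonneg n : (0:ℝ) ≤ n)]) 1
      (by rw [div_le_one (by linarith)]; exact hp1') le_rfl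
    have e1 : y + ((n + 1 : ℕ) : ℝ) = y + n + 1 := by push_cast; ring
    rw [e1, ← Set.Ioc_union_Ioc_eq_Ioc (show y ≤ y + n by linarith [(Nat.cast_nonneg n : (0:ℝ) ≤ n)])
      (show y + n ≤ y + n + 1 by linarith),
      setIntegral_union (Set.Ioc_disjoint_Ioc_of_le le_rfl) measurableSet_Ioc
        (integrableOn_fl g p _ _) (integrableOn_fl g p _ _)]
    push_cast
    nlinarith

end Pool.Agent.W56
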