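import Mathlib
import Pool.Agent.H447R2.ML.P7
import Pool.Agent.H447R2.ML.Pert2
import Pool.Agent.W56.FA

set_option autoImplicit false

/-!
# Pair bound for affine families
-/

namespace Pool.Agent.W56

open Filter Topology MeasureTheory
open Pool.Agent.H305R2 (roughPart NN ff measurable_ff ff_nonneg ff_le_one integrableOn_ff bounds
  FF_sub)
open Pool.Agent.H447R2.ML

lemma exp_two_ge : (4 : ℝ) ≤ Real.exp 2 := by
  have h1 := Real.exp_one_gt_d9
  have h2 : Real.exp 2 = Real.exp 1 * Real.exp 1 := by rw [← Real.exp_add]; norm_num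
  rw [h2]; nlinarith

lemma fl1_le {q : ℕ} {y y' : ℝ} (hy : 2 ≤ y) (h : y ≤ y') :
    ∫ t in Set.Ioc y y', fl (fun _ => 1) q t ≤
      2 * ∫ t in Set.Ioc (Real.log (Real.exp y + 1)) (Real.log (Real.exp y + 1) + (y' - y)),
        ff q t := by
  have he : (4 : ℝ) ≤ Real.exp y := exp_two_ge.trans (Real.exp_le_exp.2 hy)
  have hg : |(fun _ : ℕ => (1 : ℝ)) q| ≤ (1 / 4) * Real.exp y := by
    simp only [abs_one]; linarith
  have hc := compare (g := fun _ => 1) (p := q) (ε := 1 / 4) le_rfl hg h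
  have hc' := (abs_le.1 hc).1
  have hsub : ∫ u in Set.Ioc (Real.log (Real.exp y + 1)) (Real.log (Real.exp y' + 1)), ff q u ≤
      ∫ t in Set.Ioc (Real.log (Real.exp y + 1)) (Real.log (Real.exp y + 1) + (y' - y)), ff q t := by
    refine setIntegral_mono_set (integrableOn_ff q _ _) (Eventually.of_forall fun t => ff_nonneg q t) ?_
    refine (Set.Ioc_subset_Ioc_right ?_).eventuallyLE
    rw [Real.log_le_iff_le_exp (by positivity), Real.exp_add, Real.exp_log (by positivity)]
    have e1 : (Real.exp y + 1) * Real.exp (y' - y) = Real.exp y' + Real.exp (y' - y) := by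
      rw [add_mul, one_mul, ← Real.exp_add]; congr 2; ring
    rw [e1]
    have := Real.one_le_exp (show (0 : ℝ) ≤ y' - y by linarith)
    linarith
  linarith

lemma ev_loglog {c : ℝ} (hc : 0 < c) : ∀ᶠ q : ℕ in atTop,
    32 * (Real.log q * Real.log (Real.log q)) ≤ c * q := by
  have h1 := (Real.isLittleO_pow_log_id_atTop (n := 2)).bound (show (0 : ℝ) < c / 32 by positivity)
  have h2 := tendsto_natCast_atTop_atTop.eventually h1
  filter_upwards [h2, Pool.Agent.H305R2.log_nat_tendsto.eventually_ge_atTop 1,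
    eventually_ge_atTop 1] with q hq hl hq1
  have hq1' : (1 : ℝ) ≤ q := by exact_mod_cast hq1
  simp only [id, Real.norm_eq_abs] at hq
  rw [abs_of_nonneg (by positivity), abs_of_nonneg (by positivity)] at hq
  have h3 : Real.log (Real.log q) ≤ Real.log q := by
    have := Real.log_le_sub_one_of_pos (show 0 < Real.log (q : ℝ) by linarith)
    linarith
  nlinarith

/-- bound for windows of any length -/
lemma fl1_bound {c : ℝ} (hc : 0 < c) : ∃ K : ℝ, 0 < K ∧ ∀ᶠ q : ℕ in atTop, ∀ u h : ℝ, 0 < h →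
    c * q ≤ u → c * q ≤ u + Real.log h →
    ∫ t in Set.Ioc u (u + h), fl (fun _ => 1) q t ≤ K * h * (Real.log q / q) := by
  obtain ⟨K1, hK1, hev1⟩ := short_interval
  obtain ⟨K2, hK2, hev2⟩ := bounds (c := c / 2) (by positivity)
  refine ⟨2 * (K1 / c + 2 * K2), by positivity, ?_⟩
  have hlarge : ∀ᶠ q : ℕ in atTop, 4 / c < q := tendsto_natCast_atTop_atTop.eventually_gt_atTop _
  filter_upwards [hev1, hev2, ev_loglog hc, hlarge, eventually_ge_atTop 1] with q h1 h2 h3 h4 h5
    u h hh hu huh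
  have hq1 : (1 : ℝ) ≤ q := by exact_mod_cast h5
  have hq0 : (0 : ℝ) < q := by linarith
  rw [div_lt_iff₀ hc] at h4
  have hl : 0 ≤ Real.log (q : ℝ) := Real.log_nonneg hq1
  have hlq : 0 ≤ Real.log (q : ℝ) / q := by positivity
  refine (fl1_le (q := q) (y := u) (y' := u + h) (by nlinarith) (by linarith)).trans ?_
  set w := Real.log (Real.exp u + 1) with hw
  have huw : u ≤ w := by
    rw [hw, Real.le_log_iff_exp_le (by positivity)]
    linarith
  rw [add_sub_cancel_left, mul_assoc, mul_assoc]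
  refine mul_le_mul_of_nonneg_left ?_ two_pos.le
  rcases le_or_gt h 1 with hle | hgt
  · have h6 := h1 w h hh hle (by linarith)
    refine h6.trans ?_
    have h7 : Real.log q / (w + Real.log h) ≤ Real.log q / (c * q) :=
      div_le_div_of_nonneg_left hl (by positivity) (by linarith)
    calc K1 * h * (Real.log q / (w + Real.log h)) ≤ K1 * h * (Real.log q / (c * q)) := by gcongr
      _ = K1 / c * (h * (Real.log q / q)) := by field_simp
      _ ≤ _ := by
        refine mul_le_mul_of_nonneg_right ?_ (by positivity)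
        linarith
  · have h6 := h2.2.1 w (w + h) (by nlinarith) (by linarith)
    refine h6.trans ?_
    have h7 : 1 / (q : ℝ) ≤ h := by
      have : 1 / (q : ℝ) ≤ 1 := by rw [div_le_one hq0]; exact hq1
      linarith
    calc K2 * (w + h - w + 1 / q) * (Real.log q / q) ≤ K2 * (2 * h) * (Real.log q / q) := by
          gcongr
          linarith
      _ = 2 * K2 * (h * (Real.log q / q)) := by ring
      _ ≤ _ := by
        refine mul_le_mul_of_nonneg_right ?_ (by positivity)
        have : 0 < K1 / c := by positivity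
        linarith

lemma log_succ_sub {N : ℕ} (hN : 1 ≤ N) :
    1 / ((N : ℝ) + 1) ≤ Real.log ((N + 1 : ℕ) : ℝ) - Real.log N := by
  have hN0 : (0 : ℝ) < N := by exact_mod_cast hN
  rw [← Real.log_div (by positivity) hN0.ne']
  have h6 := Real.one_sub_inv_le_log_of_pos (show (0 : ℝ) < ((N + 1 : ℕ) : ℝ) / N by positivity)
  have h7 : 1 - (((N + 1 : ℕ) : ℝ) / N)⁻¹ = 1 / ((N : ℝ) + 1) := by push_cast; field_simp; ring
  linarith

/-- one cell -/
lemma cell1 {c : ℝ} (hc : 0 < c) : ∃ K : ℝ, 0 < K ∧ ∀ᶠ q : ℕ in atTop, ∀ (ρ δ : ℝ) (N : ℕ), 1 ≤ ρ →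
    1 ≤ N → c * q ≤ (ρ - 1) * Real.log N + δ →
    ∫ v in (Real.log N)..(Real.log ((N + 1 : ℕ) : ℝ)), fl (fun _ => 1) q (ρ * v + δ) ≤
      K * (Real.log ((N + 1 : ℕ) : ℝ) - Real.log N) * (Real.log q / q) := by
  obtain ⟨K, hK, hev⟩ := fl1_bound (c := c / 2) (by positivity)
  refine ⟨K, hK, ?_⟩
  have hlarge : ∀ᶠ q : ℕ in atTop, 2 / c < q := tendsto_natCast_atTop_atTop.eventually_gt_atTop _
  filter_upwards [hev, hlarge] with q hq hl ρ δ N hρ hN hh
  rw [div_lt_iff₀ hc] at hl
  have hN1 : (1 : ℝ) ≤ N := by exact_mod_cast hN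
  have hN0 : (0 : ℝ) < N := by linarith
  have hlogN : 0 ≤ Real.log (N : ℝ) := Real.log_nonneg hN1
  have hρ0 : 0 < ρ := by linarith
  have hd := log_succ_sub hN
  have hd0 : 0 < Real.log ((N + 1 : ℕ) : ℝ) - Real.log N := lt_of_lt_of_le (by positivity) hd
  set h := ρ * (Real.log ((N + 1 : ℕ) : ℝ) - Real.log N) with hhd
  have hh0 : 0 < h := by positivity
  have hlogh : -(Real.log N + 1) ≤ Real.log h := by
    have h1 : 1 / ((N : ℝ) + 1) ≤ h := by
      rw [hhd]
      nlinarith
    have h2 := Real.log_le_log (by positivity) h1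
    rw [one_div, Real.log_inv] at h2
    have h3 : Real.log ((N : ℝ) + 1) ≤ Real.log N + 1 := by
      rw [Real.log_le_iff_le_exp (by positivity), Real.exp_add, Real.exp_log hN0]
      have := Real.exp_one_gt_d9
      nlinarith
    linarith
  have h4 := hq (ρ * Real.log N + δ) h hh0 (by nlinarith) (by nlinarith)
  rw [intervalIntegral.integral_comp_mul_add (fun v => fl (fun _ => 1) q v) hρ0.ne' δ,
    intervalIntegral.integral_of_le (by nlinarith), smul_eq_mul]
  have e1 : ρ * Real.log ((N + 1 : ℕ) : ℝ) + δ = ρ * Real.log N + δ + h := by rw [hhd]; ring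
  rw [e1]
  calc ρ⁻¹ * ∫ t in Set.Ioc (ρ * Real.log N + δ) (ρ * Real.log N + δ + h), fl (fun _ => 1) q t ≤
      ρ⁻¹ * (K * h * (Real.log q / q)) := mul_le_mul_of_nonneg_left h4 (by positivity)
    _ = _ := by rw [hhd]; field_simp

/-- the pair bound -/
theorem pair1 {c : ℝ} (hc : 0 < c) : ∃ K : ℝ, 0 < K ∧ ∃ P : ℕ, ∀ p q : ℕ, P ≤ p → P ≤ q →
    ∀ a b ρ δ : ℝ, a ≤ b → c * p + 2 ≤ a → 1 ≤ ρ → c * q ≤ (ρ - 1) * (a - 1) + δ →
    ∫ v in Set.Ioc a b, fl (fun _ => 1) p v * fl (fun _ => 1) q (ρ * v + δ) ≤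
      K * ((b - a) + 2) * (Real.log p / p) * (Real.log q / q) := by
  obtain ⟨K1, hK1, hev1⟩ := cell1 hc
  obtain ⟨K2, hK2, hev2⟩ := fl1_bound hc
  obtain ⟨P, hP⟩ := eventually_atTop.1 ((hev1.and hev2).and (eventually_ge_atTop 1))
  refine ⟨K1 * K2, by positivity, P, fun p q hp hq a b ρ δ hab ha hρ hh => ?_⟩
  obtain ⟨⟨h1, _⟩, hq1⟩ := hP q hq
  obtain ⟨⟨_, h2⟩, hp1⟩ := hP p hp
  have hp1' : (1 : ℝ) ≤ p := by exact_mod_cast hp1
  have hq1' : (1 : ℝ) ≤ q := by exact_mod_cast hq1
  have hlq : 0 ≤ Real.log (q : ℝ) / q := div_nonneg (Real.log_nonneg hq1') (by linarith)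
  have hcp : 0 < c * p := by positivity
  set N0 := ⌊Real.exp a⌋₊ with hN0
  set N1 := ⌊Real.exp b⌋₊ with hN1
  have hN0p : 1 ≤ N0 := Nat.floor_pos.2 (Real.one_le_exp (by linarith))
  have hN01 : N0 ≤ N1 := Nat.floor_mono (Real.exp_le_exp.2 hab)
  have hN0r : (1 : ℝ) ≤ N0 := by exact_mod_cast hN0p
  have hN1r : (1 : ℝ) ≤ N1 := by exact_mod_cast hN0p.trans hN01
  have hl0 : Real.log N0 ≤ a := by
    rw [Real.log_le_iff_le_exp (by linarith)]
    exact Nat.floor_le (Real.exp_pos _).le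
  have hl1 : b ≤ Real.log ((N1 + 1 : ℕ) : ℝ) := by
    rw [Real.le_log_iff_exp_le (by positivity)]
    push_cast
    exact (Nat.lt_floor_add_one _).le
  have hexp1 : (2 : ℝ) ≤ Real.exp 1 := by have := Real.exp_one_gt_d9; linarith
  have hl0' : a - 1 ≤ Real.log N0 := by
    rw [Real.le_log_iff_exp_le (by linarith), Real.exp_sub, div_le_iff₀ (Real.exp_pos 1)]
    have := Nat.lt_floor_add_one (Real.exp a)
    rw [← hN0] at this
    nlinarith
  have hl1' : Real.log ((N1 + 1 : ℕ) : ℝ) ≤ b + 1 := by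
    rw [Real.log_le_iff_le_exp (by positivity), Real.exp_add]
    push_cast
    have : (N1 : ℝ) ≤ Real.exp b := Nat.floor_le (Real.exp_pos _).le
    have hb1 : 1 ≤ Real.exp b := Real.one_le_exp (by linarith)
    nlinarith [Real.exp_pos b]
  set F : ℝ → ℝ := fun v => fl (fun _ => 1) p v * fl (fun _ => 1) q (ρ * v + δ) with hF
  have hmeas : Measurable F := (measurable_fl _ p).mul
    ((measurable_fl _ q).comp ((measurable_const_mul ρ).add_const δ))
  have hFn : ∀ v, 0 ≤ F v := fun v => mul_nonneg (fl_nonneg _ _ _) (fl_nonneg _ _ _)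
  have hF1 : ∀ v, F v ≤ 1 := fun v => by
    have h3 := fl_nonneg (fun _ => 1) p v
    have h4 := fl_le_one (fun _ => 1) p v
    have h5 := fl_nonneg (fun _ => 1) q (ρ * v + δ)
    have h6 := fl_le_one (fun _ => 1) q (ρ * v + δ)
    simp only [hF]
    nlinarith
  have hFi : ∀ x y : ℝ, IntegrableOn F (Set.Ioc x y) := fun x y =>
    Measure.integrableOn_of_bounded (M := 1) (by simp) hmeas.aestronglyMeasurable
      (Eventually.of_forall fun v => by
        rw [Real.norm_eq_abs, abs_of_nonneg (hFn v)]; exact hF1 v)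
  have hFii : ∀ x y : ℝ, IntervalIntegrable F volume x y := fun x y => ⟨hFi x y, hFi y x⟩
  have hii : ∀ x y : ℝ, IntervalIntegrable (fl (fun _ => 1) p) volume x y := fun x y =>
    ⟨integrableOn_fl _ _ _ _, integrableOn_fl _ _ _ _⟩
  -- cells
  have hcell : ∀ N ∈ Finset.Ico N0 (N1 + 1),
      ∫ v in (Real.log (N : ℝ))..(Real.log ((N + 1 : ℕ) : ℝ)), F v ≤
        (K1 * (Real.log q / q)) *
          ∫ v in (Real.log (N : ℝ))..(Real.log ((N + 1 : ℕ) : ℝ)), fl (fun _ => 1) p v := by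
    intro N hN
    rw [Finset.mem_Ico] at hN
    have hNp : 1 ≤ N := hN0p.trans hN.1
    have hNr : (1 : ℝ) ≤ N := by exact_mod_cast hNp
    have hNr0 : (0 : ℝ) < N := by linarith
    have hlogle : Real.log (N : ℝ) ≤ Real.log ((N + 1 : ℕ) : ℝ) :=
      Real.log_le_log hNr0 (by push_cast; linarith)
    set r : ℝ := if (roughPart p (N + 1)).Prime then 1 else 0 with hr
    have hr0 : 0 ≤ r := by rw [hr]; split_ifs <;> norm_num
    have hval : ∀ v ∈ Set.Ioo (Real.log (N : ℝ)) (Real.log ((N + 1 : ℕ) : ℝ)),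
        fl (fun _ => 1) p v = r := by
      intro v hv
      have h3 : (N : ℝ) < Real.exp v := (Real.log_lt_iff_lt_exp hNr0).1 hv.1
      have h4 : Real.exp v < ((N + 1 : ℕ) : ℝ) := (Real.lt_log_iff_exp_lt (by positivity)).1 hv.2
      have h5 : ⌊Real.exp v + 1⌋₊ = N + 1 := by
        rw [Nat.floor_add_one (Real.exp_pos v).le]
        congr 1
        rw [Nat.floor_eq_iff (Real.exp_pos v).le]
        push_cast at h4
        exact ⟨h3.le, h4⟩
      unfold fl
      rw [h5, hr]
    have e1 : ∫ v in (Real.log (N : ℝ))..(Real.log ((N + 1 : ℕ) : ℝ)), F v =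
        r * ∫ v in (Real.log (N : ℝ))..(Real.log ((N + 1 : ℕ) : ℝ)),
          fl (fun _ => 1) q (ρ * v + δ) := by
      rw [← intervalIntegral.integral_const_mul]
      rw [intervalIntegral.integral_of_le hlogle, intervalIntegral.integral_of_le hlogle,
        integral_Ioc_eq_integral_Ioo, integral_Ioc_eq_integral_Ioo]
      refine setIntegral_congr_fun measurableSet_Ioo fun v hv => ?_
      simp only [hF]
      rw [hval v hv]
    have e2 : ∫ v in (Real.log (N : ℝ))..(Real.log ((N + 1 : ℕ) : ℝ)), fl (fun _ => 1) p v =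
        r * (Real.log ((N + 1 : ℕ) : ℝ) - Real.log N) := by
      rw [intervalIntegral.integral_of_le hlogle, integral_Ioc_eq_integral_Ioo,
        setIntegral_congr_fun measurableSet_Ioo hval, setIntegral_const, smul_eq_mul,
        Real.volume_real_Ioo_of_le hlogle]
      ring
    rw [e1, e2]
    have h3 := h1 ρ δ N hρ hNp (by
      have h4 : a - 1 ≤ Real.log (N : ℝ) :=
        hl0'.trans (Real.log_le_log (by linarith) (by exact_mod_cast hN.1))
      nlinarith)
    calc r * _ ≤ r * (K1 * (Real.log ((N + 1 : ℕ) : ℝ) - Real.log N) * (Real.log q / q)) :=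
          mul_le_mul_of_nonneg_left h3 hr0
      _ = _ := by ring
  have hsum := Finset.sum_le_sum hcell
  rw [← Finset.mul_sum, intervalIntegral.sum_integral_adjacent_intervals_Ico
      (f := F) (a := fun N : ℕ => Real.log (N : ℝ)) (by omega) (fun k _ => hFii _ _),
    intervalIntegral.sum_integral_adjacent_intervals_Ico
      (f := fl (fun _ => 1) p) (a := fun N : ℕ => Real.log (N : ℝ)) (by omega)
      (fun k _ => hii _ _)] at hsum
  have hlogle : Real.log (N0 : ℝ) ≤ Real.log ((N1 + 1 : ℕ) : ℝ) := by linarith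
  rw [intervalIntegral.integral_of_le hlogle, intervalIntegral.integral_of_le hlogle] at hsum
  have h3 : ∫ v in Set.Ioc a b, F v ≤
      ∫ v in Set.Ioc (Real.log (N0 : ℝ)) (Real.log ((N1 + 1 : ℕ) : ℝ)), F v :=
    setIntegral_mono_set (hFi _ _) (Eventually.of_forall hFn)
      (Set.Ioc_subset_Ioc hl0 hl1).eventuallyLE
  have h4 : ∫ v in Set.Ioc (Real.log (N0 : ℝ)) (Real.log ((N1 + 1 : ℕ) : ℝ)), fl (fun _ => 1) p v ≤
      ∫ v in Set.Ioc (a - 1) (a - 1 + (b - a + 2)), fl (fun _ => 1) p v :=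
    setIntegral_mono_set (integrableOn_fl _ _ _ _)
      (Eventually.of_forall fun v => fl_nonneg _ _ _)
      (Set.Ioc_subset_Ioc hl0' (by linarith)).eventuallyLE
  have hlog0 : 0 ≤ Real.log (b - a + 2) := Real.log_nonneg (by linarith)
  have h5 := h2 (a - 1) (b - a + 2) (by linarith) (by linarith) (by linarith)
  calc ∫ v in Set.Ioc a b, F v ≤ _ := h3
    _ ≤ _ := hsum
    _ ≤ (K1 * (Real.log q / q)) * (K2 * (b - a + 2) * (Real.log p / p)) :=
        mul_le_mul_of_nonneg_left (h4.trans h5) (by positivity)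
    _ = _ := by ring

end Pool.Agent.W56
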