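import Mathlib

set_option autoImplicit false

/-!
# Asymptotics of the measure of a tail union, and a change of variable
-/

namespace Pool.Agent.W56

open Filter Topology MeasureTheory

lemma w_hasSum (M : ℕ) :
    HasSum (fun j : ℕ => ((M + j : ℕ) : ℝ) / 2 ^ (M + j)) ((2 * M + 2) / 2 ^ M) := by
  have h1 : HasSum (fun n : ℕ => (n : ℝ) * (1 / 2 : ℝ) ^ n) ((1 / 2) / (1 - 1 / 2) ^ 2) :=
    hasSum_coe_mul_geometric_of_norm_lt_one (by norm_num)
  have h2 : HasSum (fun n : ℕ => (1 / 2 : ℝ) ^ n) (1 - 1 / 2)⁻¹ :=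
    hasSum_geometric_of_norm_lt_one (by norm_num)
  have h3 := (h2.mul_left (M : ℝ)).add h1
  have h4 := h3.mul_left (((2 : ℝ) ^ M)⁻¹)
  have e1 : ((2 : ℝ) ^ M)⁻¹ * ((M : ℝ) * (1 - 1 / 2)⁻¹ + (1 / 2) / (1 - 1 / 2) ^ 2) =
      (2 * M + 2) / 2 ^ M := by
    norm_num
    field_simp
  rw [e1] at h4
  have e2 : (fun j : ℕ => ((M + j : ℕ) : ℝ) / 2 ^ (M + j)) =
      fun i : ℕ => ((2 : ℝ) ^ M)⁻¹ * ((M : ℝ) * (1 / 2) ^ i + (i : ℝ) * (1 / 2) ^ i) := by
    funext j
    push_cast
    rw [pow_add, one_div, inv_pow]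
    field_simp
  rw [e2]
  exact h4

section meas

variable {Ω : Type*} [MeasurableSpace Ω] {μ : Measure Ω} [IsFiniteMeasure μ]

lemma tail_union_le {F : ℕ → Set Ω} {C : ℝ} {M : ℕ} (hC : 0 ≤ C)
    (h : ∀ m, M ≤ m → μ.real (F m) ≤ C * (m / 2 ^ m)) :
    μ.real (⋃ m ∈ Set.Ici M, F m) ≤ C * ((2 * M + 2) / 2 ^ M) := by
  have e : (⋃ m ∈ Set.Ici M, F m) = ⋃ j : ℕ, F (M + j) := by
    ext x
    simp only [Set.mem_iUnion, Set.mem_Ici, exists_prop]
    constructor
    · rintro ⟨m, hm, hx⟩
      exact ⟨m - M, by rwa [Nat.add_sub_cancel' hm]⟩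
    · rintro ⟨j, hx⟩
      exact ⟨M + j, by omega, hx⟩
  have hs := (w_hasSum M).mul_left C
  have h1 : μ (⋃ j : ℕ, F (M + j)) ≤ ENNReal.ofReal (C * ((2 * M + 2) / 2 ^ M)) := by
    calc μ (⋃ j : ℕ, F (M + j)) ≤ ∑' j, μ (F (M + j)) := measure_iUnion_le _
      _ ≤ ∑' j, ENNReal.ofReal (C * (((M + j : ℕ) : ℝ) / 2 ^ (M + j))) := by
          refine ENNReal.tsum_le_tsum fun j => ?_
          rw [← ENNReal.ofReal_toReal (measure_ne_top μ (F (M + j)))]
          exact ENNReal.ofReal_le_ofReal (h (M + j) (by omega))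
      _ = ENNReal.ofReal (∑' j, C * (((M + j : ℕ) : ℝ) / 2 ^ (M + j))) := by
          rw [ENNReal.ofReal_tsum_of_nonneg (fun j => by positivity) hs.summable]
      _ = _ := by rw [hs.tsum_eq]
  rw [e, Measure.real]
  exact ENNReal.toReal_le_of_le_ofReal (by positivity) h1

/-- exact asymptotics of the measure of a tail union -/
theorem union_law {E : ℕ → Set Ω} (hE : ∀ m, MeasurableSet (E m)) {L K : ℝ} (hK : 0 ≤ K)
    (hL : 0 ≤ L)
    (h1 : Tendsto (fun m : ℕ => μ.real (E m) * (2 ^ m / m)) atTop (𝓝 L))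
    (h2 : ∀ᶠ m : ℕ in atTop, ∀ n, m < n → μ.real (E m ∩ E n) ≤ K * (m / 2 ^ m) * (n / 2 ^ n)) :
    Tendsto (fun M : ℕ => μ.real (⋃ m ∈ Set.Ici M, E m) * (2 ^ M / M)) atTop (𝓝 (2 * L)) := by
  have hsmall : Tendsto (fun m : ℕ => K * ((2 * ((m + 1 : ℕ) : ℝ) + 2) / 2 ^ (m + 1))) atTop (𝓝 0) := by
    have h3 : Tendsto (fun m : ℕ => ((m : ℝ) / 2 ^ m)) atTop (𝓝 0) := by
      have := tendsto_pow_const_div_const_pow_of_one_lt 1 (one_lt_two (α := ℝ))
      simpa using this
    have h4 : Tendsto (fun m : ℕ => ((1 : ℝ) / 2 ^ m)) atTop (𝓝 0) := by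
      have := tendsto_pow_const_div_const_pow_of_one_lt 0 (one_lt_two (α := ℝ))
      simpa using this
    have h5 := ((h3.const_mul 2).add (h4.const_mul 2))
    have h6 := (h5.comp (tendsto_add_atTop_nat 1)).const_mul K
    simp only [mul_zero, add_zero] at h6
    refine h6.congr fun m => ?_
    simp only [Function.comp]
    ring
  -- two sided bounds
  have key : ∀ ε : ℝ, 0 < ε → ∀ᶠ M : ℕ in atTop,
      (L - ε) * (2 + 2 / M) ≤ μ.real (⋃ m ∈ Set.Ici M, E m) * (2 ^ M / M) ∧
      μ.real (⋃ m ∈ Set.Ici M, E m) * (2 ^ M / M) ≤ (L + ε) * (2 + 2 / M) := by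
    intro ε hε
    have hlo := h1.eventually_const_lt (show L - ε / 2 < L by linarith)
    have hhi := h1.eventually_lt_const (show L < L + ε by linarith)
    have hsm := hsmall.eventually_lt_const (show (0 : ℝ) < ε / 2 by linarith)
    obtain ⟨M0, hM0⟩ := eventually_atTop.1 ((hlo.and (hhi.and (hsm.and h2))).and (eventually_ge_atTop 1))
    filter_upwards [eventually_ge_atTop M0] with M hM
    have hMp : 1 ≤ M := (hM0 M hM).2
    have hM1 : (1 : ℝ) ≤ M := by exact_mod_cast hMp
    have hMpos : (0 : ℝ) < M := by linarith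
    have h2M : (0 : ℝ) < 2 ^ M := by positivity
    have hb : ∀ m, M ≤ m → (L - ε / 2) * (m / 2 ^ m) ≤ μ.real (E m) ∧
        μ.real (E m) ≤ (L + ε) * (m / 2 ^ m) := by
      intro m hm
      obtain ⟨⟨h3, h4, _, _⟩, hm1⟩ := hM0 m (hM.trans hm)
      have hm1' : (1 : ℝ) ≤ m := by exact_mod_cast hm1
      have hmp : (0 : ℝ) < m := by linarith
      have hpow : (0 : ℝ) < 2 ^ m := by positivity
      have e : μ.real (E m) = μ.real (E m) * (2 ^ m / m) * (m / 2 ^ m) := by field_simp
      constructor
      · rw [e]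
        exact mul_le_mul_of_nonneg_right h3.le (by positivity)
      · rw [e]
        exact mul_le_mul_of_nonneg_right h4.le (by positivity)
    have etail : (2 * (M : ℝ) + 2) / 2 ^ M * (2 ^ M / M) = 2 + 2 / M := by field_simp
    constructor
    · -- lower bound
      set D : ℕ → Set Ω := fun m => E m \ ⋃ n ∈ Set.Ici (m + 1), E n with hD
      have hDm : ∀ m, MeasurableSet (D m) := fun m =>
        (hE m).diff (MeasurableSet.biUnion (Set.to_countable _) fun n _ => hE n)
      have hDlow : ∀ m, M ≤ m → (L - ε) * (m / 2 ^ m) ≤ μ.real (D m) := by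
        intro m hm
        obtain ⟨⟨_, _, h5, h6⟩, hm1⟩ := hM0 m (hM.trans hm)
        have hw : (0 : ℝ) ≤ (m : ℝ) / 2 ^ m := by positivity
        have h7 : μ.real (E m ∩ ⋃ n ∈ Set.Ici (m + 1), E n) ≤ (ε / 2) * (m / 2 ^ m) := by
          have e3 : (E m ∩ ⋃ n ∈ Set.Ici (m + 1), E n) = ⋃ n ∈ Set.Ici (m + 1), (E m ∩ E n) := by
            rw [Set.inter_iUnion₂]
          rw [e3]
          refine (tail_union_le (C := K * (m / 2 ^ m)) (by positivity)
            fun n hn => h6 n (by omega)).trans ?_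
          calc K * (m / 2 ^ m) * ((2 * ((m + 1 : ℕ) : ℝ) + 2) / 2 ^ (m + 1)) =
              (K * ((2 * ((m + 1 : ℕ) : ℝ) + 2) / 2 ^ (m + 1))) * (m / 2 ^ m) := by ring
            _ ≤ _ := mul_le_mul_of_nonneg_right h5.le hw
        have h8 : μ.real (E m) ≤ μ.real (D m) + μ.real (E m ∩ ⋃ n ∈ Set.Ici (m + 1), E n) := by
          have h9 : E m ⊆ D m ∪ (E m ∩ ⋃ n ∈ Set.Ici (m + 1), E n) := by
            intro x hx
            by_cases hx2 : x ∈ ⋃ n ∈ Set.Ici (m + 1), E n
            · exact Or.inr ⟨hx, hx2⟩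
            · exact Or.inl ⟨hx, hx2⟩
          exact (measureReal_mono h9 (measure_ne_top μ _)).trans (measureReal_union_le _ _)
        have h10 := (hb m hm).1
        nlinarith
      have hdisj : ∀ i j, i < j → Disjoint (D i) (D j) := by
        intro i j hij
        rw [Set.disjoint_left]
        rintro x ⟨_, h3⟩ ⟨h4, _⟩
        exact h3 (Set.mem_biUnion (show j ∈ Set.Ici (i + 1) from hij) h4)
      have hpart : ∀ R : ℕ, ∑ j ∈ Finset.range R, (L - ε) * (((M + j : ℕ) : ℝ) / 2 ^ (M + j)) ≤
          μ.real (⋃ m ∈ Set.Ici M, E m) := by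
        intro R
        have h3 : μ.real (⋃ j ∈ Finset.range R, D (M + j)) = ∑ j ∈ Finset.range R, μ.real (D (M + j)) := by
          refine measureReal_biUnion_finset ?_ (fun j _ => hDm _)
          intro i _ j _ hij
          rcases lt_or_gt_of_ne hij with h | h
          · exact hdisj _ _ (by omega)
          · exact (hdisj _ _ (by omega)).symm
        calc ∑ j ∈ Finset.range R, (L - ε) * (((M + j : ℕ) : ℝ) / 2 ^ (M + j)) ≤
            ∑ j ∈ Finset.range R, μ.real (D (M + j)) :=
              Finset.sum_le_sum fun j _ => hDlow _ (by omega)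
          _ = μ.real (⋃ j ∈ Finset.range R, D (M + j)) := h3.symm
          _ ≤ _ := by
            refine measureReal_mono ?_ (measure_ne_top μ _)
            intro x hx
            simp only [Set.mem_iUnion, exists_prop] at hx ⊢
            obtain ⟨j, _, hx⟩ := hx
            exact ⟨M + j, by simp, hx.1⟩
      have hs := ((w_hasSum M).mul_left (L - ε)).tendsto_sum_nat
      have hlim := le_of_tendsto' hs hpart
      calc (L - ε) * (2 + 2 / M) = ((L - ε) * ((2 * M + 2) / 2 ^ M)) * (2 ^ M / M) := by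
            rw [mul_assoc, etail]
        _ ≤ _ := mul_le_mul_of_nonneg_right hlim (by positivity)
    · have h3 := tail_union_le (μ := μ) (F := E) (C := L + ε) (M := M) (by linarith)
        (fun m hm => (hb m hm).2)
      calc μ.real (⋃ m ∈ Set.Ici M, E m) * (2 ^ M / M) ≤
          ((L + ε) * ((2 * M + 2) / 2 ^ M)) * (2 ^ M / M) :=
            mul_le_mul_of_nonneg_right h3 (by positivity)
        _ = _ := by rw [mul_assoc, etail]
  have hinv : Tendsto (fun M : ℕ => 2 + 2 / (M : ℝ)) atTop (𝓝 2) := by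
    have := (tendsto_const_div_atTop_nhds_zero_nat (𝕜 := ℝ) 2).const_add 2
    simpa using this
  rw [Metric.tendsto_nhds]
  intro η hη
  have hη8 : 0 < η / 4 := by linarith
  have ha := (hinv.const_mul (L - η / 8)).eventually_const_lt
    (show (L - η / 8) * 2 - η / 4 < (L - η / 8) * 2 by linarith)
  have hb := (hinv.const_mul (L + η / 8)).eventually_lt_const
    (show (L + η / 8) * 2 < (L + η / 8) * 2 + η / 4 by linarith)
  filter_upwards [key (η / 8) (by linarith), ha, hb] with M hM h3 h4
  rw [Real.dist_eq, abs_lt]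
  constructor <;> linarith [hM.1, hM.2]

end meas

/-- integrals against `e ^ u` -/
theorem weight_law {S : ℕ → Set ℝ} (hS : ∀ M, MeasurableSet (S M)) {r : ℕ → ℝ} (hr : ∀ M, 0 ≤ r M)
    {φ : ℝ → ℝ} {s t : ℝ} (hst : s < t) (hφ : ContinuousOn φ (Set.Icc s t))
    (hφ0 : ∀ u ∈ Set.Icc s t, 0 ≤ φ u)
    (h : ∀ x y, s ≤ x → x < y → y ≤ t → Tendsto (fun M => (volume.restrict (Set.Ioc x y)).real (S M) * r M)
      atTop (𝓝 (∫ u in x..y, φ u))) :
    Tendsto (fun M => (∫ u in s..t, Real.exp u * (S M).indicator 1 u) * r M) atTop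
      (𝓝 (∫ u in s..t, Real.exp u * φ u)) := by
  set I := ∫ u in s..t, Real.exp u * φ u with hI
  have hI0 : 0 ≤ I := intervalIntegral.integral_nonneg hst.le fun u hu =>
    mul_nonneg (Real.exp_pos u).le (hφ0 u hu)
  have hint : ∀ M (x y : ℝ), IntervalIntegrable (fun u => Real.exp u * (S M).indicator (1 : ℝ → ℝ) u)
      volume x y := by
    intro M x y
    have h1 : IntegrableOn (fun u => Real.exp u * (S M).indicator (1 : ℝ → ℝ) u)
        (Set.uIcc x y) := by
      refine Measure.integrableOn_of_bounded (M := Real.exp (max x y)) (by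
        rw [Set.uIcc, Real.volume_Icc]; exact ENNReal.ofReal_ne_top) ?_ ?_
      · exact (Real.measurable_exp.mul (measurable_one.indicator (hS M))).aestronglyMeasurable
      · refine ae_restrict_of_forall_mem measurableSet_uIcc fun u hu => ?_
        have hu2 : u ≤ max x y := by
          rw [Set.uIcc, Set.mem_Icc] at hu; exact hu.2
        rw [Real.norm_eq_abs, abs_mul, abs_of_pos (Real.exp_pos u)]
        have h2 : |(S M).indicator (1 : ℝ → ℝ) u| ≤ 1 := by
          by_cases hu : u ∈ S M
          · simp [hu]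
          · simp [hu]
        calc Real.exp u * |(S M).indicator (1 : ℝ → ℝ) u| ≤ Real.exp (max x y) * 1 := by
              gcongr
          _ = _ := mul_one _
    exact h1.intervalIntegrable
  have hreal : ∀ M (x y : ℝ), x ≤ y → (volume.restrict (Set.Ioc x y)).real (S M) =
      ∫ u in x..y, (S M).indicator (1 : ℝ → ℝ) u := by
    intro M x y hxy
    rw [intervalIntegral.integral_of_le hxy, integral_indicator_one (hS M)]
  have hint1 : ∀ M (x y : ℝ), IntervalIntegrable (fun u => (S M).indicator (1 : ℝ → ℝ) u)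
      volume x y := by
    intro M x y
    have h1 : IntegrableOn (fun u => (S M).indicator (1 : ℝ → ℝ) u) (Set.uIcc x y) := by
      refine Measure.integrableOn_of_bounded (M := 1) (by
        rw [Set.uIcc, Real.volume_Icc]; exact ENNReal.ofReal_ne_top) ?_ ?_
      · exact (measurable_one.indicator (hS M)).aestronglyMeasurable
      · refine Eventually.of_forall fun u => ?_
        by_cases hu : u ∈ S M
        · simp [hu]
        · simp [hu]
    exact h1.intervalIntegrable
  -- one cell
  have hcell : ∀ M (x y : ℝ), x ≤ y →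
      Real.exp x * (volume.restrict (Set.Ioc x y)).real (S M) ≤
        (∫ u in x..y, Real.exp u * (S M).indicator 1 u) ∧
      (∫ u in x..y, Real.exp u * (S M).indicator 1 u) ≤
        Real.exp y * (volume.restrict (Set.Ioc x y)).real (S M) := by
    intro M x y hxy
    rw [hreal M x y hxy, ← intervalIntegral.integral_const_mul, ← intervalIntegral.integral_const_mul]
    have h0 : ∀ u, 0 ≤ (S M).indicator (1 : ℝ → ℝ) u := fun u =>
      Set.indicator_nonneg (fun _ _ => zero_le_one) u
    constructor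
    · refine intervalIntegral.integral_mono_on hxy ((hint1 M x y).const_mul _) (hint M x y) ?_
      intro u hu
      exact mul_le_mul_of_nonneg_right (Real.exp_le_exp.2 hu.1) (h0 u)
    · refine intervalIntegral.integral_mono_on hxy (hint M x y) ((hint1 M x y).const_mul _) ?_
      intro u hu
      exact mul_le_mul_of_nonneg_right (Real.exp_le_exp.2 hu.2) (h0 u)
  -- partitions
  have hpart : ∀ k : ℕ, 0 < k → ∃ A : ℝ, Real.exp (-((t - s) / k)) * I ≤ A ∧ A ≤ I ∧
      ∃ F : ℕ → ℝ, Tendsto F atTop (𝓝 A) ∧ ∀ M,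
        F M ≤ (∫ u in s..t, Real.exp u * (S M).indicator 1 u) * r M ∧
        (∫ u in s..t, Real.exp u * (S M).indicator 1 u) * r M ≤ Real.exp ((t - s) / k) * F M := by
    intro k hk
    have hk0 : (0 : ℝ) < k := by exact_mod_cast hk
    set d := (t - s) / k with hd
    have hd0 : 0 < d := by
      have : 0 < t - s := by linarith
      positivity
    set x : ℕ → ℝ := fun i => s + i * d with hx
    have hx0 : x 0 = s := by simp [hx]
    have hxk : x k = t := by simp only [hx, hd]; field_simp; ring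
    have hxlt : ∀ i, x i < x (i + 1) := by intro i; simp only [hx]; push_cast; linarith
    have hxd : ∀ i, x (i + 1) = x i + d := by intro i; simp only [hx]; push_cast; ring
    have hxmono : ∀ i j, i ≤ j → x i ≤ x j := by
      intro i j hij
      simp only [hx]
      have : (i : ℝ) ≤ j := by exact_mod_cast hij
      nlinarith
    have hxs : ∀ i, s ≤ x i := fun i => hx0 ▸ hxmono 0 i (Nat.zero_le _)
    have hxt : ∀ i, i ≤ k → x i ≤ t := fun i hi => hxk ▸ hxmono i k hi
    have hcontw : ContinuousOn (fun u => Real.exp u * φ u) (Set.Icc s t) :=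
      Real.continuous_exp.continuousOn.mul hφ
    have hφi : ∀ i < k, IntervalIntegrable φ volume (x i) (x (i + 1)) := fun i hi =>
      (hφ.mono (Set.Icc_subset_Icc (hxs i) (hxt (i + 1) hi))).intervalIntegrable_of_Icc (hxlt i).le
    have hwi : ∀ i < k, IntervalIntegrable (fun u => Real.exp u * φ u) volume (x i) (x (i + 1)) :=
      fun i hi => (hcontw.mono (Set.Icc_subset_Icc (hxs i) (hxt (i + 1) hi))).intervalIntegrable_of_Icc
        (hxlt i).le
    have hIsum : I = ∑ i ∈ Finset.range k, ∫ u in x i..x (i + 1), Real.exp u * φ u := by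
      rw [intervalIntegral.sum_integral_adjacent_intervals hwi, hx0, hxk]
    refine ⟨∑ i ∈ Finset.range k, Real.exp (x i) * ∫ u in x i..x (i + 1), φ u, ?_, ?_,
      fun M => ∑ i ∈ Finset.range k,
        Real.exp (x i) * ((volume.restrict (Set.Ioc (x i) (x (i + 1)))).real (S M) * r M), ?_, ?_⟩
    · rw [hIsum, Finset.mul_sum]
      refine Finset.sum_le_sum fun i hi => ?_
      rw [Finset.mem_range] at hi
      rw [← intervalIntegral.integral_const_mul, ← intervalIntegral.integral_const_mul]
      refine intervalIntegral.integral_mono_on (hxlt i).le ((hwi i hi).const_mul _)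
        ((hφi i hi).const_mul _) fun u hu => ?_
      rw [← mul_assoc, ← Real.exp_add]
      refine mul_le_mul_of_nonneg_right (Real.exp_le_exp.2 ?_)
        (hφ0 u ⟨(hxs i).trans hu.1, hu.2.trans (hxt _ hi)⟩)
      have := hu.2
      rw [hxd] at this
      linarith
    · rw [hIsum]
      refine Finset.sum_le_sum fun i hi => ?_
      rw [Finset.mem_range] at hi
      rw [← intervalIntegral.integral_const_mul]
      refine intervalIntegral.integral_mono_on (hxlt i).le ((hφi i hi).const_mul _)
        (hwi i hi) fun u hu => ?_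
      exact mul_le_mul_of_nonneg_right (Real.exp_le_exp.2 hu.1)
        (hφ0 u ⟨(hxs i).trans hu.1, hu.2.trans (hxt _ hi)⟩)
    · refine tendsto_finsetSum _ fun i hi => ?_
      rw [Finset.mem_range] at hi
      exact (h _ _ (hxs i) (hxlt i) (hxt _ hi)).const_mul _
    · intro M
      have e1 : (∫ u in s..t, Real.exp u * (S M).indicator 1 u) =
          ∑ i ∈ Finset.range k, ∫ u in x i..x (i + 1), Real.exp u * (S M).indicator 1 u := by
        rw [intervalIntegral.sum_integral_adjacent_intervals (fun i _ => hint M _ _), hx0, hxk]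
      rw [e1, Finset.sum_mul]
      constructor
      · refine Finset.sum_le_sum fun i _ => ?_
        rw [← mul_assoc]
        exact mul_le_mul_of_nonneg_right (hcell M _ _ (hxlt i).le).1 (hr M)
      · rw [Finset.mul_sum]
        refine Finset.sum_le_sum fun i _ => ?_
        have e2 : Real.exp d * (Real.exp (x i) *
            ((volume.restrict (Set.Ioc (x i) (x (i + 1)))).real (S M) * r M)) =
            Real.exp (x (i + 1)) * (volume.restrict (Set.Ioc (x i) (x (i + 1)))).real (S M) * r M := by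
          have e3 : Real.exp (x (i + 1)) = Real.exp (x i) * Real.exp d := by
            rw [hxd, Real.exp_add]
          rw [e3]; ring
        rw [e2]
        exact mul_le_mul_of_nonneg_right (hcell M _ _ (hxlt i).le).2 (hr M)
  -- conclusion
  have hek : Tendsto (fun k : ℕ => Real.exp ((t - s) / k)) atTop (𝓝 1) := by
    have := (Real.continuous_exp.tendsto 0).comp (tendsto_const_div_atTop_nhds_zero_nat (t - s))
    rw [Real.exp_zero] at this
    exact this
  have hek' : Tendsto (fun k : ℕ => Real.exp (-((t - s) / k))) atTop (𝓝 1) := by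
    have h1 := (tendsto_const_div_atTop_nhds_zero_nat (𝕜 := ℝ) (t - s)).neg
    rw [neg_zero] at h1
    have := (Real.continuous_exp.tendsto 0).comp h1
    rw [Real.exp_zero] at this
    exact this
  rw [Metric.tendsto_nhds]
  intro η hη
  have h1 := (hek.mul_const I).eventually_lt_const (show 1 * I < I + η / 2 by linarith)
  have h2 := (hek'.mul_const I).eventually_const_lt (show I - η / 2 < 1 * I by linarith)
  obtain ⟨k, hk1, hk2, hk3⟩ := (h1.and (h2.and (eventually_gt_atTop 0))).exists
  obtain ⟨A, hA1, hA2, F, hF, hFM⟩ := hpart k hk3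
  have h3 := hF.eventually_const_lt (show A - η / 2 < A by linarith)
  have h4 := (hF.const_mul (Real.exp ((t - s) / k))).eventually_lt_const
    (show Real.exp ((t - s) / k) * A < Real.exp ((t - s) / k) * A + η / 2 by linarith)
  filter_upwards [h3, h4] with M h5 h6
  obtain ⟨h7, h8⟩ := hFM M
  have h9 : Real.exp ((t - s) / k) * A ≤ Real.exp ((t - s) / k) * I :=
    mul_le_mul_of_nonneg_left hA2 (Real.exp_pos _).le
  rw [Real.dist_eq, abs_lt]
  constructor <;> linarith

lemma vol_exp {T : Set ℝ} (hT : MeasurableSet T) {s t : ℝ} (hst : s ≤ t) :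
    (volume.restrict (Set.Ioc (Real.exp s) (Real.exp t))).real T =
      ∫ u in s..t, Real.exp u * (Real.exp ⁻¹' T).indicator 1 u := by
  have himg : Real.exp '' Set.Ioc s t = Set.Ioc (Real.exp s) (Real.exp t) := by
    ext x
    constructor
    · rintro ⟨u, hu, rfl⟩
      exact ⟨Real.exp_lt_exp.2 hu.1, Real.exp_le_exp.2 hu.2⟩
    · intro hx
      have hx0 : 0 < x := lt_trans (Real.exp_pos s) hx.1
      exact ⟨Real.log x, ⟨(Real.lt_log_iff_exp_lt hx0).2 hx.1, (Real.log_le_iff_le_exp hx0).2 hx.2⟩,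
        Real.exp_log hx0⟩
  rw [← integral_indicator_one hT, ← himg, integral_image_eq_integral_abs_deriv_smul
    measurableSet_Ioc (f' := Real.exp) (fun x _ => (Real.hasDerivAt_exp x).hasDerivWithinAt)
    (Real.exp_injective.injOn), intervalIntegral.integral_of_le hst]
  refine setIntegral_congr_fun measurableSet_Ioc fun u _ => ?_
  simp only [smul_eq_mul, abs_of_pos (Real.exp_pos u)]
  rfl

end Pool.Agent.W56
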