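import Mathlib
import Pool.Agent.W56.FB
import Pool.Agent.W56.FC

set_option autoImplicit false

/-!
# The two laws
-/

namespace Pool.Agent.W56

open Filter Topology MeasureTheory
open Pool.Agent.H305R2 (roughPart NN ff measurable_ff ff_nonneg ff_le_one integrableOn_ff bounds
  FF_sub)
open Pool.Agent.H447R2.ML

lemma exp_two_pow (m : ℕ) : Real.exp ((2 : ℝ) ^ m * Real.log 2) = 2 ^ (2 ^ m) := by
  have h : ((2 : ℝ) ^ m) = ((2 ^ m : ℕ) : ℝ) := by push_cast; rfl
  rw [h, Real.exp_nat_mul, Real.exp_log two_pos]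

lemma tendsto_p (k : ℕ) : Tendsto (fun m : ℕ => 2 ^ (m + k)) atTop atTop :=
  (tendsto_pow_atTop_atTop_of_one_lt (one_lt_two (α := ℕ))).comp (tendsto_add_atTop_nat k)

lemma ratio_one (k : ℝ) : Tendsto (fun m : ℕ => ((m : ℝ) + k) / m) atTop (𝓝 1) := by
  have h := (tendsto_const_div_atTop_nhds_zero_nat (𝕜 := ℝ) k).const_add 1
  rw [add_zero] at h
  refine h.congr' ?_
  filter_upwards [eventually_ge_atTop 1] with m hm
  have hm0 : (0 : ℝ) < m := by exact_mod_cast hm
  field_simp

/-- passage from the indicator function to the measure -/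
lemma real_eq {E : Set ℝ} (hE : MeasurableSet E) {f : ℝ → ℝ} (hf : ∀ u, f u = E.indicator 1 u)
    (s t : ℝ) : (volume.restrict (Set.Ioc s t)).real E = ∫ u in Set.Ioc s t, f u := by
  rw [← integral_indicator_one hE]
  exact integral_congr_ae (Eventually.of_forall fun u => (hf u).symm)

lemma real_inter_eq {E F : Set ℝ} (hE : MeasurableSet E) (hF : MeasurableSet F) {f g : ℝ → ℝ}
    (hf : ∀ u, f u = E.indicator 1 u) (hg : ∀ u, g u = F.indicator 1 u)
    (s t : ℝ) : (volume.restrict (Set.Ioc s t)).real (E ∩ F) = ∫ u in Set.Ioc s t, f u * g u := by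
  refine real_eq (hE.inter hF) (fun u => ?_) s t
  rw [hf, hg, Set.inter_indicator_one]
  rfl

/-! ### The multiplier family -/

/-- the multipliers for which the index `m` gives a prime -/
def EB (m : ℕ) : Set ℝ := {β | (roughPart (2 ^ (m + 2)) (⌊β * 2 ^ (2 ^ m)⌋₊ + 1)).Prime}

lemma measurableSet_EB (m : ℕ) : MeasurableSet (EB m) := by
  have h1 : Measurable fun β : ℝ => ⌊β * 2 ^ (2 ^ m)⌋₊ :=
    Nat.measurable_floor.comp (measurable_id.mul_const _)
  exact h1 (MeasurableSet.of_discrete (s := {n : ℕ | (roughPart (2 ^ (m + 2)) (n + 1)).Prime}))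

lemma EB_ind (m : ℕ) (u : ℝ) : fl (fun _ => 1) (2 ^ (m + 2)) (u + (2 : ℝ) ^ m * Real.log 2) =
    (Real.exp ⁻¹' EB m).indicator 1 u := by
  unfold fl
  rw [Real.exp_add, exp_two_pow, Nat.floor_add_one (by positivity)]
  by_cases h : (roughPart (2 ^ (m + 2)) (⌊Real.exp u * 2 ^ (2 ^ m)⌋₊ + 1)).Prime
  · rw [if_pos h, Set.indicator_of_mem]
    · rfl
    · exact h
  · rw [if_neg h, Set.indicator_of_notMem]
    exact h

theorem law_u {s t : ℝ} (hst : s < t) :
    Tendsto (fun M : ℕ => (volume.restrict (Set.Ioc s t)).real (⋃ m ∈ Set.Ici M, Real.exp ⁻¹' EB m) *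
      (2 ^ M / M)) atTop (𝓝 (2 * (Real.exp Real.eulerMascheroniConstant * (t - s)))) := by
  have hl2 : 0 < Real.log 2 := Real.log_pos one_lt_two
  have hl2' : Real.log 2 < 1 := by have := Real.log_two_lt_d9; linarith
  obtain ⟨K, hK, P, hP⟩ := pair1 (c := Real.log 2 / 8) (by positivity)
  have hmeas : ∀ m, MeasurableSet (Real.exp ⁻¹' EB m) := fun m =>
    Real.measurable_exp (measurableSet_EB m)
  refine union_law hmeas (K := K * (t - s + 2)) (by nlinarith) ?_ ?_ ?_
  · have : 0 < t - s := by linarith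
    positivity
  · -- the mean
    have h1 := asymp_fl_any (g := fun _ => 1) (κ := 0) (C := 1) le_rfl one_pos (by intro p; simp)
      (a := Real.log 2 / 4) (l := t - s) (by positivity) (by linarith)
      (fun p : ℕ => s + p * (Real.log 2 / 4)) (by
        have h2 := (tendsto_const_div_atTop_nhds_zero_nat (𝕜 := ℝ) s).add_const (Real.log 2 / 4)
        rw [zero_add] at h2
        refine h2.congr' ?_
        filter_upwards [eventually_ge_atTop 1] with p hp
        have hp0 : (0 : ℝ) < p := by exact_mod_cast hp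
        field_simp)
    have h2 := (h1.comp (tendsto_p 2)).mul (ratio_one 2)
    have h3 := h2.mul_const (Real.log 2 / 4)
    have e : Real.exp Real.eulerMascheroniConstant * (t - s) / (Real.log 2 / 4) * 1 *
        (Real.log 2 / 4) = Real.exp Real.eulerMascheroniConstant * (t - s) := by field_simp
    rw [e] at h3
    refine h3.congr' ?_
    filter_upwards [eventually_ge_atTop 1] with m hm
    have hm0 : (0 : ℝ) < m := by exact_mod_cast hm
    rw [real_eq (hmeas m) (EB_ind m)]
    rw [← intervalIntegral.integral_of_le hst.le,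
      intervalIntegral.integral_comp_add_right (fun v => fl (fun _ => 1) (2 ^ (m + 2)) v),
      intervalIntegral.integral_of_le (by linarith)]
    simp only [Function.comp]
    have e1 : s + ((2 ^ (m + 2) : ℕ) : ℝ) * (Real.log 2 / 4) = s + (2 : ℝ) ^ m * Real.log 2 := by
      push_cast; ring
    have e2 : s + (2 : ℝ) ^ m * Real.log 2 + (t - s) = t + (2 : ℝ) ^ m * Real.log 2 := by ring
    rw [e1, e2]
    push_cast
    rw [Real.log_pow]
    push_cast
    field_simp
    ring
  · -- pairs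
    have hlarge : ∀ᶠ m : ℕ in atTop, P ≤ 2 ^ (m + 2) := (tendsto_p 2).eventually_ge_atTop P
    have hlarge2 : ∀ᶠ m : ℕ in atTop, (8 / Real.log 2) * (2 - s) ≤ ((2 ^ (m + 2) : ℕ) : ℝ) :=
      (tendsto_natCast_atTop_atTop.comp (tendsto_p 2)).eventually_ge_atTop _
    filter_upwards [hlarge, hlarge2, eventually_ge_atTop 1] with m hm1 hm2 hm3 n hmn
    have hP2 : P ≤ 2 ^ (n + 2) := hm1.trans (Nat.pow_le_pow_right (by norm_num) (by omega))
    have hpow : (2 : ℝ) ^ m * 2 ≤ 2 ^ n := by
      rw [← pow_succ]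
      exact pow_le_pow_right₀ (by norm_num) (by omega)
    have h1 := hP (2 ^ (m + 2)) (2 ^ (n + 2)) hm1 hP2 (s + (2 : ℝ) ^ m * Real.log 2)
      (t + (2 : ℝ) ^ m * Real.log 2) 1 (((2 : ℝ) ^ n - 2 ^ m) * Real.log 2) (by linarith)
      (by
        have h3 : (8 / Real.log 2) * (2 - s) * (Real.log 2 / 8) ≤
            ((2 ^ (m + 2) : ℕ) : ℝ) * (Real.log 2 / 8) :=
          mul_le_mul_of_nonneg_right hm2 (by positivity)
        have h4 : (8 / Real.log 2) * (2 - s) * (Real.log 2 / 8) = 2 - s := by field_simp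
        rw [h4] at h3
        push_cast at h3 ⊢
        rw [pow_add] at h3 ⊢
        nlinarith)
      le_rfl (by
        push_cast
        rw [pow_add]
        nlinarith)
    rw [real_inter_eq (hmeas m) (hmeas n) (EB_ind m) (EB_ind n)]
    have e0 : ∫ u in Set.Ioc s t, fl (fun _ => 1) (2 ^ (m + 2)) (u + (2 : ℝ) ^ m * Real.log 2) *
        fl (fun _ => 1) (2 ^ (n + 2)) (u + (2 : ℝ) ^ n * Real.log 2) =
        ∫ v in Set.Ioc (s + (2 : ℝ) ^ m * Real.log 2) (t + (2 : ℝ) ^ m * Real.log 2),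
          fl (fun _ => 1) (2 ^ (m + 2)) v *
          fl (fun _ => 1) (2 ^ (n + 2)) (1 * v + ((2 : ℝ) ^ n - 2 ^ m) * Real.log 2) := by
      rw [← intervalIntegral.integral_of_le hst.le,
        ← intervalIntegral.integral_of_le (by linarith),
        ← intervalIntegral.integral_comp_add_right (fun v => fl (fun _ => 1) (2 ^ (m + 2)) v *
          fl (fun _ => 1) (2 ^ (n + 2)) (1 * v + ((2 : ℝ) ^ n - 2 ^ m) * Real.log 2))]
      congr 1
      ext u
      congr 2
      ring
    rw [e0]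
    refine h1.trans ?_
    have hw : ∀ j : ℕ, 1 ≤ j → Real.log ((2 ^ (j + 2) : ℕ) : ℝ) / ((2 ^ (j + 2) : ℕ) : ℝ) ≤
        (j : ℝ) / 2 ^ j := by
      intro j hj
      have hj1 : (1 : ℝ) ≤ j := by exact_mod_cast hj
      push_cast
      rw [Real.log_pow, div_le_div_iff₀ (by positivity) (by positivity), pow_add]
      push_cast
      have h5 : ((j : ℝ) + 2) * Real.log 2 ≤ j * 4 := by nlinarith
      have h6 : (0 : ℝ) < 2 ^ j := by positivity
      nlinarith
    have hw0 : ∀ j : ℕ, 0 ≤ Real.log ((2 ^ (j + 2) : ℕ) : ℝ) / ((2 ^ (j + 2) : ℕ) : ℝ) := fun j =>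
      div_nonneg (Real.log_natCast_nonneg _) (Nat.cast_nonneg _)
    have e3 : t + (2 : ℝ) ^ m * Real.log 2 - (s + (2 : ℝ) ^ m * Real.log 2) + 2 = t - s + 2 := by ring
    rw [e3]
    have hts : 0 < t - s := by linarith
    have h5 := hw m hm3
    have h6 := hw n (by omega)
    have h7 := hw0 m
    have h8 := hw0 n
    gcongr

lemma iUnion_preimage (E : ℕ → Set ℝ) (M : ℕ) :
    (⋃ m ∈ Set.Ici M, Real.exp ⁻¹' E m) = Real.exp ⁻¹' (⋃ m ∈ Set.Ici M, E m) := by
  simp only [Set.preimage_iUnion]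

/-- from the logarithmic coordinate to the coordinate itself -/
theorem to_real {E : ℕ → Set ℝ} (hE : ∀ m, MeasurableSet (E m)) {φ : ℝ → ℝ} {s t : ℝ}
    (hst : s < t) (hφ : ContinuousOn φ (Set.Icc s t)) (hφ0 : ∀ u ∈ Set.Icc s t, 0 ≤ φ u)
    (h : ∀ x y, s ≤ x → x < y → y ≤ t → Tendsto (fun M : ℕ => (volume.restrict (Set.Ioc x y)).real
      (⋃ m ∈ Set.Ici M, Real.exp ⁻¹' E m) * (2 ^ M / M)) atTop (𝓝 (∫ u in x..y, φ u))) :
    Tendsto (fun M : ℕ => (volume {x : ℝ | x ∈ Set.Ioc (Real.exp s) (Real.exp t) ∧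
      ∃ m, M ≤ m ∧ x ∈ E m}).toReal * (2 ^ M / M)) atTop (𝓝 (∫ u in s..t, Real.exp u * φ u)) := by
  have hU : ∀ M : ℕ, MeasurableSet (⋃ m ∈ Set.Ici M, E m) := fun M =>
    MeasurableSet.biUnion (Set.to_countable _) fun n _ => hE n
  have h1 := weight_law (S := fun M => ⋃ m ∈ Set.Ici M, Real.exp ⁻¹' E m)
    (fun M => by rw [iUnion_preimage]; exact Real.measurable_exp (hU M))
    (r := fun M : ℕ => (2 : ℝ) ^ M / M) (fun M => by positivity) hst hφ hφ0 h
  refine h1.congr fun M => ?_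
  congr 1
  rw [iUnion_preimage, ← vol_exp (hU M) hst.le, Measure.real, Measure.restrict_apply (hU M)]
  congr 2
  ext x
  simp only [Set.mem_inter_iff, Set.mem_iUnion, Set.mem_Ici, exists_prop, Set.mem_ofPred_eq]
  tauto

/-- the law for multipliers -/
theorem law_beta {a b : ℝ} (ha : 0 < a) (hab : a < b) :
    Tendsto (fun M : ℕ => (volume {β : ℝ | β ∈ Set.Ioc a b ∧ ∃ m, M ≤ m ∧
      (roughPart (2 ^ (m + 2)) (⌊β * 2 ^ (2 ^ m)⌋₊ + 1)).Prime}).toReal * (2 ^ M / M)) atTop
      (𝓝 (2 * Real.exp Real.eulerMascheroniConstant * (b - a))) := by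
  have hb : 0 < b := ha.trans hab
  have h1 := to_real (E := EB) measurableSet_EB
    (φ := fun _ => 2 * Real.exp Real.eulerMascheroniConstant)
    (s := Real.log a) (t := Real.log b) (Real.log_lt_log ha hab) continuousOn_const
    (fun _ _ => by positivity) (fun x y _ hxy _ => by
      have := law_u hxy
      rw [intervalIntegral.integral_const, smul_eq_mul]
      convert this using 2
      ring)
  rw [Real.exp_log ha, Real.exp_log hb] at h1
  have e : ∫ u in (Real.log a)..(Real.log b), Real.exp u * (2 * Real.exp Real.eulerMascheroniConstant) =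
      2 * Real.exp Real.eulerMascheroniConstant * (b - a) := by
    rw [intervalIntegral.integral_mul_const, integral_exp, Real.exp_log ha, Real.exp_log hb]
    ring
  rw [e] at h1
  exact h1

/-! ### The family of real bases -/

/-- the bases for which the index `m` gives a prime -/
def EA (m : ℕ) : Set ℝ := {α | (roughPart (2 ^ (m + 1)) (⌊α ^ (2 ^ m)⌋₊ + 1)).Prime}

lemma measurableSet_EA (m : ℕ) : MeasurableSet (EA m) := by
  have h1 : Measurable fun α : ℝ => ⌊α ^ (2 ^ m)⌋₊ :=
    Nat.measurable_floor.comp (measurable_id.pow_const _)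
  exact h1 (MeasurableSet.of_discrete (s := {n : ℕ | (roughPart (2 ^ (m + 1)) (n + 1)).Prime}))

lemma EA_ind (m : ℕ) (u : ℝ) : fl (fun _ => 1) (2 ^ (m + 1)) ((2 : ℝ) ^ m * u) =
    (Real.exp ⁻¹' EA m).indicator 1 u := by
  have h : ((2 : ℝ) ^ m) = ((2 ^ m : ℕ) : ℝ) := by push_cast; rfl
  unfold fl
  rw [h, Real.exp_nat_mul, Nat.floor_add_one (by positivity)]
  by_cases h : (roughPart (2 ^ (m + 1)) (⌊Real.exp u ^ (2 ^ m)⌋₊ + 1)).Prime
  · rw [if_pos h, Set.indicator_of_mem]
    · rfl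
    · exact h
  · rw [if_neg h, Set.indicator_of_notMem]
    exact h

lemma mean_fl {s t : ℝ} (hs : 0 < s) (hst : s < t) :
    Tendsto (fun p : ℕ => (∫ v in Set.Ioc (s * p) (t * p), fl (fun _ => 1) p v) / Real.log p) atTop
      (𝓝 (Real.exp Real.eulerMascheroniConstant * (Real.log t - Real.log s))) := by
  have h1 := mean_linear hs hst
  have h2 : Tendsto (fun p : ℕ => (∫ v in Set.Ioc (s * p) (t * p), fl (fun _ => 1) p v) / Real.log p -
      (∫ v in Set.Ioc (s * p) (t * p), ff p v) / Real.log p) atTop (𝓝 0) := by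
    have h0 : Tendsto (fun p : ℕ => (2 * (t - s)) * ((p : ℝ) ^ 1 * Real.exp (-(s * p))) +
        4 * ((p : ℝ) ^ 0 * Real.exp (-(s * p)))) atTop (𝓝 0) := by
      have hk : ∀ k : ℕ, Tendsto (fun p : ℕ => (p : ℝ) ^ k * Real.exp (-(s * p))) atTop (𝓝 0) := by
        intro k
        have hcast := tendsto_natCast_atTop_atTop (R := ℝ)
        have h3 := (Real.tendsto_pow_mul_exp_neg_atTop_nhds_zero k).comp (hcast.const_mul_atTop hs)
        have h4 := h3.const_mul ((s ^ k)⁻¹)
        rw [mul_zero] at h4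
        refine h4.congr fun p => ?_
        simp only [Function.comp]
        rw [mul_pow]
        field_simp
      simpa using ((hk 1).const_mul (2 * (t - s))).add ((hk 0).const_mul 4)
    refine squeeze_zero_norm' ?_ h0
    have hlarge : ∀ᶠ p : ℕ in atTop, 2 / s < p := tendsto_natCast_atTop_atTop.eventually_gt_atTop _
    filter_upwards [hlarge, Pool.Agent.H305R2.log_nat_tendsto.eventually_ge_atTop 1,
      eventually_ge_atTop 1] with p hp hl hp1
    have hp1' : (1 : ℝ) ≤ p := by exact_mod_cast hp1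
    rw [div_lt_iff₀ hs] at hp
    set ε := Real.exp (-(s * p)) with hε
    have hε0 : 0 < ε := Real.exp_pos _
    have hsp : s * p ≤ t * p := mul_le_mul_of_nonneg_right hst.le (by linarith)
    have hy2 : (2 : ℝ) ≤ s * p := by linarith
    have hε1 : ε ≤ 1 / 4 := by
      have h3 : Real.exp 2 ≤ Real.exp (s * p) := Real.exp_le_exp.2 hy2
      have h4 : ε * Real.exp (s * p) = 1 := by rw [hε, ← Real.exp_add]; simp
      have := exp_two_ge
      nlinarith
    have hg : |(fun _ : ℕ => (1 : ℝ)) p| ≤ ε * Real.exp (s * p) := by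
      rw [hε, ← Real.exp_add]; simp
    have hcmp := compare (g := fun _ => 1) (p := p) hε1 hg hsp
    have hs1 := shift (g := 1) hε1 hg (le_refl (s * p))
    have hs2 := shift (g := 1) hε1 hg hsp
    have hA1 : ∫ v in Set.Ioc (s * p) (t * p), fl (fun _ => 1) p v ≤ (t - s) * p := by
      calc ∫ v in Set.Ioc (s * p) (t * p), fl (fun _ => 1) p v ≤
          ∫ v in Set.Ioc (s * p) (t * p), (1 : ℝ) :=
            setIntegral_mono_on (integrableOn_fl _ p _ _) (integrableOn_const (by simp))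
              measurableSet_Ioc fun t _ => fl_le_one _ p t
        _ = _ := by
            rw [setIntegral_const, smul_eq_mul, mul_one, Real.volume_real_Ioc_of_le hsp]
            ring
    have hmono : Real.log (Real.exp (s * p) + 1) ≤ Real.log (Real.exp (t * p) + 1) :=
      Real.log_le_log (by positivity) (by have := Real.exp_le_exp.2 hsp; linarith)
    have hB : (∫ u in Set.Ioc (Real.log (Real.exp (s * p) + 1)) (Real.log (Real.exp (t * p) + 1)), ff p u) -
        ∫ v in Set.Ioc (s * p) (t * p), ff p v =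
        (Pool.Agent.H305R2.FF p (Real.log (Real.exp (t * p) + 1)) - Pool.Agent.H305R2.FF p (t * p)) -
        (Pool.Agent.H305R2.FF p (Real.log (Real.exp (s * p) + 1)) - Pool.Agent.H305R2.FF p (s * p)) := by
      rw [← FF_sub p hmono, ← FF_sub p hsp]
      ring
    have h5 := FF_lip p (Real.log (Real.exp (t * p) + 1)) (t * p)
    have h6 := FF_lip p (Real.log (Real.exp (s * p) + 1)) (s * p)
    have h7 := abs_le.1 (h5.trans hs2)
    have h8 := abs_le.1 (h6.trans hs1)
    have h9 := abs_le.1 hcmp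
    have h10 : 2 * ε * ∫ v in Set.Ioc (s * p) (t * p), fl (fun _ => 1) p v ≤
        2 * ε * ((t - s) * p) := mul_le_mul_of_nonneg_left hA1 (by positivity)
    have hmain : |(∫ v in Set.Ioc (s * p) (t * p), fl (fun _ => 1) p v) -
        ∫ v in Set.Ioc (s * p) (t * p), ff p v| ≤ 2 * (t - s) * (p ^ 1 * ε) + 4 * (p ^ 0 * ε) := by
      rw [abs_le, pow_one, pow_zero, one_mul]
      constructor <;> linarith
    rw [Real.norm_eq_abs, ← sub_div, abs_div, abs_of_pos (show 0 < Real.log p by linarith)]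
    exact (div_le_self (abs_nonneg _) hl).trans hmain
  have h3 := h2.add h1
  rw [zero_add] at h3
  refine h3.congr fun p => ?_
  ring

theorem law_v {s t : ℝ} (hs : 0 < s) (hst : s < t) :
    Tendsto (fun M : ℕ => (volume.restrict (Set.Ioc s t)).real (⋃ m ∈ Set.Ici M, Real.exp ⁻¹' EA m) *
      (2 ^ M / M)) atTop (𝓝 (2 * (Real.exp Real.eulerMascheroniConstant *
        (Real.log t - Real.log s) * Real.log 2))) := by
  have hl2 : 0 < Real.log 2 := Real.log_pos one_lt_two
  have hl2' : Real.log 2 < 1 := by have := Real.log_two_lt_d9; linarith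
  obtain ⟨K, hK, P, hP⟩ := pair1 (c := s / 8) (by positivity)
  have hmeas : ∀ m, MeasurableSet (Real.exp ⁻¹' EA m) := fun m =>
    Real.measurable_exp (measurableSet_EA m)
  have hlog : 0 < Real.log t - Real.log s := sub_pos.2 (Real.log_lt_log hs hst)
  refine union_law hmeas (K := K * (t - s + 2)) (by nlinarith) ?_ ?_ ?_
  · positivity
  · -- the mean
    have h1 := mean_fl (s := s / 2) (t := t / 2) (by positivity) (by linarith)
    have h2 := (h1.comp (tendsto_p 1)).mul (ratio_one 1)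
    have h3 := h2.mul_const (Real.log 2)
    have e : Real.exp Real.eulerMascheroniConstant * (Real.log (t / 2) - Real.log (s / 2)) * 1 *
        Real.log 2 = Real.exp Real.eulerMascheroniConstant * (Real.log t - Real.log s) *
          Real.log 2 := by
      rw [Real.log_div (by linarith : t ≠ 0) two_ne_zero, Real.log_div hs.ne' two_ne_zero]
      ring
    rw [e] at h3
    refine h3.congr' ?_
    filter_upwards [eventually_ge_atTop 1] with m hm
    have hm0 : (0 : ℝ) < m := by exact_mod_cast hm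
    have hpow : (0 : ℝ) < 2 ^ m := by positivity
    rw [real_eq (hmeas m) (EA_ind m)]
    rw [← intervalIntegral.integral_of_le hst.le,
      intervalIntegral.integral_comp_mul_left (fun v => fl (fun _ => 1) (2 ^ (m + 1)) v) hpow.ne',
      intervalIntegral.integral_of_le (mul_le_mul_of_nonneg_left hst.le hpow.le), smul_eq_mul]
    simp only [Function.comp]
    have e1 : s / 2 * ((2 ^ (m + 1) : ℕ) : ℝ) = (2 : ℝ) ^ m * s := by push_cast; ring
    have e2 : t / 2 * ((2 ^ (m + 1) : ℕ) : ℝ) = (2 : ℝ) ^ m * t := by push_cast; ring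
    rw [e1, e2]
    push_cast
    rw [Real.log_pow]
    push_cast
    field_simp
  · -- pairs
    have hlarge : ∀ᶠ m : ℕ in atTop, P ≤ 2 ^ (m + 1) := (tendsto_p 1).eventually_ge_atTop P
    have hlarge2 : ∀ᶠ m : ℕ in atTop, (8 / s) ≤ ((2 ^ (m + 0) : ℕ) : ℝ) :=
      (tendsto_natCast_atTop_atTop.comp (tendsto_p 0)).eventually_ge_atTop _
    filter_upwards [hlarge, hlarge2, eventually_ge_atTop 1] with m hm1 hm2 hm3 n hmn
    have hP2 : P ≤ 2 ^ (n + 1) := hm1.trans (Nat.pow_le_pow_right (by norm_num) (by omega))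
    rw [div_le_iff₀ hs] at hm2
    push_cast at hm2
    rw [add_zero] at hm2
    have hpow : (0 : ℝ) < 2 ^ m := by positivity
    have hpowm1 : (1 : ℝ) ≤ 2 ^ m := one_le_pow₀ (by norm_num)
    have hsplit : (2 : ℝ) ^ n = 2 ^ (n - m) * 2 ^ m := by
      rw [← pow_add]; congr 1; omega
    have hρ : (2 : ℝ) ≤ 2 ^ (n - m) := by
      calc (2 : ℝ) = 2 ^ 1 := by norm_num
        _ ≤ 2 ^ (n - m) := pow_le_pow_right₀ (by norm_num) (by omega)
    have h1 := hP (2 ^ (m + 1)) (2 ^ (n + 1)) hm1 hP2 ((2 : ℝ) ^ m * s)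
      ((2 : ℝ) ^ m * t) (2 ^ (n - m)) 0 (mul_le_mul_of_nonneg_left hst.le hpow.le)
      (by
        push_cast
        rw [pow_succ]
        nlinarith)
      (by linarith) (by
        push_cast
        rw [pow_succ, hsplit, add_zero]
        have h3 : (2 : ℝ) ^ (n - m) / 2 ≤ 2 ^ (n - m) - 1 := by linarith
        have h4 : (2 : ℝ) ^ m * s / 2 ≤ 2 ^ m * s - 1 := by linarith
        have h5 : (2 : ℝ) ^ (n - m) / 2 * (2 ^ m * s / 2) ≤ (2 ^ (n - m) - 1) * (2 ^ m * s - 1) :=
          mul_le_mul h3 h4 (by positivity) (by linarith)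
        refine le_trans (le_of_eq ?_) h5
        ring)
    rw [real_inter_eq (hmeas m) (hmeas n) (EA_ind m) (EA_ind n)]
    have e0 : ∫ u in Set.Ioc s t, fl (fun _ => 1) (2 ^ (m + 1)) ((2 : ℝ) ^ m * u) *
        fl (fun _ => 1) (2 ^ (n + 1)) ((2 : ℝ) ^ n * u) =
        ((2 : ℝ) ^ m)⁻¹ * ∫ v in Set.Ioc ((2 : ℝ) ^ m * s) ((2 : ℝ) ^ m * t),
          fl (fun _ => 1) (2 ^ (m + 1)) v *
          fl (fun _ => 1) (2 ^ (n + 1)) ((2 : ℝ) ^ (n - m) * v + 0) := by
      rw [← intervalIntegral.integral_of_le hst.le,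
        ← intervalIntegral.integral_of_le (mul_le_mul_of_nonneg_left hst.le hpow.le),
        ← smul_eq_mul, ← intervalIntegral.integral_comp_mul_left
          (fun v => fl (fun _ => 1) (2 ^ (m + 1)) v *
          fl (fun _ => 1) (2 ^ (n + 1)) ((2 : ℝ) ^ (n - m) * v + 0)) hpow.ne']
      congr 1
      ext u
      congr 2
      rw [hsplit]
      ring
    rw [e0]
    have hw : ∀ j : ℕ, 1 ≤ j → Real.log ((2 ^ (j + 1) : ℕ) : ℝ) / ((2 ^ (j + 1) : ℕ) : ℝ) ≤
        (j : ℝ) / 2 ^ j := by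
      intro j hj
      have hj1 : (1 : ℝ) ≤ j := by exact_mod_cast hj
      push_cast
      rw [Real.log_pow, div_le_div_iff₀ (by positivity) (by positivity), pow_add]
      push_cast
      have h5 : ((j : ℝ) + 1) * Real.log 2 ≤ j * 2 := by nlinarith
      have h6 : (0 : ℝ) < 2 ^ j := by positivity
      nlinarith
    have hw0 : ∀ j : ℕ, 0 ≤ Real.log ((2 ^ (j + 1) : ℕ) : ℝ) / ((2 ^ (j + 1) : ℕ) : ℝ) := fun j =>
      div_nonneg (Real.log_natCast_nonneg _) (Nat.cast_nonneg _)
    have hts : 0 < t - s := by linarith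
    have h5 := hw m hm3
    have h6 := hw n (by omega)
    have h7 := hw0 m
    have h8 := hw0 n
    have h9 : ((2 : ℝ) ^ m)⁻¹ * (2 ^ m * t - 2 ^ m * s + 2) ≤ t - s + 2 := by
      rw [inv_mul_le_iff₀ hpow]
      nlinarith
    calc ((2 : ℝ) ^ m)⁻¹ * _ ≤ ((2 : ℝ) ^ m)⁻¹ * (K * ((2 : ℝ) ^ m * t - 2 ^ m * s + 2) *
          (Real.log ((2 ^ (m + 1) : ℕ) : ℝ) / ((2 ^ (m + 1) : ℕ) : ℝ)) *
          (Real.log ((2 ^ (n + 1) : ℕ) : ℝ) / ((2 ^ (n + 1) : ℕ) : ℝ))) :=
            mul_le_mul_of_nonneg_left h1 (by positivity)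
      _ = K * (((2 : ℝ) ^ m)⁻¹ * ((2 : ℝ) ^ m * t - 2 ^ m * s + 2)) *
          (Real.log ((2 ^ (m + 1) : ℕ) : ℝ) / ((2 ^ (m + 1) : ℕ) : ℝ)) *
          (Real.log ((2 ^ (n + 1) : ℕ) : ℝ) / ((2 ^ (n + 1) : ℕ) : ℝ)) := by ring
      _ ≤ K * (t - s + 2) * (m / 2 ^ m) * (n / 2 ^ n) := by gcongr

/-- the law for bases -/
theorem law_alpha {a b : ℝ} (ha : 1 < a) (hab : a < b) :
    Tendsto (fun M : ℕ => (volume {α : ℝ | α ∈ Set.Ioc a b ∧ ∃ m, M ≤ m ∧
      (roughPart (2 ^ (m + 1)) (⌊α ^ (2 ^ m)⌋₊ + 1)).Prime}).toReal * (2 ^ M / M)) atTop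
      (𝓝 (2 * Real.exp Real.eulerMascheroniConstant * Real.log 2 * ∫ x in a..b, (Real.log x)⁻¹)) := by
  have ha0 : 0 < a := by linarith
  have hb : 0 < b := by linarith
  have hla : 0 < Real.log a := Real.log_pos ha
  have hlab : Real.log a < Real.log b := Real.log_lt_log ha0 hab
  set C := 2 * Real.exp Real.eulerMascheroniConstant * Real.log 2 with hC
  have hl2 : 0 < Real.log 2 := Real.log_pos one_lt_two
  have hC0 : 0 < C := by positivity
  have hcont : ContinuousOn (fun u : ℝ => C * u⁻¹) (Set.Icc (Real.log a) (Real.log b)) :=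
    continuousOn_const.mul (continuousOn_id.inv₀ fun u hu => (lt_of_lt_of_le hla hu.1).ne')
  have h1 := to_real (E := EA) measurableSet_EA (φ := fun u => C * u⁻¹)
    (s := Real.log a) (t := Real.log b) hlab hcont
    (fun u hu => by
      have : 0 < u := lt_of_lt_of_le hla hu.1
      positivity) (fun x y hx hxy _ => by
      have hx0 : 0 < x := lt_of_lt_of_le hla hx
      have := law_v hx0 hxy
      rw [intervalIntegral.integral_const_mul, integral_inv_of_pos hx0 (hx0.trans hxy),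
        Real.log_div (hx0.trans hxy).ne' hx0.ne']
      convert this using 2
      rw [hC]
      ring)
  rw [Real.exp_log ha0, Real.exp_log hb] at h1
  have e : ∫ u in (Real.log a)..(Real.log b), Real.exp u * (C * u⁻¹) =
      C * ∫ x in a..b, (Real.log x)⁻¹ := by
    have h2 := intervalIntegral.integral_comp_mul_deriv'' (a := Real.log a) (b := Real.log b)
      (f := Real.exp) (f' := Real.exp) (g := fun x => (Real.log x)⁻¹)
      Real.continuous_exp.continuousOn
      (fun x _ => (Real.hasDerivAt_exp x).hasDerivWithinAt) Real.continuous_exp.continuousOn (by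
        refine ContinuousOn.inv₀ (Real.continuousOn_log.mono ?_) ?_
        · rintro _ ⟨u, _, rfl⟩
          exact (Real.exp_pos u).ne'
        · rintro _ ⟨u, hu, rfl⟩
          rw [Set.uIcc_of_le hlab.le] at hu
          rw [Real.log_exp]
          exact (lt_of_lt_of_le hla hu.1).ne')
    rw [Real.exp_log ha0, Real.exp_log hb] at h2
    rw [← h2, ← intervalIntegral.integral_const_mul]
    refine intervalIntegral.integral_congr fun u _ => ?_
    simp only [Function.comp, Real.log_exp]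
    ring
  rw [e] at h1
  exact h1

end Pool.Agent.W56
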