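import Mathlib

set_option autoImplicit false

/-! Clarke Jacobians: the mean value inequality, uniform ascent directions, the iteration. -/

namespace Pool.Agent.W56.CJ

open MeasureTheory Set Metric Filter Topology
open scoped NNReal RealInnerProductSpace

theorem compact_hull {E : Type*} [NormedAddCommGroup E] [NormedSpace ℝ E]
    [FiniteDimensional ℝ E] {s : Set E} (hs : IsCompact s) : IsCompact (convexHull ℝ s) := by
  classical
  rcases s.eq_empty_or_nonempty with rfl | ⟨x0, hx0⟩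
  · rw [convexHull_empty]
    exact isCompact_empty
  obtain ⟨n, hn⟩ : ∃ n, n = Module.finrank ℝ E + 1 := ⟨_, rfl⟩
  have hK : IsCompact ((stdSimplex ℝ (Fin n)) ×ˢ (Set.pi Set.univ (fun _ : Fin n => s))) :=
    (isCompact_stdSimplex ℝ (Fin n)).prod (isCompact_univ_pi fun _ => hs)
  have hcont : Continuous (fun p : (Fin n → ℝ) × (Fin n → E) => ∑ i, p.1 i • p.2 i) := by
    refine continuous_finsetSum _ fun i _ => ?_
    exact ((continuous_apply i).comp continuous_fst).smul ((continuous_apply i).comp continuous_snd)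
  have heq : convexHull ℝ s = (fun p : (Fin n → ℝ) × (Fin n → E) => ∑ i, p.1 i • p.2 i) ''
      ((stdSimplex ℝ (Fin n)) ×ˢ (Set.pi Set.univ (fun _ : Fin n => s))) := by
    apply Set.Subset.antisymm
    · intro x hx
      obtain ⟨ι, hι, z, w, hz, hai, hw0, hw1, hwz⟩ := eq_pos_convex_span_of_mem_convexHull hx
      have hcard : Fintype.card ι ≤ Fintype.card (Fin n) := by
        have h1 := hai.card_le_finrank_succ
        have h2 := Submodule.finrank_le (vectorSpan ℝ (Set.range z))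
        rw [Fintype.card_fin, hn]
        omega
      obtain ⟨e⟩ := Function.Embedding.nonempty_of_card_le hcard
      refine ⟨(Function.extend e w 0, Function.extend e z (fun _ => x0)), ⟨⟨?_, ?_⟩, ?_⟩, ?_⟩
      · intro j
        show (0 : ℝ) ≤ Function.extend e w 0 j
        by_cases hj : ∃ i, e i = j
        · obtain ⟨i, rfl⟩ := hj
          rw [e.injective.extend_apply]
          exact (hw0 i).le
        · rw [Function.extend_apply' _ _ _ hj]
          exact le_rfl
      · rw [← hw1]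
        symm
        refine Fintype.sum_of_injective e e.injective _ _ ?_ ?_
        · intro j hj
          show Function.extend e w 0 j = 0
          rw [Function.extend_apply' _ _ _ hj]
          rfl
        · intro i
          show w i = Function.extend e w 0 (e i)
          rw [e.injective.extend_apply]
      · intro j _
        by_cases hj : ∃ i, e i = j
        · obtain ⟨i, rfl⟩ := hj
          show Function.extend e z (fun _ => x0) (e i) ∈ s
          rw [e.injective.extend_apply]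
          exact hz ⟨i, rfl⟩
        · show Function.extend e z (fun _ => x0) j ∈ s
          rw [Function.extend_apply' _ _ _ hj]
          exact hx0
      · rw [← hwz]
        symm
        refine Fintype.sum_of_injective e e.injective _ _ ?_ ?_
        · intro j hj
          show Function.extend e w 0 j • Function.extend e z (fun _ => x0) j = 0
          rw [Function.extend_apply' w _ _ hj]
          simp
        · intro i
          show w i • z i = Function.extend e w 0 (e i) • Function.extend e z (fun _ => x0) (e i)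
          rw [e.injective.extend_apply, e.injective.extend_apply]
    · rintro _ ⟨⟨w, z⟩, ⟨⟨hw0, hw1⟩, hz⟩, rfl⟩
      refine (convex_convexHull ℝ s).sum_mem (fun i _ => hw0 i) hw1 (fun i _ => ?_)
      exact subset_convexHull ℝ s (hz i (Set.mem_univ i))
  rw [heq]
  exact hK.image hcont


section MeanValue

variable {E F : Type*} [NormedAddCommGroup E] [InnerProductSpace ℝ E] [FiniteDimensional ℝ E]
  [MeasurableSpace E] [BorelSpace E]
  [NormedAddCommGroup F] [InnerProductSpace ℝ F] [FiniteDimensional ℝ F]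
  [MeasurableSpace F] [BorelSpace F]

/-- Mean value inequality for Lipschitz maps: a lower bound for the derivative in direction `v` at
the points of differentiability of a ball gives the bound for increments. -/
theorem mean_value {K : ℝ≥0} {f : E → F} (hf : LipschitzWith K f) (x₀ : E) (δ : ℝ) (v : E) (w : F)
    (c : ℝ) (H : ∀ z ∈ ball x₀ δ, DifferentiableAt ℝ f z → c ≤ ⟪w, fderiv ℝ f z v⟫)
    (x : E) (hx : x ∈ ball x₀ δ) (hxv : x + v ∈ ball x₀ δ) :
    c ≤ ⟪w, f (x + v) - f x⟫ := by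
  -- a safe radius
  obtain ⟨r₀, hr₀, hr₀'⟩ : ∃ r₀ > 0, ∀ t ∈ Icc (0 : ℝ) 1, ∀ ζ ∈ ball (0 : E) r₀,
      x + t • v + ζ ∈ ball x₀ δ := by
    refine ⟨δ - max (dist x x₀) (dist (x + v) x₀), ?_, ?_⟩
    · rw [mem_ball] at hx hxv
      exact sub_pos.mpr (max_lt hx hxv)
    · intro t ht ζ hζ
      rw [mem_ball_zero_iff] at hζ
      rw [mem_ball]
      have h1 : dist (x + t • v) x₀ ≤ max (dist x x₀) (dist (x + v) x₀) := by
        have h2 : x + t • v ∈ segment ℝ x (x + v) := by
          rw [segment_eq_image']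
          exact ⟨t, ht, by simp⟩
        have h3 : segment ℝ x (x + v) ⊆ closedBall x₀ (max (dist x x₀) (dist (x + v) x₀)) :=
          (convex_closedBall _ _).segment_subset (mem_closedBall.mpr (le_max_left _ _))
            (mem_closedBall.mpr (le_max_right _ _))
        exact mem_closedBall.mp (h3 h2)
      calc dist (x + t • v + ζ) x₀ ≤ dist (x + t • v + ζ) (x + t • v) + dist (x + t • v) x₀ :=
            dist_triangle _ _ _
        _ = ‖ζ‖ + dist (x + t • v) x₀ := by rw [dist_eq_norm, add_sub_cancel_left]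
        _ < δ := by linarith
  -- it suffices to have the estimate up to small errors
  suffices h : ∀ r ∈ Ioo (0 : ℝ) r₀, c - 2 * (‖w‖ * K * r) ≤ ⟪w, f (x + v) - f x⟫ by
    have h1 : Tendsto (fun r : ℝ => c - 2 * (‖w‖ * K * r)) (𝓝[>] 0) (𝓝 (c - 2 * (‖w‖ * K * 0))) := by
      apply Tendsto.mono_left _ nhdsWithin_le_nhds
      apply Continuous.tendsto
      fun_prop
    rw [mul_zero, mul_zero, sub_zero] at h1
    refine le_of_tendsto h1 ?_
    filter_upwards [Ioo_mem_nhdsGT hr₀] with r hr using h r hr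
  intro r hr
  set μ : Measure E := volume.restrict (ball 0 r) with hμ
  have hμfin : IsFiniteMeasure μ := ⟨by
    rw [hμ, Measure.restrict_apply_univ]; exact measure_ball_lt_top⟩
  set V : ℝ := μ.real univ with hV
  have hVpos : 0 < V := by
    rw [hV, hμ, measureReal_restrict_apply_univ]
    exact ENNReal.toReal_pos (measure_ball_pos _ _ hr.1).ne' measure_ball_lt_top.ne
  -- scalar function
  set g : E → ℝ := fun z => ⟪w, f z⟫ with hg
  have hgl : ∀ a b, |g a - g b| ≤ ‖w‖ * K * ‖a - b‖ := by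
    intro a b
    rw [hg]
    simp only
    rw [← inner_sub_right, mul_assoc]
    refine (abs_real_inner_le_norm _ _).trans (mul_le_mul_of_nonneg_left ?_ (norm_nonneg _))
    rw [← dist_eq_norm, ← dist_eq_norm]
    exact hf.dist_le_mul _ _
  have hgc : Continuous g := continuous_const.inner hf.continuous
  let G : ℝ → ℝ := fun t => ∫ ζ, g (x + t • v + ζ) ∂μ
  have hgint : ∀ t : ℝ, Integrable (fun ζ => g (x + t • v + ζ)) μ := by
    intro t
    have hc : Continuous (fun ζ => g (x + t • v + ζ)) := by fun_prop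
    exact (hc.continuousOn.integrableOn_compact (isCompact_closedBall (0 : E) r)).mono_set
      ball_subset_closedBall
  have hderiv : ∀ t ∈ Icc (0 : ℝ) 1, ∃ D, HasDerivAt G D t ∧ c * V ≤ D := by
    intro t ht
    have hae : ∀ᵐ ζ ∂μ, DifferentiableAt ℝ f (x + t • v + ζ) := by
      have h1 : ∀ᵐ z ∂(volume : Measure E), DifferentiableAt ℝ f z := hf.ae_differentiableAt
      have h2 : ∀ᵐ ζ ∂(volume : Measure E), DifferentiableAt ℝ f (x + t • v + ζ) :=
        (measurePreserving_add_left volume (x + t • v)).quasiMeasurePreserving.ae h1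
      exact ae_restrict_of_ae h2
    have hmeasF' : AEStronglyMeasurable (fun ζ => ⟪w, fderiv ℝ f (x + t • v + ζ) v⟫) μ := by
      have h1 : Measurable (fun z => fderiv ℝ f z v) := measurable_fderiv_apply_const ℝ f v
      have h2 : Measurable (fun ζ => fderiv ℝ f (x + t • v + ζ) v) :=
        h1.comp (measurable_const_add _)
      exact (measurable_const.inner h2).aestronglyMeasurable
    obtain ⟨hF'int, hD⟩ := hasDerivAt_integral_of_dominated_loc_of_lip (μ := μ) (x₀ := t)
      (s := univ) (F := fun t ζ => g (x + t • v + ζ))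
      (F' := fun ζ => ⟪w, fderiv ℝ f (x + t • v + ζ) v⟫)
      (bound := fun _ => ‖w‖ * K * ‖v‖) univ_mem
      (Eventually.of_forall fun s => (hgint s).aestronglyMeasurable) (hgint t) hmeasF'
      (Eventually.of_forall fun ζ => by
        apply LipschitzOnWith.of_dist_le_mul
        intro a _ b _
        rw [Real.coe_nnabs, abs_of_nonneg (by positivity), Real.dist_eq, Real.dist_eq]
        refine (hgl _ _).trans (le_of_eq ?_)
        have : x + a • v + ζ - (x + b • v + ζ) = (a - b) • v := by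
          rw [sub_smul]; abel
        rw [this, norm_smul, Real.norm_eq_abs]
        ring)
      (integrable_const _)
      (by
        filter_upwards [hae] with ζ hζ
        have h1 : HasDerivAt (fun s : ℝ => x + s • v + ζ) v t := by
          have := ((hasDerivAt_id t).smul_const v).const_add x |>.add_const ζ
          simpa using this
        have h2 : HasDerivAt (fun s : ℝ => f (x + s • v + ζ)) (fderiv ℝ f (x + t • v + ζ) v) t :=
          hζ.hasFDerivAt.comp_hasDerivAt t h1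
        have h3 := (hasDerivAt_const t w).inner ℝ h2
        simpa using h3)
    refine ⟨_, hD, ?_⟩
    have h1 : ∫ _ζ, c ∂μ = c * V := by
      rw [integral_const, hV, smul_eq_mul, mul_comm]
    rw [← h1]
    apply integral_mono_ae (integrable_const _) hF'int
    have hmem : ∀ᵐ ζ ∂μ, ζ ∈ ball (0 : E) r := ae_restrict_mem measurableSet_ball
    filter_upwards [hae, hmem] with ζ hζ hζr
    exact H _ (hr₀' t ht ζ (ball_subset_ball hr.2.le hζr)) hζ
  -- mean value theorem for `G`
  have hG : c * V * (1 - 0) ≤ G 1 - G 0 := by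
    apply (convex_Icc (0 : ℝ) 1).mul_sub_le_image_sub_of_le_deriv
    · intro t ht
      obtain ⟨D, hD, -⟩ := hderiv t ht
      exact hD.continuousAt.continuousWithinAt
    · intro t ht
      obtain ⟨D, hD, -⟩ := hderiv t (interior_subset ht)
      exact hD.differentiableAt.differentiableWithinAt
    · intro t ht
      obtain ⟨D, hD, hD'⟩ := hderiv t (interior_subset ht)
      rw [hD.deriv]; exact hD'
    · exact left_mem_Icc.mpr zero_le_one
    · exact right_mem_Icc.mpr zero_le_one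
    · exact zero_le_one
  have hG1 : G 1 ≤ (g (x + v) + ‖w‖ * K * r) * V := by
    have h1 : ∫ _ζ, (g (x + v) + ‖w‖ * K * r) ∂μ = (g (x + v) + ‖w‖ * K * r) * V := by
      rw [integral_const, hV, smul_eq_mul, mul_comm]
    rw [← h1]
    apply integral_mono_ae (hgint 1) (integrable_const _)
    have hmem : ∀ᵐ ζ ∂μ, ζ ∈ ball (0 : E) r := ae_restrict_mem measurableSet_ball
    filter_upwards [hmem] with ζ hζ
    rw [mem_ball_zero_iff] at hζ
    have h2 := (abs_le.mp (hgl (x + (1 : ℝ) • v + ζ) (x + v))).2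
    have h3 : x + (1 : ℝ) • v + ζ - (x + v) = ζ := by rw [one_smul]; abel
    rw [h3] at h2
    have h4 : ‖w‖ * K * ‖ζ‖ ≤ ‖w‖ * K * r := mul_le_mul_of_nonneg_left hζ.le (by positivity)
    linarith
  have hG0 : (g x - ‖w‖ * K * r) * V ≤ G 0 := by
    have h1 : ∫ _ζ, (g x - ‖w‖ * K * r) ∂μ = (g x - ‖w‖ * K * r) * V := by
      rw [integral_const, hV, smul_eq_mul, mul_comm]
    rw [← h1]
    apply integral_mono_ae (integrable_const _) (hgint 0)
    have hmem : ∀ᵐ ζ ∂μ, ζ ∈ ball (0 : E) r := ae_restrict_mem measurableSet_ball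
    filter_upwards [hmem] with ζ hζ
    rw [mem_ball_zero_iff] at hζ
    have h2 := (abs_le.mp (hgl (x + (0 : ℝ) • v + ζ) x)).1
    have h3 : x + (0 : ℝ) • v + ζ - x = ζ := by rw [zero_smul]; abel
    rw [h3] at h2
    have h4 : ‖w‖ * K * ‖ζ‖ ≤ ‖w‖ * K * r := mul_le_mul_of_nonneg_left hζ.le (by positivity)
    linarith
  have hfin : c * V ≤ (g (x + v) - g x + 2 * (‖w‖ * K * r)) * V := by
    have : (g (x + v) + ‖w‖ * K * r) * V - (g x - ‖w‖ * K * r) * V =
      (g (x + v) - g x + 2 * (‖w‖ * K * r)) * V := by ring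
    linarith
  have := le_of_mul_le_mul_right hfin hVpos
  rw [inner_sub_right]
  linarith

end MeanValue

section Ascent

variable {E F : Type*} [NormedAddCommGroup E] [InnerProductSpace ℝ E] [FiniteDimensional ℝ E]
  [NormedAddCommGroup F] [InnerProductSpace ℝ F] [FiniteDimensional ℝ F]

/-- limiting Jacobians -/
def lim0 (f : E → F) (x₀ : E) : Set (E →L[ℝ] F) :=
  {B | ∀ ε : ℝ, 0 < ε → ∀ δ : ℝ, 0 < δ →
    ∃ x : E, dist x x₀ < δ ∧ DifferentiableAt ℝ f x ∧ ‖fderiv ℝ f x - B‖ < ε}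

theorem lim0_closed (f : E → F) (x₀ : E) : IsClosed (lim0 f x₀) := by
  rw [← closure_subset_iff_isClosed]
  intro B hB ε hε δ hδ
  obtain ⟨B', hB', hd⟩ := Metric.mem_closure_iff.mp hB (ε / 2) (half_pos hε)
  obtain ⟨x, h1, h2, h3⟩ := hB' (ε / 2) (half_pos hε) δ hδ
  refine ⟨x, h1, h2, ?_⟩
  calc ‖fderiv ℝ f x - B‖ = ‖(fderiv ℝ f x - B') + (B' - B)‖ := by congr 1; abel
    _ ≤ ‖fderiv ℝ f x - B'‖ + ‖B' - B‖ := norm_add_le _ _
    _ < ε := by
      rw [dist_comm, dist_eq_norm] at hd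
      linarith

theorem lim0_bdd {K : ℝ≥0} {f : E → F} (hf : LipschitzWith K f) (x₀ : E) :
    lim0 f x₀ ⊆ closedBall 0 K := by
  intro B hB
  rw [mem_closedBall_zero_iff]
  apply le_of_forall_pos_le_add
  intro ε hε
  obtain ⟨x, -, -, h3⟩ := hB ε hε 1 one_pos
  have h4 : ‖fderiv ℝ f x‖ ≤ K := norm_fderiv_le_of_lipschitz ℝ hf
  have h5 : ‖B‖ ≤ ‖fderiv ℝ f x‖ + ‖fderiv ℝ f x - B‖ := by
    have := norm_sub_le (fderiv ℝ f x) (fderiv ℝ f x - B)
    rwa [sub_sub_cancel] at this
  linarith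

theorem lim0_near {K : ℝ≥0} {f : E → F} (hf : LipschitzWith K f) (x₀ : E) (ε : ℝ) (hε : 0 < ε) :
    ∃ δ > 0, ∀ z ∈ ball x₀ δ, DifferentiableAt ℝ f z → ∃ B ∈ lim0 f x₀, ‖fderiv ℝ f z - B‖ < ε := by
  by_contra hcon
  push Not at hcon
  have h1 : ∀ k : ℕ, ∃ z ∈ ball x₀ (1 / ((k : ℝ) + 1)), DifferentiableAt ℝ f z ∧
      ∀ B ∈ lim0 f x₀, ε ≤ ‖fderiv ℝ f z - B‖ := fun k => hcon _ (by positivity)
  choose z hz1 hz2 hz3 using h1
  have hmem : ∀ k, fderiv ℝ f (z k) ∈ closedBall (0 : E →L[ℝ] F) K := fun k => by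
    rw [mem_closedBall_zero_iff]; exact norm_fderiv_le_of_lipschitz ℝ hf
  obtain ⟨B, -, φ, hφ, hB⟩ := (isCompact_closedBall (0 : E →L[ℝ] F) K).tendsto_subseq hmem
  have hBmem : B ∈ lim0 f x₀ := by
    intro ε' hε' δ' hδ'
    have e1 : ∀ᶠ k in atTop, ‖fderiv ℝ f (z (φ k)) - B‖ < ε' := by
      have := Metric.tendsto_nhds.mp hB ε' hε'
      filter_upwards [this] with k hk
      rw [← dist_eq_norm]; exact hk
    have e2 : ∀ᶠ k in atTop, dist (z (φ k)) x₀ < δ' := by
      have h2 : Tendsto (fun k : ℕ => 1 / ((φ k : ℝ) + 1)) atTop (𝓝 0) :=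
        tendsto_one_div_add_atTop_nhds_zero_nat.comp hφ.tendsto_atTop
      filter_upwards [h2.eventually (gt_mem_nhds hδ')] with k hk
      exact lt_trans (mem_ball.mp (hz1 (φ k))) hk
    obtain ⟨k, hk1, hk2⟩ := (e1.and e2).exists
    exact ⟨z (φ k), hk2, hz2 _, hk1⟩
  have e1 : ∀ᶠ k in atTop, ‖fderiv ℝ f (z (φ k)) - B‖ < ε := by
    have := Metric.tendsto_nhds.mp hB ε hε
    filter_upwards [this] with k hk
    rw [← dist_eq_norm]; exact hk
  obtain ⟨k, hk⟩ := e1.exists
  exact absurd hk (not_lt.mpr (hz3 (φ k) B hBmem))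

/-- `B ↦ Bᵀ w` -/
noncomputable def pull (w : F) : (E →L[ℝ] F) →ₗ[ℝ] E where
  toFun B := (InnerProductSpace.toDual ℝ E).symm ((innerSL ℝ w).comp B)
  map_add' B B' := by
    apply ext_inner_right ℝ
    intro v
    rw [inner_add_left, InnerProductSpace.toDual_symm_apply, InnerProductSpace.toDual_symm_apply,
      InnerProductSpace.toDual_symm_apply]
    simp [inner_add_right]
  map_smul' c B := by
    apply ext_inner_right ℝ
    intro v
    rw [RingHom.id_apply, real_inner_smul_left, InnerProductSpace.toDual_symm_apply,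
      InnerProductSpace.toDual_symm_apply]
    simp [real_inner_smul_right]

theorem pull_inner (w : F) (B : E →L[ℝ] F) (v : E) : ⟪pull w B, v⟫ = ⟪w, B v⟫ := by
  show ⟪(InnerProductSpace.toDual ℝ E).symm ((innerSL ℝ w).comp B), v⟫ = _
  rw [InnerProductSpace.toDual_symm_apply]
  simp

theorem ascent {K : ℝ≥0} {f : E → F} (hf : LipschitzWith K f) (x₀ : E)
    (hsurj : ∀ A ∈ convexHull ℝ (lim0 f x₀), Function.Surjective A) (w : F) (hw : ‖w‖ = 1) :
    ∃ (u : E) (c δ ρ : ℝ), 0 < c ∧ 0 < δ ∧ 0 < ρ ∧ ∀ z ∈ ball x₀ δ, DifferentiableAt ℝ f z →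
      ∀ w' : F, ‖w' - w‖ < ρ → c ≤ ⟪w', fderiv ℝ f z u⟫ := by
  have hcomp : IsCompact (lim0 f x₀) :=
    (isCompact_closedBall (0 : E →L[ℝ] F) K).of_isClosed_subset (lim0_closed f x₀) (lim0_bdd hf x₀)
  have hcomp2 : IsCompact (pull w '' convexHull ℝ (lim0 f x₀)) :=
    (compact_hull hcomp).image (pull w).continuous_of_finiteDimensional
  have hconv : Convex ℝ (pull w '' convexHull ℝ (lim0 f x₀)) :=
    (convex_convexHull ℝ _).linear_image _
  have h0 : (0 : E) ∉ pull w '' convexHull ℝ (lim0 f x₀) := by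
    rintro ⟨A, hA, hA0⟩
    obtain ⟨x, hx⟩ := hsurj A hA w
    have h1 := pull_inner w A x
    rw [hA0, inner_zero_left, hx, real_inner_self_eq_norm_sq, hw] at h1
    norm_num at h1
  obtain ⟨φ, r, hr1, hr2⟩ := geometric_hahn_banach_point_closed hconv hcomp2.isClosed h0
  rw [map_zero] at hr1
  set u : E := (InnerProductSpace.toDual ℝ E).symm φ with hu
  have hB : ∀ B ∈ lim0 f x₀, r < ⟪w, B u⟫ := by
    intro B hB
    have h1 := hr2 _ ⟨B, subset_convexHull ℝ _ hB, rfl⟩
    have h2 : φ (pull w B) = ⟪w, B u⟫ := by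
      rw [← pull_inner, real_inner_comm, hu, InnerProductSpace.toDual_symm_apply]
    rw [← h2]; exact h1
  have hu1 : 0 < ‖u‖ + 1 := by positivity
  have hK1 : (0 : ℝ) < K + 1 := by positivity
  obtain ⟨δ, hδ, hnear⟩ := lim0_near hf x₀ (r / (4 * (‖u‖ + 1))) (by positivity)
  refine ⟨u, r / 2, δ, r / (4 * ((K + 1) * (‖u‖ + 1))), by positivity, hδ, by positivity, ?_⟩
  intro z hz hdz w' hw'
  obtain ⟨B, hBmem, hBz⟩ := hnear z hz hdz
  have h1 := hB B hBmem
  have hsplit : ⟪w', fderiv ℝ f z u⟫ = ⟪w, B u⟫ + ⟪w, (fderiv ℝ f z - B) u⟫ +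
      ⟪w' - w, fderiv ℝ f z u⟫ := by
    rw [_root_.sub_apply, inner_sub_right, inner_sub_left]; ring
  have h2 : |⟪w, (fderiv ℝ f z - B) u⟫| ≤ r / 4 := by
    calc |⟪w, (fderiv ℝ f z - B) u⟫| ≤ ‖w‖ * ‖(fderiv ℝ f z - B) u‖ := abs_real_inner_le_norm _ _
      _ ≤ 1 * (‖fderiv ℝ f z - B‖ * ‖u‖) := by
        rw [hw]
        exact mul_le_mul_of_nonneg_left (ContinuousLinearMap.le_opNorm _ _) zero_le_one
      _ ≤ 1 * (r / (4 * (‖u‖ + 1)) * (‖u‖ + 1)) := by
        apply mul_le_mul_of_nonneg_left _ zero_le_one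
        apply mul_le_mul hBz.le (by linarith) (norm_nonneg _) (by positivity)
      _ = r / 4 := by field_simp
  have h3 : |⟪w' - w, fderiv ℝ f z u⟫| ≤ r / 4 := by
    have h4 : ‖fderiv ℝ f z‖ ≤ K := norm_fderiv_le_of_lipschitz ℝ hf
    calc |⟪w' - w, fderiv ℝ f z u⟫| ≤ ‖w' - w‖ * ‖fderiv ℝ f z u‖ := abs_real_inner_le_norm _ _
      _ ≤ (r / (4 * ((K + 1) * (‖u‖ + 1)))) * ((K + 1) * (‖u‖ + 1)) := by
        apply mul_le_mul hw'.le _ (norm_nonneg _) (by positivity)
        refine (ContinuousLinearMap.le_opNorm _ _).trans ?_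
        apply mul_le_mul (by linarith) (by linarith) (norm_nonneg _) (by positivity)
      _ = r / 4 := by field_simp
  have h5 := (abs_le.mp h2).1
  have h6 := (abs_le.mp h3).1
  rw [hsplit]
  linarith

theorem exists_pos_le {ι : Type*} (t : Finset ι) (a : ι → ℝ) (ha : ∀ i ∈ t, 0 < a i) :
    ∃ c > 0, ∀ i ∈ t, c ≤ a i := by
  classical
  induction t using Finset.induction_on with
  | empty => exact ⟨1, one_pos, by simp⟩
  | insert i t hi ih =>
    obtain ⟨c, hc, h⟩ := ih (fun j hj => ha j (Finset.mem_insert_of_mem hj))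
    refine ⟨min c (a i), lt_min hc (ha i (Finset.mem_insert_self _ _)), ?_⟩
    intro j hj
    rcases Finset.mem_insert.mp hj with rfl | hj
    · exact min_le_right _ _
    · exact (min_le_left _ _).trans (h j hj)

/-- a continuous field of ascent directions -/
theorem field {K : ℝ≥0} {f : E → F} (hf : LipschitzWith K f) (x₀ : E)
    (hsurj : ∀ A ∈ convexHull ℝ (lim0 f x₀), Function.Surjective A) :
    ∃ (u : F → E) (L c δ : ℝ), Continuous u ∧ 0 < L ∧ 0 < c ∧ 0 < δ ∧ (∀ w, ‖u w‖ ≤ L * ‖w‖) ∧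
      ∀ w, ∀ z ∈ ball x₀ δ, DifferentiableAt ℝ f z → c * ‖w‖ ^ 2 ≤ ⟪w, fderiv ℝ f z (u w)⟫ := by
  classical
  choose! U c δ ρ hc hδ hρ H using (fun w hw => ascent hf x₀ hsurj w hw)
  obtain ⟨t, ht1, ht2⟩ := (isCompact_sphere (0 : F) 1).elim_nhds_subcover (fun w => ball w (ρ w / 2))
    (fun w hw => ball_mem_nhds _ (half_pos (hρ w (by simpa using hw))))
  have ht1' : ∀ i ∈ t, ‖i‖ = 1 := fun i hi => by simpa using ht1 i hi
  obtain ⟨c₀, hc₀, hc₀'⟩ := exists_pos_le t (fun i => ρ i / 2 * c i) (fun i hi => by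
    have := hc i (ht1' i hi)
    have := hρ i (ht1' i hi)
    positivity)
  obtain ⟨δ₀, hδ₀, hδ₀'⟩ := exists_pos_le t δ (fun i hi => hδ i (ht1' i hi))
  let φ : F → F → ℝ := fun i w => max 0 (ρ i * ‖w‖ - ‖w - ‖w‖ • i‖)
  have hφ0 : ∀ i w, 0 ≤ φ i w := fun i w => le_max_left _ _
  refine ⟨fun w => ∑ i ∈ t, φ i w • U i, ∑ i ∈ t, ρ i * ‖U i‖ + 1, c₀, δ₀, ?_, ?_, hc₀, hδ₀, ?_, ?_⟩
  · apply continuous_finsetSum
    intro i _
    apply Continuous.smul _ continuous_const
    apply Continuous.max continuous_const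
    fun_prop
  · have : 0 ≤ ∑ i ∈ t, ρ i * ‖U i‖ := Finset.sum_nonneg (fun i hi => by
      have := hρ i (ht1' i hi)
      positivity)
    linarith
  · intro w
    calc ‖∑ i ∈ t, φ i w • U i‖ ≤ ∑ i ∈ t, ‖φ i w • U i‖ := norm_sum_le _ _
      _ ≤ ∑ i ∈ t, ρ i * ‖U i‖ * ‖w‖ := by
        apply Finset.sum_le_sum
        intro i hi
        rw [norm_smul, Real.norm_eq_abs, abs_of_nonneg (hφ0 i w)]
        have hρi := hρ i (ht1' i hi)
        have h1 : φ i w ≤ ρ i * ‖w‖ := max_le (by positivity) (by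
          have := norm_nonneg (w - ‖w‖ • i)
          linarith)
        calc φ i w * ‖U i‖ ≤ ρ i * ‖w‖ * ‖U i‖ := mul_le_mul_of_nonneg_right h1 (norm_nonneg _)
          _ = ρ i * ‖U i‖ * ‖w‖ := by ring
      _ = (∑ i ∈ t, ρ i * ‖U i‖) * ‖w‖ := by rw [Finset.sum_mul]
      _ ≤ _ := mul_le_mul_of_nonneg_right (by linarith) (norm_nonneg _)
  · intro w z hz hdz
    rcases eq_or_ne w 0 with rfl | hw0
    · simp
    have hwn : 0 < ‖w‖ := norm_pos_iff.mpr hw0
    set ŵ : F := ‖w‖⁻¹ • w with hŵ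
    have hŵ1 : ‖ŵ‖ = 1 := by
      rw [hŵ, norm_smul, norm_inv, norm_norm, inv_mul_cancel₀ hwn.ne']
    have hww : w = ‖w‖ • ŵ := by
      rw [hŵ, smul_smul, mul_inv_cancel₀ hwn.ne', one_smul]
    have hdist : ∀ i : F, ‖w - ‖w‖ • i‖ = ‖w‖ * ‖ŵ - i‖ := by
      intro i
      conv_lhs => rw [hww]
      rw [norm_smul, norm_norm, hŵ1, mul_one, ← smul_sub, norm_smul, norm_norm]
    have hterm : ∀ i ∈ t, φ i w * (c i * ‖w‖) ≤ φ i w * ⟪w, fderiv ℝ f z (U i)⟫ := by
      intro i hi
      rcases (hφ0 i w).eq_or_lt with h | h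
      · rw [← h]; simp
      apply mul_le_mul_of_nonneg_left _ (hφ0 i w)
      have h1 : 0 < ρ i * ‖w‖ - ‖w - ‖w‖ • i‖ := by
        by_contra hcon
        have : φ i w = 0 := max_eq_left (not_lt.mp hcon)
        linarith
      rw [hdist] at h1
      have h2 : ‖ŵ - i‖ < ρ i := by
        have : ‖w‖ * ‖ŵ - i‖ < ‖w‖ * ρ i := by linarith
        exact lt_of_mul_lt_mul_left this hwn.le
      have h3 := H i (ht1' i hi) z (ball_subset_ball (hδ₀' i hi) hz) hdz ŵ h2
      calc c i * ‖w‖ ≤ ⟪ŵ, fderiv ℝ f z (U i)⟫ * ‖w‖ := mul_le_mul_of_nonneg_right h3 hwn.le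
        _ = ⟪‖w‖ • ŵ, fderiv ℝ f z (U i)⟫ := by
          have h4 := real_inner_smul_left ŵ (fderiv ℝ f z (U i)) ‖w‖
          rw [h4]; ring
        _ = ⟪w, fderiv ℝ f z (U i)⟫ := by rw [← hww]
    have hsum : ⟪w, fderiv ℝ f z (∑ i ∈ t, φ i w • U i)⟫ =
        ∑ i ∈ t, φ i w * ⟪w, fderiv ℝ f z (U i)⟫ := by
      rw [map_sum, inner_sum]
      apply Finset.sum_congr rfl
      intro i _
      rw [map_smul, real_inner_smul_right]
    obtain ⟨i₀, hi₀, hi₀'⟩ : ∃ i ∈ t, ŵ ∈ ball i (ρ i / 2) := by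
      have := ht2 (show ŵ ∈ sphere (0 : F) 1 by simpa using hŵ1)
      simpa using this
    have hφi₀ : ρ i₀ / 2 * ‖w‖ ≤ φ i₀ w := by
      refine le_trans ?_ (le_max_right _ _)
      rw [hdist]
      rw [mem_ball, dist_eq_norm] at hi₀'
      nlinarith
    rw [hsum]
    calc c₀ * ‖w‖ ^ 2 ≤ ρ i₀ / 2 * c i₀ * ‖w‖ ^ 2 :=
          mul_le_mul_of_nonneg_right (hc₀' i₀ hi₀) (by positivity)
      _ = ρ i₀ / 2 * ‖w‖ * (c i₀ * ‖w‖) := by ring
      _ ≤ φ i₀ w * (c i₀ * ‖w‖) := by
        apply mul_le_mul_of_nonneg_right hφi₀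
        have := hc i₀ (ht1' i₀ hi₀)
        positivity
      _ ≤ ∑ i ∈ t, φ i w * (c i * ‖w‖) := by
        apply Finset.single_le_sum (f := fun i => φ i w * (c i * ‖w‖)) _ hi₀
        intro i hi
        have := hc i (ht1' i hi)
        have := hφ0 i w
        positivity
      _ ≤ _ := Finset.sum_le_sum hterm

end Ascent

section Iteration

variable {E F : Type*} [NormedAddCommGroup E] [InnerProductSpace ℝ E] [FiniteDimensional ℝ E]
  [MeasurableSpace E] [BorelSpace E]
  [NormedAddCommGroup F] [InnerProductSpace ℝ F] [FiniteDimensional ℝ F]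
  [MeasurableSpace F] [BorelSpace F]

/-- the iteration `x ↦ x - h u(f x - y)` -/
noncomputable def iter (f : E → F) (u : F → E) (h : ℝ) (x₀ : E) (y : F) : ℕ → E
  | 0 => x₀
  | k + 1 => iter f u h x₀ y k - h • u (f (iter f u h x₀ y k) - y)

theorem global {K : ℝ≥0} {f : E → F} (hf : LipschitzWith K f) (x₀ : E)
    (hsurj : ∀ A ∈ convexHull ℝ (lim0 f x₀), Function.Surjective A) :
    ∃ δ₁ > 0, ∀ R > 0, ∃ V ∈ 𝓝 (f x₀), ∃ s : F → E, ∃ γ : ℝ, 0 < γ ∧ ContinuousOn s V ∧
      s (f x₀) = x₀ ∧ (∀ y ∈ V, f (s y) = y) ∧ (∀ y ∈ V, ‖s y - x₀‖ ≤ γ * ‖y - f x₀‖) ∧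
      ∀ y ∈ V, dist (s y) x₀ < min δ₁ R := by
  obtain ⟨u, L, c, δ, hu, hL, hc, hδ, huL, H⟩ := field hf x₀ hsurj
  refine ⟨δ, hδ, ?_⟩
  intro R hR
  -- the step size
  set D : ℝ := (K * L) ^ 2 + c ^ 2 + 1 with hD
  have hDpos : 0 < D := by positivity
  set h : ℝ := c / D with hh
  have hh0 : 0 < h := by positivity
  have hhD : h * D = c := by rw [hh]; field_simp
  set q : ℝ := Real.sqrt (1 - h * c) with hq
  have hhc0 : 0 < h * c := by positivity
  have hhc1 : h * c < 1 := by
    rw [hh, div_mul_eq_mul_div, div_lt_one hDpos, hD]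
    nlinarith [sq_nonneg ((K : ℝ) * L)]
  have hq0 : 0 ≤ q := Real.sqrt_nonneg _
  have hqsq : q ^ 2 = 1 - h * c := Real.sq_sqrt (by linarith)
  have hq1 : q < 1 := by
    rw [hq, Real.sqrt_lt' one_pos]; linarith
  set γ : ℝ := h * L / (1 - q) with hγ
  have hγ0 : 0 < γ := div_pos (by positivity) (by linarith)
  have hγq : γ * (1 - q) = h * L := by
    rw [hγ]; exact div_mul_cancel₀ _ (by linarith)
  set R₁ : ℝ := min δ R with hR₁
  have hR₁0 : 0 < R₁ := lt_min hδ hR
  set V : Set F := ball (f x₀) (R₁ / γ) with hV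
  -- one step
  have step : ∀ x ∈ ball x₀ δ, ∀ y : F, x + -(h • u (f x - y)) ∈ ball x₀ δ →
      ‖f (x - h • u (f x - y)) - y‖ ≤ q * ‖f x - y‖ := by
    intro x hx y hxv
    set w : F := f x - y with hw
    set v : E := -(h • u w) with hv
    have h1 : h * c * ‖w‖ ^ 2 ≤ ⟪-w, f (x + v) - f x⟫ := by
      apply mean_value hf x₀ δ v (-w) _ _ x hx hxv
      intro z hz hdz
      have h2 := H w z hz hdz
      rw [hv, map_neg, map_smul, inner_neg_neg, real_inner_smul_right]
      nlinarith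
    have h2 : ‖f (x + v) - f x‖ ≤ K * (h * (L * ‖w‖)) := by
      have h3 : ‖f (x + v) - f x‖ ≤ K * ‖v‖ := by
        have := hf.dist_le_mul (x + v) x
        rw [dist_eq_norm, dist_eq_norm, add_sub_cancel_left] at this
        exact this
      refine h3.trans (mul_le_mul_of_nonneg_left ?_ K.coe_nonneg)
      rw [hv, norm_neg, norm_smul, Real.norm_eq_abs, abs_of_pos hh0]
      exact mul_le_mul_of_nonneg_left (huL w) hh0.le
    have h3 : f (x - h • u w) - y = w + (f (x + v) - f x) := by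
      rw [hw, hv, ← sub_eq_add_neg]; abel
    have h4 : ‖w + (f (x + v) - f x)‖ ^ 2 ≤ (q * ‖w‖) ^ 2 := by
      rw [norm_add_sq_real, mul_pow, hqsq]
      rw [inner_neg_left] at h1
      have h5 : ‖f (x + v) - f x‖ ^ 2 ≤ (K * (h * (L * ‖w‖))) ^ 2 :=
        pow_le_pow_left₀ (norm_nonneg _) h2 2
      have h6 : (K * (h * (L * ‖w‖))) ^ 2 = h * (h * (K * L) ^ 2) * ‖w‖ ^ 2 := by ring
      have h7 : h * (K * L) ^ 2 ≤ c := by
        rw [← hhD, hD]
        have : 0 ≤ h * (c ^ 2 + 1) := by positivity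
        nlinarith
      have h8 : h * (h * (K * L) ^ 2) * ‖w‖ ^ 2 ≤ h * c * ‖w‖ ^ 2 := by
        apply mul_le_mul_of_nonneg_right _ (by positivity)
        exact mul_le_mul_of_nonneg_left h7 hh0.le
      nlinarith
    rw [h3]
    exact (pow_le_pow_iff_left₀ (norm_nonneg _) (by positivity) two_ne_zero).mp h4
  let X : F → ℕ → E := fun y => iter f u h x₀ y
  have hX0 : ∀ y, X y 0 = x₀ := fun y => rfl
  have hXs : ∀ y k, X y (k + 1) = X y k - h • u (f (X y k) - y) := fun y k => rfl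
  have hXcont : ∀ k, Continuous (fun y => X y k) := by
    intro k
    induction k with
    | zero => exact continuous_const
    | succ k ih =>
      have : (fun y => X y (k + 1)) = fun y => X y k - h • u (f (X y k) - y) := rfl
      rw [this]
      exact ih.sub ((hu.comp ((hf.continuous.comp ih).sub continuous_id)).const_smul h)
  have hstep : ∀ y k, ‖X y (k + 1) - X y k‖ ≤ h * L * ‖f (X y k) - y‖ := by
    intro y k
    rw [hXs, sub_sub_cancel_left, norm_neg, norm_smul, Real.norm_eq_abs, abs_of_pos hh0, mul_assoc]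
    exact mul_le_mul_of_nonneg_left (huL _) hh0.le
  have key : ∀ y ∈ V, ∀ k, ‖f (X y k) - y‖ ≤ q ^ k * ‖y - f x₀‖ ∧
      ‖X y k - x₀‖ ≤ γ * (1 - q ^ k) * ‖y - f x₀‖ := by
    intro y hy k
    have hyγ : γ * ‖y - f x₀‖ < R₁ := by
      rw [hV, mem_ball, dist_eq_norm, lt_div_iff₀ hγ0] at hy
      linarith
    induction k with
    | zero =>
      rw [hX0, pow_zero, one_mul, sub_self, sub_self, norm_zero, mul_zero, zero_mul, norm_sub_rev]
      exact ⟨le_rfl, le_rfl⟩
    | succ k ih =>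
      obtain ⟨ih1, ih2⟩ := ih
      have hqk : 0 ≤ q ^ k := by positivity
      have hball : ∀ j : ℕ, ∀ x : E, ‖x - x₀‖ ≤ γ * (1 - q ^ j) * ‖y - f x₀‖ → x ∈ ball x₀ δ := by
        intro j x hx
        rw [mem_ball, dist_eq_norm]
        calc ‖x - x₀‖ ≤ γ * (1 - q ^ j) * ‖y - f x₀‖ := hx
          _ ≤ γ * 1 * ‖y - f x₀‖ := by
            apply mul_le_mul_of_nonneg_right _ (norm_nonneg _)
            apply mul_le_mul_of_nonneg_left _ hγ0.le
            have : 0 ≤ q ^ j := by positivity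
            linarith
          _ < R₁ := by rw [mul_one]; exact hyγ
          _ ≤ δ := min_le_left _ _
      have h1 : ‖X y (k + 1) - x₀‖ ≤ γ * (1 - q ^ (k + 1)) * ‖y - f x₀‖ := by
        calc ‖X y (k + 1) - x₀‖ = ‖(X y (k + 1) - X y k) + (X y k - x₀)‖ := by congr 1; abel
          _ ≤ ‖X y (k + 1) - X y k‖ + ‖X y k - x₀‖ := norm_add_le _ _
          _ ≤ h * L * (q ^ k * ‖y - f x₀‖) + γ * (1 - q ^ k) * ‖y - f x₀‖ := by
            apply add_le_add _ ih2
            exact (hstep y k).trans (mul_le_mul_of_nonneg_left ih1 (by positivity))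
          _ = γ * (1 - q ^ (k + 1)) * ‖y - f x₀‖ := by rw [← hγq, pow_succ]; ring
      refine ⟨?_, h1⟩
      have hx := hball k _ ih2
      have hx' := hball (k + 1) _ h1
      rw [hXs, sub_eq_add_neg] at hx'
      have h2 := step (X y k) hx y hx'
      rw [hXs, pow_succ]
      calc ‖f (X y k - h • u (f (X y k) - y)) - y‖ ≤ q * ‖f (X y k) - y‖ := h2
        _ ≤ q * (q ^ k * ‖y - f x₀‖) := mul_le_mul_of_nonneg_left ih1 hq0
        _ = _ := by ring
  have hdist : ∀ y ∈ V, ∀ k, dist (X y k) (X y (k + 1)) ≤ h * L * ‖y - f x₀‖ * q ^ k := by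
    intro y hy k
    rw [dist_comm, dist_eq_norm]
    calc ‖X y (k + 1) - X y k‖ ≤ h * L * ‖f (X y k) - y‖ := hstep y k
      _ ≤ h * L * (q ^ k * ‖y - f x₀‖) := mul_le_mul_of_nonneg_left (key y hy k).1 (by positivity)
      _ = _ := by ring
  have hlim : ∀ y : F, ∃ p : E, y ∈ V → Tendsto (X y) atTop (𝓝 p) := by
    intro y
    by_cases hy : y ∈ V
    · obtain ⟨p, hp⟩ := cauchySeq_tendsto_of_complete
        (cauchySeq_of_le_geometric q _ hq1 (hdist y hy))
      exact ⟨p, fun _ => hp⟩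
    · exact ⟨x₀, fun h => absurd h hy⟩
  choose s hs using hlim
  have hV0 : f x₀ ∈ V := mem_ball_self (by positivity)
  have hsdist : ∀ y ∈ V, ‖s y - x₀‖ ≤ γ * ‖y - f x₀‖ := by
    intro y hy
    have h1 : Tendsto (fun k => ‖X y k - x₀‖) atTop (𝓝 ‖s y - x₀‖) :=
      ((hs y hy).sub_const x₀).norm
    refine le_of_tendsto h1 (Eventually.of_forall fun k => ?_)
    refine (key y hy k).2.trans ?_
    apply mul_le_mul_of_nonneg_right _ (norm_nonneg _)
    have : 0 ≤ q ^ k := by positivity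
    nlinarith
  refine ⟨V, ball_mem_nhds _ (by positivity), s, γ, hγ0, ?_, ?_, ?_, hsdist, ?_⟩
  · have hunif : TendstoUniformlyOn (fun k y => X y k) s atTop V := by
      rw [Metric.tendstoUniformlyOn_iff]
      intro ε hε
      have h1 : Tendsto (fun k : ℕ => h * L * (R₁ / γ) * q ^ k / (1 - q)) atTop
          (𝓝 (h * L * (R₁ / γ) * 0 / (1 - q))) :=
        ((tendsto_pow_atTop_nhds_zero_of_lt_one hq0 hq1).const_mul _).div_const _
      rw [mul_zero, zero_div] at h1
      filter_upwards [h1.eventually (gt_mem_nhds hε)] with k hk y hy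
      rw [dist_comm]
      have h2 := dist_le_of_le_geometric_of_tendsto q _ hq1 (hdist y hy) (hs y hy) k
      refine lt_of_le_of_lt (h2.trans ?_) hk
      rw [hV, mem_ball, dist_eq_norm] at hy
      apply div_le_div_of_nonneg_right _ (by linarith)
      apply mul_le_mul_of_nonneg_right _ (by positivity)
      exact mul_le_mul_of_nonneg_left hy.le (by positivity)
    exact hunif.continuousOn (Eventually.of_forall fun k => (hXcont k).continuousOn).frequently
  · have h1 := hsdist _ hV0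
    rw [sub_self, norm_zero, mul_zero] at h1
    exact sub_eq_zero.mp (norm_le_zero_iff.mp h1)
  · intro y hy
    have h1 : Tendsto (fun k => f (X y k) - y) atTop (𝓝 (f (s y) - y)) :=
      ((hf.continuous.tendsto _).comp (hs y hy)).sub_const y
    have h2 : Tendsto (fun k => f (X y k) - y) atTop (𝓝 0) := by
      apply squeeze_zero_norm (fun k => (key y hy k).1)
      have := (tendsto_pow_atTop_nhds_zero_of_lt_one hq0 hq1).mul_const ‖y - f x₀‖
      rwa [zero_mul] at this
    exact sub_eq_zero.mp (tendsto_nhds_unique h1 h2)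
  · intro y hy
    have h1 := hsdist y hy
    rw [hV, mem_ball, dist_eq_norm, lt_div_iff₀ hγ0] at hy
    rw [dist_eq_norm]
    linarith

end Iteration

end Pool.Agent.W56.CJ
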