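import Mathlib

/-!
# The Crouzeix inequality implies the numerical radius bound `5 / 4`

If `‖q (A)‖ ≤ 2 sup_{W(A)} |q|` for all polynomials `q`, then `w (p (A)) ≤ 5 / 4` as soon as `|p| ≤ 1` on the
numerical range of `A`: apply the inequality to the Moebius transforms `(p - c) / (1 - conj c p)`, `|c| = 1 / 2`.
-/

set_option autoImplicit false

open Polynomial ComplexConjugate

namespace Pool.Agent.W56.Five

/-- the truncated Moebius transform `(w - c) (1 + (conj c w) + … + (conj c w)^(N-1))` -/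
noncomputable def mob (c : ℂ) (N : ℕ) : Polynomial ℂ :=
  (X - C c) * ∑ k ∈ Finset.range N, (C (conj c) * X) ^ k

theorem mob_mul (c : ℂ) (N : ℕ) :
    mob c N * (1 - C (conj c) * X) = (X - C c) * (1 - (C (conj c) * X) ^ N) := by
  unfold mob
  rw [mul_assoc, geom_sum_mul_neg]

theorem mob_bound (c : ℂ) (hc : ‖c‖ = 1 / 2) (N : ℕ) (w : ℂ) (hw : ‖w‖ ≤ 1) :
    ‖(mob c N).eval w‖ ≤ 1 + (1 / 2) ^ N := by
  have h := congrArg (Polynomial.eval w) (mob_mul c N)
  simp only [eval_mul, eval_sub, eval_one, eval_C, eval_X, eval_pow] at h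
  have hcw : ‖conj c * w‖ ≤ 1 / 2 := by
    rw [norm_mul, RCLike.norm_conj, hc]
    linarith
  have hne : 0 < ‖1 - conj c * w‖ := by
    have : ‖(1 : ℂ)‖ - ‖conj c * w‖ ≤ ‖1 - conj c * w‖ := norm_sub_norm_le _ _
    rw [norm_one] at this
    linarith
  have h1 : ‖w - c‖ ≤ ‖1 - conj c * w‖ := by
    have hsq : ‖w - c‖ ^ 2 ≤ ‖1 - conj c * w‖ ^ 2 := by
      have e1 : ‖w - c‖ ^ 2 = ‖w‖ ^ 2 + ‖c‖ ^ 2 - 2 * (conj c * w).re := by
        rw [← Complex.normSq_eq_norm_sq, ← Complex.normSq_eq_norm_sq, ← Complex.normSq_eq_norm_sq]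
        simp only [Complex.normSq_apply, Complex.sub_re, Complex.sub_im, Complex.mul_re,
          Complex.conj_re, Complex.conj_im]
        ring
      have e2 : ‖1 - conj c * w‖ ^ 2 = 1 + ‖c‖ ^ 2 * ‖w‖ ^ 2 - 2 * (conj c * w).re := by
        rw [← Complex.normSq_eq_norm_sq, ← Complex.normSq_eq_norm_sq, ← Complex.normSq_eq_norm_sq]
        simp only [Complex.normSq_apply, Complex.sub_re, Complex.sub_im, Complex.mul_re,
          Complex.mul_im, Complex.conj_re, Complex.conj_im, Complex.one_re, Complex.one_im]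
        ring
      rw [e1, e2, hc]
      have : ‖w‖ ^ 2 ≤ 1 := by
        have := norm_nonneg w
        nlinarith
      nlinarith
    exact (sq_le_sq₀ (norm_nonneg _) (norm_nonneg _)).1 hsq
  have h2 : ‖1 - (conj c * w) ^ N‖ ≤ 1 + (1 / 2) ^ N := by
    refine (norm_sub_le _ _).trans ?_
    rw [norm_one, norm_pow]
    gcongr
  have h3 : ‖(mob c N).eval w‖ * ‖1 - conj c * w‖ ≤ (1 + (1 / 2) ^ N) * ‖1 - conj c * w‖ := by
    rw [← norm_mul, h, norm_mul]
    calc ‖w - c‖ * ‖1 - (conj c * w) ^ N‖ ≤ ‖1 - conj c * w‖ * (1 + (1 / 2) ^ N) := by gcongr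
      _ = _ := mul_comm _ _
  exact le_of_mul_le_mul_right h3 hne

variable {H : Type*} [NormedAddCommGroup H] [InnerProductSpace ℂ H]

/-- the Crouzeix inequality with constant `2` for the operator `A` -/
def Crouzeix (A : H →L[ℂ] H) : Prop :=
  ∀ (p : Polynomial ℂ) (M : ℝ), (∀ x : H, ‖x‖ = 1 → ‖p.eval (inner ℂ x (A x))‖ ≤ M) →
    ∀ y : H, ‖(Polynomial.aeval A p) y‖ ≤ 2 * M * ‖y‖

/-- the limit inequality for the Moebius transform -/
theorem mob_limit (A : H →L[ℂ] H) (hA : Crouzeix A) (p : Polynomial ℂ)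
    (hp : ∀ x : H, ‖x‖ = 1 → ‖p.eval (inner ℂ x (A x))‖ ≤ 1) (c : ℂ) (hc : ‖c‖ = 1 / 2) (x : H) :
    ‖(Polynomial.aeval A p) x - c • x‖ ≤ 2 * ‖x - conj c • (Polynomial.aeval A p) x‖ := by
  set T : H →L[ℂ] H := Polynomial.aeval A p with hT
  -- powers
  have hpow : ∀ (N : ℕ) (y : H), ‖(T ^ N) y‖ ≤ 2 * ‖y‖ := by
    intro N y
    have h := hA (p ^ N) 1 (fun z hz => by
      rw [eval_pow, norm_pow]
      exact pow_le_one₀ (norm_nonneg _) (hp z hz)) y
    rw [map_pow, mul_one] at h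
    exact h
  have hcomp : ∀ q : Polynomial ℂ, Polynomial.aeval A (q.comp p) = Polynomial.aeval T q := by
    intro q
    rw [Polynomial.aeval_comp]
  have hN : ∀ N : ℕ, ‖T x - c • x‖ ≤
      2 * (1 + (1 / 2 : ℝ) ^ N) * ‖x - conj c • T x‖ + (1 / 2 : ℝ) ^ N * (2 * ‖T x - c • x‖) := by
    intro N
    have hb := hA ((mob c N).comp p) (1 + (1 / 2) ^ N) (fun z hz => by
      rw [eval_comp]
      exact mob_bound c hc N _ (hp z hz)) (x - conj c • T x)
    rw [hcomp] at hb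
    have hid : (Polynomial.aeval T (mob c N)) (x - conj c • T x) =
        (T x - c • x) - (conj c) ^ N • (T ^ N) (T x - c • x) := by
      have h := congrArg (Polynomial.aeval T) ((mob_mul c N).trans (mul_comm _ _))
      simp only [map_mul, map_sub, map_one, aeval_X, aeval_C, map_pow,
        Algebra.algebraMap_eq_smul_one, smul_mul_assoc, one_mul, _root_.smul_pow] at h
      have h' := congrArg (fun S : H →L[ℂ] H => S x) h
      simpa using h'
    rw [hid] at hb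
    have h1 : ‖T x - c • x‖ ≤ ‖(T x - c • x) - (conj c) ^ N • (T ^ N) (T x - c • x)‖ +
        ‖(conj c) ^ N • (T ^ N) (T x - c • x)‖ := by
      have := norm_sub_norm_le (T x - c • x) ((conj c) ^ N • (T ^ N) (T x - c • x))
      linarith
    have h2 : ‖(conj c) ^ N • (T ^ N) (T x - c • x)‖ ≤ (1 / 2 : ℝ) ^ N * (2 * ‖T x - c • x‖) := by
      rw [norm_smul, norm_pow, RCLike.norm_conj, hc]
      gcongr
      exact hpow N _
    linarith
  have hlim : Filter.Tendsto (fun N : ℕ => 2 * (1 + (1 / 2 : ℝ) ^ N) * ‖x - conj c • T x‖ +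
      (1 / 2 : ℝ) ^ N * (2 * ‖T x - c • x‖)) Filter.atTop
      (nhds (2 * (1 + 0) * ‖x - conj c • T x‖ + 0 * (2 * ‖T x - c • x‖))) := by
    have h0 : Filter.Tendsto (fun N : ℕ => (1 / 2 : ℝ) ^ N) Filter.atTop (nhds 0) :=
      tendsto_pow_atTop_nhds_zero_of_lt_one (by norm_num) (by norm_num)
    exact (((h0.const_add 1).const_mul 2).mul_const _).add (h0.mul_const _)
  have := ge_of_tendsto' hlim hN
  simpa using this

/-- **the bound 5 / 4** -/
theorem five_quarter (A : H →L[ℂ] H) (hA : Crouzeix A) (p : Polynomial ℂ)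
    (hp : ∀ x : H, ‖x‖ = 1 → ‖p.eval (inner ℂ x (A x))‖ ≤ 1) (x : H) (hx : ‖x‖ = 1) :
    ‖inner ℂ x ((Polynomial.aeval A p) x)‖ ≤ 5 / 4 := by
  set T : H →L[ℂ] H := Polynomial.aeval A p with hT
  set t : ℂ := inner ℂ x (T x) with ht
  by_cases h0 : t = 0
  · rw [h0, norm_zero]; norm_num
  have htn : 0 < ‖t‖ := norm_pos_iff.mpr h0
  set c : ℂ := t / (2 * ‖t‖) with hcdef
  have hc : ‖c‖ = 1 / 2 := by
    rw [hcdef, norm_div, norm_mul, Complex.norm_real, norm_norm]
    have : ‖(2 : ℂ)‖ = 2 := by norm_num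
    rw [this]
    field_simp
  have hl := mob_limit A hA p hp c hc x
  rw [← hT] at hl
  have hsq : ‖T x - c • x‖ ^ 2 ≤ 4 * ‖x - conj c • T x‖ ^ 2 := by
    have := norm_nonneg (T x - c • x)
    nlinarith
  have hct : (conj c * t).re = ‖t‖ / 2 := by
    rw [hcdef, map_div₀, map_mul, Complex.conj_ofReal]
    have : conj (2 : ℂ) = 2 := Complex.conj_ofNat 2
    rw [this]
    have h2 : conj t / (2 * (‖t‖ : ℂ)) * t = ((‖t‖ / 2 : ℝ) : ℂ) := by
      have h3 : conj t * t = ((‖t‖ : ℂ)) ^ 2 := by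
        rw [mul_comm, Complex.mul_conj, Complex.normSq_eq_norm_sq]; push_cast; ring
      have h4 : (‖t‖ : ℂ) ≠ 0 := by exact_mod_cast htn.ne'
      field_simp
      rw [h3]; push_cast; ring
    rw [h2, Complex.ofReal_re]
  have e1 : ‖T x - c • x‖ ^ 2 = ‖T x‖ ^ 2 - 2 * (‖t‖ / 2) + 1 / 4 := by
    rw [@norm_sub_sq ℂ, norm_smul, hc, hx]
    have : RCLike.re (inner ℂ (T x) (c • x)) = ‖t‖ / 2 := by
      rw [inner_smul_right, ← hct]
      have h5 : inner ℂ (T x) x = conj t := by rw [ht, inner_conj_symm]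
      rw [h5]
      have : c * conj t = conj (conj c * t) := by rw [map_mul, Complex.conj_conj]
      rw [this]
      exact Complex.conj_re _
    rw [this]; ring
  have e2 : ‖x - conj c • T x‖ ^ 2 = 1 - 2 * (‖t‖ / 2) + 1 / 4 * ‖T x‖ ^ 2 := by
    rw [@norm_sub_sq ℂ, norm_smul, RCLike.norm_conj, hc, hx]
    have : RCLike.re (inner ℂ x (conj c • T x)) = ‖t‖ / 2 := by
      rw [inner_smul_right, ← hct]
      rfl
    rw [this]; ring
  rw [e1, e2] at hsq
  linarith

end Pool.Agent.W56.Five
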