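import Pool.Agent.W56.Five

set_option autoImplicit false

open Matrix

namespace Pool.Agent.W56.Five

/-- the matrix statement from the Crouzeix inequality on `EuclideanSpace ℂ (Fin n)` -/
theorem matrix_of
    (hC : ∀ (n : ℕ) (A : EuclideanSpace ℂ (Fin n) →L[ℂ] EuclideanSpace ℂ (Fin n)), Crouzeix A) :
    ∀ (n : ℕ) (A : Matrix (Fin n) (Fin n) ℂ) (p : Polynomial ℂ),
      (∀ x : Fin n → ℂ, dotProduct (star x) x = 1 →
        ‖p.eval (dotProduct (star x) (Matrix.mulVec A x))‖ ≤ 1) →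
      ∀ x : Fin n → ℂ, dotProduct (star x) x = 1 →
        ‖dotProduct (star x) (Matrix.mulVec (Polynomial.aeval A p) x)‖ ≤ (5 : ℝ) / 4 := by
  intro n A p hp x hx
  set Φ := Matrix.toEuclideanCLM (n := Fin n) (𝕜 := ℂ) with hΦ
  have hin : ∀ (B : Matrix (Fin n) (Fin n) ℂ) (y : EuclideanSpace ℂ (Fin n)),
      inner ℂ y (Φ B y) = dotProduct (star y.ofLp) (Matrix.mulVec B y.ofLp) := by
    intro B y
    rw [EuclideanSpace.inner_eq_star_dotProduct, dotProduct_comm]
    rfl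
  have hnorm : ∀ y : EuclideanSpace ℂ (Fin n), ‖y‖ = 1 → dotProduct (star y.ofLp) y.ofLp = 1 := by
    intro y hy
    have h1 : inner ℂ y y = (1 : ℂ) := by
      rw [inner_self_eq_norm_sq_to_K, hy]; simp
    rw [EuclideanSpace.inner_eq_star_dotProduct, dotProduct_comm] at h1
    exact h1
  have hnorm' : ‖(WithLp.toLp 2 x : EuclideanSpace ℂ (Fin n))‖ = 1 := by
    have h1 : inner ℂ (WithLp.toLp 2 x : EuclideanSpace ℂ (Fin n)) (WithLp.toLp 2 x) = (1 : ℂ) := by
      rw [EuclideanSpace.inner_eq_star_dotProduct, dotProduct_comm]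
      exact hx
    rw [inner_self_eq_norm_sq_to_K] at h1
    have h2 : ‖(WithLp.toLp 2 x : EuclideanSpace ℂ (Fin n))‖ ^ 2 = 1 := by
      have h4 : ((‖(WithLp.toLp 2 x : EuclideanSpace ℂ (Fin n))‖ ^ 2 : ℝ) : ℂ) = ((1 : ℝ) : ℂ) := by
        rw [Complex.ofReal_one, ← h1]
        push_cast
        rfl
      exact Complex.ofReal_injective h4
    have h3 := norm_nonneg (WithLp.toLp 2 x : EuclideanSpace ℂ (Fin n))
    nlinarith
  have hae : Polynomial.aeval (Φ A) p = Φ (Polynomial.aeval A p) := by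
    exact Polynomial.aeval_algHom_apply Φ.toAlgEquiv.toAlgHom A p
  have key := five_quarter (Φ A) (hC n (Φ A)) p (fun y hy => by
    rw [hin]
    exact hp _ (hnorm y hy)) (WithLp.toLp 2 x) hnorm'
  rw [hae, hin] at key
  exact key

end Pool.Agent.W56.Five
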