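import Mathlib

set_option autoImplicit false

namespace Pool.Agent.W56.SG

open MeasureTheory Finset

universe u v w

/-- an orthonormal group of unimodular functions on a probability space -/
structure CharSys {Γ : Type u} [AddCommGroup Γ] {X : Type v} [MeasurableSpace X] (μ : Measure X)
    (χ : Γ → X → ℂ) : Prop where
  zero : ∀ x, χ 0 x = 1
  add : ∀ m n x, χ (m + n) x = χ m x * χ n x
  norm : ∀ n x, ‖χ n x‖ = 1
  meas : ∀ n, Measurable (χ n)
  int : ∀ n, n ≠ 0 → ∫ x, χ n x ∂μ = 0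

variable {Γ : Type u} [AddCommGroup Γ] {X : Type v} [MeasurableSpace X] {μ : Measure X}
  [IsProbabilityMeasure μ] {χ : Γ → X → ℂ}

theorem CharSys.neg (h : CharSys μ χ) (n : Γ) (x : X) : χ (-n) x = (starRingEnd ℂ) (χ n x) := by
  have h1 : χ (-n) x * χ n x = 1 := by rw [← h.add, neg_add_cancel, h.zero]
  have h2 : (starRingEnd ℂ) (χ n x) * χ n x = 1 := by
    rw [mul_comm, Complex.mul_conj, Complex.normSq_eq_norm_sq, h.norm]; norm_num
  have h3 : χ n x ≠ 0 := by
    intro h0
    have := h.norm n x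
    rw [h0, norm_zero] at this
    norm_num at this
  exact mul_right_cancel₀ h3 (h1.trans h2.symm)

theorem CharSys.sum (h : CharSys μ χ) {ι : Type w} (s : Finset ι) (f : ι → Γ) (x : X) :
    χ (∑ i ∈ s, f i) x = ∏ i ∈ s, χ (f i) x := by
  classical
  induction s using Finset.induction_on with
  | empty => simp [h.zero]
  | insert a s ha ih => rw [Finset.sum_insert ha, Finset.prod_insert ha, h.add, ih]

theorem CharSys.integrable (h : CharSys μ χ) (n : Γ) : Integrable (χ n) μ := by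
  refine Integrable.of_bound (h.meas n).aestronglyMeasurable 1 ?_
  filter_upwards with x
  rw [h.norm]

/-- convexity bound -/
theorem exp_le_cosh (r u : ℝ) (hu : |u| ≤ 1) :
    Real.exp (r * u) ≤ Real.cosh r + Real.sinh r * u := by
  obtain ⟨h1, h2⟩ := abs_le.mp hu
  have h := convexOn_exp.2 (Set.mem_univ r) (Set.mem_univ (-r))
    (show (0 : ℝ) ≤ (1 + u) / 2 by linarith) (show (0 : ℝ) ≤ (1 - u) / 2 by linarith) (by ring)
  simp only [smul_eq_mul] at h
  have e1 : (1 + u) / 2 * r + (1 - u) / 2 * -r = r * u := by ring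
  rw [e1] at h
  rw [Real.cosh_eq, Real.sinh_eq]
  linarith

/-- weights -/
noncomputable def wt (p q : ℝ) (c : ℂ) (e : ℤ) : ℂ :=
  if e = 0 then (p : ℂ) else if e = 1 then (q : ℂ) * c / 2 else (q : ℂ) * (starRingEnd ℂ) c / 2

theorem wt_sum (h : CharSys μ χ) (p q : ℝ) (c : ℂ) (v : Γ) (x : X) :
    ∑ e ∈ ({-1, 0, 1} : Finset ℤ), wt p q c e * χ (e • v) x =
      ((p + q * (c * χ v x).re : ℝ) : ℂ) := by
  rw [Finset.sum_insert (by decide), Finset.sum_insert (by decide), Finset.sum_singleton]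
  have e1 : wt p q c (-1) = (q : ℂ) * (starRingEnd ℂ) c / 2 := by
    unfold wt
    rw [if_neg (by norm_num), if_neg (by norm_num)]
  have e2 : wt p q c 0 = p := by unfold wt; rw [if_pos rfl]
  have e3 : wt p q c 1 = (q : ℂ) * c / 2 := by
    unfold wt
    rw [if_neg (by norm_num), if_pos rfl]
  rw [e1, e2, e3, neg_one_zsmul, zero_zsmul, one_zsmul, h.zero, h.neg]
  push_cast
  rw [Complex.re_eq_add_conj, map_mul]
  ring

/-- the integral of a Riesz product -/
theorem riesz (h : CharSys μ χ) {ι : Type w} [Fintype ι] (v : ι → Γ)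
    (hv : ∀ ξ : ι → ℤ, (∀ i, ξ i = -1 ∨ ξ i = 0 ∨ ξ i = 1) → ∑ i, ξ i • v i = 0 → ∀ i, ξ i = 0)
    (p q : ι → ℝ) (c : ι → ℂ) :
    Integrable (fun x => ∏ i, (p i + q i * (c i * χ (v i) x).re)) μ ∧
    ∫ x, ∏ i, (p i + q i * (c i * χ (v i) x).re) ∂μ = ∏ i, p i := by
  classical
  have key : ∀ x, ((∏ i, (p i + q i * (c i * χ (v i) x).re) : ℝ) : ℂ) =
      ∑ ξ ∈ Fintype.piFinset (fun _ : ι => ({-1, 0, 1} : Finset ℤ)),
        (∏ i, wt (p i) (q i) (c i) (ξ i)) * χ (∑ i, ξ i • v i) x := by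
    intro x
    rw [Complex.ofReal_prod]
    have h1 : ∀ i, ((p i + q i * (c i * χ (v i) x).re : ℝ) : ℂ) =
        ∑ e ∈ ({-1, 0, 1} : Finset ℤ), wt (p i) (q i) (c i) e * χ (e • v i) x := fun i =>
      (wt_sum h (p i) (q i) (c i) (v i) x).symm
    rw [Finset.prod_congr rfl (fun i _ => h1 i), Finset.prod_univ_sum]
    apply Finset.sum_congr rfl
    intro ξ _
    rw [Finset.prod_mul_distrib, h.sum]
  have hint : Integrable (fun x => ∑ ξ ∈ Fintype.piFinset (fun _ : ι => ({-1, 0, 1} : Finset ℤ)),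
        (∏ i, wt (p i) (q i) (c i) (ξ i)) * χ (∑ i, ξ i • v i) x) μ :=
    integrable_finsetSum _ (fun ξ _ => (h.integrable _).const_mul _)
  have hint2 : Integrable (fun x => ((∏ i, (p i + q i * (c i * χ (v i) x).re) : ℝ) : ℂ)) μ := by
    simpa only [key] using hint
  have hintR : Integrable (fun x => ∏ i, (p i + q i * (c i * χ (v i) x).re)) μ := by
    have h1 := hint2.re
    have h2 : (fun x => RCLike.re (((∏ i, (p i + q i * (c i * χ (v i) x).re) : ℝ) : ℂ))) =
      (fun x => ∏ i, (p i + q i * (c i * χ (v i) x).re)) := by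
      funext x
      exact Complex.ofReal_re _
    rw [h2] at h1
    exact h1
  refine ⟨hintR, ?_⟩
  have hC : ((∫ x, ∏ i, (p i + q i * (c i * χ (v i) x).re) ∂μ : ℝ) : ℂ) = ((∏ i, p i : ℝ) : ℂ) := by
    rw [← integral_complex_ofReal]
    rw [integral_congr_ae (Filter.Eventually.of_forall key)]
    rw [integral_finsetSum _ (fun ξ _ => (h.integrable _).const_mul _)]
    have h0mem : (fun _ : ι => (0 : ℤ)) ∈ Fintype.piFinset (fun _ : ι => ({-1, 0, 1} : Finset ℤ)) := by
      rw [Fintype.mem_piFinset]; intro i; simp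
    rw [Finset.sum_eq_single_of_mem (fun _ : ι => (0 : ℤ)) h0mem]
    · have h2 : ∀ x, (∏ i, wt (p i) (q i) (c i) ((fun _ : ι => (0 : ℤ)) i)) *
          χ (∑ i, ((fun _ : ι => (0 : ℤ)) i) • v i) x = ((∏ i, p i : ℝ) : ℂ) := by
        intro x
        simp only [zero_smul, Finset.sum_const_zero, h.zero, mul_one, wt, if_true]
        rw [Complex.ofReal_prod]
      rw [integral_congr_ae (Filter.Eventually.of_forall h2)]
      rw [integral_const]
      simp
    · intro ξ hξ hne
      rw [integral_const_mul]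
      have h3 : ∑ i, ξ i • v i ≠ 0 := by
        intro h0
        apply hne
        funext i
        refine hv ξ ?_ h0 i
        intro j
        have := Fintype.mem_piFinset.mp hξ j
        simpa using this
      rw [h.int _ h3, mul_zero]
  exact_mod_cast hC

/-- the moment generating function of a quasi-independent sum -/
theorem mgf_le (h : CharSys μ χ) {ι : Type w} [Fintype ι] (v : ι → Γ)
    (hv : ∀ ξ : ι → ℤ, (∀ i, ξ i = -1 ∨ ξ i = 0 ∨ ξ i = 1) → ∑ i, ξ i • v i = 0 → ∀ i, ξ i = 0)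
    (a : ι → ℂ) :
    ∫ x, Real.exp (∑ i, a i * χ (v i) x).re ∂μ ≤ Real.exp ((∑ i, ‖a i‖ ^ 2) / 2) := by
  classical
  -- the polar decomposition
  let c : ι → ℂ := fun i => if a i = 0 then 1 else a i / ‖a i‖
  have hc : ∀ i, ‖c i‖ = 1 := by
    intro i
    by_cases h0 : a i = 0
    · simp [c, h0]
    · simp only [c, if_neg h0, norm_div, Complex.norm_real, norm_norm]
      exact div_self (norm_ne_zero_iff.mpr h0)
  have hac : ∀ i, a i = (‖a i‖ : ℂ) * c i := by
    intro i
    by_cases h0 : a i = 0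
    · simp [h0]
    · simp only [c, if_neg h0]
      have : (‖a i‖ : ℂ) ≠ 0 := by
        exact_mod_cast (norm_ne_zero_iff.mpr h0)
      field_simp
  obtain ⟨hR1, hR2⟩ := riesz h v hv (fun i => Real.cosh ‖a i‖) (fun i => Real.sinh ‖a i‖) c
  have hpt : ∀ x, Real.exp (∑ i, a i * χ (v i) x).re ≤
      ∏ i, (Real.cosh ‖a i‖ + Real.sinh ‖a i‖ * (c i * χ (v i) x).re) := by
    intro x
    rw [Complex.re_sum, Real.exp_sum]
    apply Finset.prod_le_prod
    · intro i _; positivity
    · intro i _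
      have e1 : (a i * χ (v i) x).re = ‖a i‖ * (c i * χ (v i) x).re := by
        conv_lhs => rw [hac i]
        rw [mul_assoc, Complex.re_ofReal_mul]
      rw [e1]
      apply exp_le_cosh
      calc |(c i * χ (v i) x).re| ≤ ‖c i * χ (v i) x‖ := Complex.abs_re_le_norm _
        _ = 1 := by rw [norm_mul, hc, h.norm, one_mul]
  calc ∫ x, Real.exp (∑ i, a i * χ (v i) x).re ∂μ
      ≤ ∫ x, ∏ i, (Real.cosh ‖a i‖ + Real.sinh ‖a i‖ * (c i * χ (v i) x).re) ∂μ := by
        apply integral_mono_of_nonneg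
        · exact Filter.Eventually.of_forall (fun x => (Real.exp_pos _).le)
        · exact hR1
        · exact Filter.Eventually.of_forall hpt
    _ = ∏ i, Real.cosh ‖a i‖ := hR2
    _ ≤ ∏ i, Real.exp (‖a i‖ ^ 2 / 2) := by
        apply Finset.prod_le_prod
        · intro i _; exact (Real.cosh_pos _).le
        · intro i _; exact Real.cosh_le_exp_half_sq _
    _ = Real.exp ((∑ i, ‖a i‖ ^ 2) / 2) := by
        rw [← Real.exp_sum, Finset.sum_div]

/-- even power bound -/
theorem pow_le_cosh (y : ℝ) (k : ℕ) : y ^ (2 * k) / (2 * k).factorial ≤ Real.cosh y := by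
  have h := Real.hasSum_cosh y
  refine le_hasSum h k (fun j _ => ?_)
  have : 0 ≤ y ^ (2 * j) := by rw [pow_mul]; positivity
  positivity

/-- moments from the moment generating function -/
theorem moment_le {Y : X → ℝ} (hY : Measurable Y) (s : ℝ) (hs : 0 < s)
    (hint : ∀ t : ℝ, Integrable (fun x => Real.exp (t * Y x)) μ)
    (hmgf : ∀ t : ℝ, ∫ x, Real.exp (t * Y x) ∂μ ≤ Real.exp (t ^ 2 * s / 2)) (k : ℕ) :
    ∫⁻ x, ENNReal.ofReal ((Y x ^ 2 / (2 * Real.exp 1 * s)) ^ k / k.factorial) ∂μ ≤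
      ENNReal.ofReal ((1 / 2) ^ k) := by
  rcases Nat.eq_zero_or_pos k with rfl | hk
  · simp
  have hk' : (0 : ℝ) < k := by exact_mod_cast hk
  set t : ℝ := Real.sqrt (2 * k / s) with ht
  have ht2 : t ^ 2 = 2 * k / s := Real.sq_sqrt (by positivity)
  have htpos : 0 < t := Real.sqrt_pos.mpr (by positivity)
  -- pointwise bound by a constant times cosh
  have hfac : ((2 * k).factorial : ℝ) ≤ (2 * k) ^ k * k.factorial := by
    have h1 := Nat.descFactorial_le_pow (2 * k) k
    have h2 := Nat.factorial_mul_descFactorial (show k ≤ 2 * k by omega)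
    have h3 : 2 * k - k = k := by omega
    rw [h3] at h2
    have h4 : (2 * k).factorial ≤ (2 * k) ^ k * k.factorial := by
      rw [← h2, mul_comm]
      exact Nat.mul_le_mul_right _ h1
    exact_mod_cast h4
  have hpt : ∀ x, (Y x ^ 2 / (2 * Real.exp 1 * s)) ^ k / k.factorial ≤
      (1 / 2) ^ k * (Real.exp (-k)) * ((Real.exp (t * Y x) + Real.exp (-t * Y x)) / 2) := by
    intro x
    have h1 := pow_le_cosh (t * Y x) k
    rw [Real.cosh_eq] at h1
    have h0 : -(t * Y x) = -t * Y x := by ring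
    rw [h0] at h1
    have hf0 : (0 : ℝ) < (2 * k).factorial := by exact_mod_cast Nat.factorial_pos _
    have hf1 : (0 : ℝ) < k.factorial := by exact_mod_cast Nat.factorial_pos _
    have h2 : (Y x ^ 2 / (2 * Real.exp 1 * s)) ^ k / k.factorial =
        ((1 / 2) ^ k * Real.exp (-k)) * (((t * Y x) ^ (2 * k) / (2 * k).factorial) *
          ((2 * k).factorial / ((2 * k) ^ k * k.factorial))) := by
      have e1 : (t * Y x) ^ (2 * k) = (2 * k / s) ^ k * (Y x ^ 2) ^ k := by
        rw [pow_mul, mul_pow, ht2, mul_pow]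
      have e2 : Real.exp (-k) = ((Real.exp 1) ^ k)⁻¹ := by
        rw [Real.exp_neg, ← Real.exp_nat_mul, mul_one]
      rw [e1, e2]
      simp only [mul_pow, div_pow, one_pow]
      field_simp
    rw [h2]
    apply mul_le_mul_of_nonneg_left _ (by positivity)
    calc ((t * Y x) ^ (2 * k) / (2 * k).factorial) * ((2 * k).factorial / ((2 * k) ^ k * k.factorial))
        ≤ ((t * Y x) ^ (2 * k) / (2 * k).factorial) * 1 := by
          apply mul_le_mul_of_nonneg_left
          · rw [div_le_one (by positivity)]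
            exact hfac
          · have : 0 ≤ (t * Y x) ^ (2 * k) := by rw [pow_mul]; positivity
            positivity
      _ ≤ _ := by rw [mul_one]; exact h1
  have hi : Integrable (fun x => (1 / 2) ^ k * (Real.exp (-k)) *
      ((Real.exp (t * Y x) + Real.exp (-t * Y x)) / 2)) μ :=
    (((hint t).add (hint (-t))).div_const 2).const_mul _
  calc ∫⁻ x, ENNReal.ofReal ((Y x ^ 2 / (2 * Real.exp 1 * s)) ^ k / k.factorial) ∂μ
      ≤ ∫⁻ x, ENNReal.ofReal ((1 / 2) ^ k * (Real.exp (-k)) *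
          ((Real.exp (t * Y x) + Real.exp (-t * Y x)) / 2)) ∂μ :=
        lintegral_mono (fun x => ENNReal.ofReal_le_ofReal (hpt x))
    _ = ENNReal.ofReal (∫ x, (1 / 2) ^ k * (Real.exp (-k)) *
          ((Real.exp (t * Y x) + Real.exp (-t * Y x)) / 2) ∂μ) := by
        rw [ofReal_integral_eq_lintegral_ofReal hi]
        exact Filter.Eventually.of_forall (fun x => by positivity)
    _ ≤ ENNReal.ofReal ((1 / 2) ^ k) := by
        apply ENNReal.ofReal_le_ofReal
        rw [integral_const_mul, integral_div, integral_add (hint t) (hint (-t))]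
        have h1 := hmgf t
        have h2 := hmgf (-t)
        have h3 : t ^ 2 * s / 2 = k := by rw [ht2]; field_simp
        have h4 : (-t) ^ 2 * s / 2 = k := by rw [neg_sq, h3]
        rw [h3] at h1
        rw [h4] at h2
        calc (1 / 2 : ℝ) ^ k * Real.exp (-k) *
              ((∫ x, Real.exp (t * Y x) ∂μ + ∫ x, Real.exp (-t * Y x) ∂μ) / 2)
            ≤ (1 / 2) ^ k * Real.exp (-k) * Real.exp k := by
              apply mul_le_mul_of_nonneg_left _ (by positivity)
              linarith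
          _ = (1 / 2) ^ k := by
              rw [mul_assoc, ← Real.exp_add, neg_add_cancel, Real.exp_zero, mul_one]

/-- exponential square integrability -/
theorem exp_sq_le {Y : X → ℝ} (hY : Measurable Y) (s : ℝ) (hs : 0 < s)
    (hint : ∀ t : ℝ, Integrable (fun x => Real.exp (t * Y x)) μ)
    (hmgf : ∀ t : ℝ, ∫ x, Real.exp (t * Y x) ∂μ ≤ Real.exp (t ^ 2 * s / 2)) :
    ∫⁻ x, ENNReal.ofReal (Real.exp (Y x ^ 2 / (2 * Real.exp 1 * s))) ∂μ ≤ 2 := by
  have h1 : ∀ x, ENNReal.ofReal (Real.exp (Y x ^ 2 / (2 * Real.exp 1 * s))) =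
      ∑' k : ℕ, ENNReal.ofReal ((Y x ^ 2 / (2 * Real.exp 1 * s)) ^ k / k.factorial) := by
    intro x
    rw [Real.exp_eq_exp_ℝ, NormedSpace.exp_eq_tsum_div]
    apply ENNReal.ofReal_tsum_of_nonneg
    · intro k; positivity
    · exact NormedSpace.expSeries_div_summable _
  simp only [h1]
  rw [lintegral_tsum]
  · calc ∑' k : ℕ, ∫⁻ x, ENNReal.ofReal ((Y x ^ 2 / (2 * Real.exp 1 * s)) ^ k / k.factorial) ∂μ
        ≤ ∑' k : ℕ, ENNReal.ofReal ((1 / 2) ^ k) :=
          ENNReal.tsum_le_tsum (fun k => moment_le hY s hs hint hmgf k)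
      _ = ENNReal.ofReal (∑' k : ℕ, (1 / 2 : ℝ) ^ k) := by
          rw [ENNReal.ofReal_tsum_of_nonneg]
          · intro k; positivity
          · exact summable_geometric_two
      _ = 2 := by rw [tsum_geometric_two]; simp
  · intro k
    apply AEMeasurable.ennreal_ofReal
    exact (((hY.pow_const 2).div_const _).pow_const k).div_const _ |>.aemeasurable

/-- Jensen for the exponential -/
theorem exp_sum_le {ι : Type w} (T : Finset ι) (hT : T.Nonempty) (y : ι → ℝ) :
    Real.exp (∑ i ∈ T, y i) ≤ (∑ i ∈ T, Real.exp (T.card * y i)) / T.card := by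
  have hc : (0 : ℝ) < T.card := by exact_mod_cast hT.card_pos
  have h := convexOn_exp.map_sum_le (t := T) (w := fun _ => (1 : ℝ) / T.card)
    (p := fun i => T.card * y i) (fun i _ => by positivity)
    (by rw [Finset.sum_const, nsmul_eq_mul]; field_simp) (fun i _ => Set.mem_univ _)
  simp only [smul_eq_mul] at h
  have e1 : ∑ i ∈ T, 1 / (T.card : ℝ) * (T.card * y i) = ∑ i ∈ T, y i := by
    apply Finset.sum_congr rfl
    intro i _
    field_simp
  rw [e1, ← Finset.mul_sum] at h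
  rw [div_eq_inv_mul, ← one_div]
  exact h

/-- quasi-independence along a finite set -/
def QIF (A : Finset Γ) : Prop :=
  ∀ ξ : Γ → ℤ, (∀ n ∈ A, ξ n = -1 ∨ ξ n = 0 ∨ ξ n = 1) → ∑ n ∈ A, ξ n • n = 0 → ∀ n ∈ A, ξ n = 0

theorem mgf_fin (h : CharSys μ χ) (A : Finset Γ) (hA : QIF A) (a : Γ → ℂ) :
    ∫ x, Real.exp (∑ n ∈ A, a n * χ n x).re ∂μ ≤ Real.exp ((∑ n ∈ A, ‖a n‖ ^ 2) / 2) := by
  classical
  have h1 := mgf_le h (ι := A) (fun n => (n : Γ)) (by
    intro ξ hξ hrel i
    let ξ' : Γ → ℤ := fun n => if hn : n ∈ A then ξ ⟨n, hn⟩ else 0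
    have hv : ∀ i : A, ξ' i = ξ i := fun i => dif_pos i.2
    have := hA ξ' (fun n hn => by rw [hv ⟨n, hn⟩]; exact hξ _) (by
      rw [← hrel, ← Finset.sum_coe_sort A]
      apply Finset.sum_congr rfl
      intro i _
      rw [hv i]) i i.2
    rw [← hv i]
    exact this) (fun n => a n)
  rw [Finset.sum_coe_sort A (fun n => ‖a n‖ ^ 2)] at h1
  have e : ∀ x, ∑ i : A, a i * χ (i : Γ) x = ∑ n ∈ A, a n * χ n x := fun x =>
    Finset.sum_coe_sort A (fun n => a n * χ n x)
  simp only [e] at h1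
  exact h1

theorem meas_sum (h : CharSys μ χ) (A : Finset Γ) (a : Γ → ℂ) :
    Measurable (fun x => ∑ n ∈ A, a n * χ n x) :=
  Finset.measurable_sum _ (fun n _ => (h.meas n).const_mul _)

/-- exponential square integrability of a quasi-independent sum (real part) -/
theorem re_exp_sq (h : CharSys μ χ) (A : Finset Γ) (hA : QIF A) (a : Γ → ℂ) (s : ℝ) (hs : 0 < s)
    (has : ∑ n ∈ A, ‖a n‖ ^ 2 ≤ s) :
    ∫⁻ x, ENNReal.ofReal (Real.exp ((∑ n ∈ A, a n * χ n x).re ^ 2 / (2 * Real.exp 1 * s))) ∂μ ≤ 2 := by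
  have hmeas : Measurable (fun x => (∑ n ∈ A, a n * χ n x).re) :=
    Complex.measurable_re.comp (meas_sum h A a)
  refine exp_sq_le hmeas s hs ?_ ?_
  · intro t
    refine Integrable.of_bound ((hmeas.const_mul t).exp).aestronglyMeasurable
      (Real.exp (|t| * ∑ n ∈ A, ‖a n‖)) ?_
    filter_upwards with x
    rw [Real.norm_eq_abs, Real.abs_exp]
    apply Real.exp_le_exp.mpr
    calc t * (∑ n ∈ A, a n * χ n x).re ≤ |t * (∑ n ∈ A, a n * χ n x).re| := le_abs_self _
      _ = |t| * |(∑ n ∈ A, a n * χ n x).re| := abs_mul _ _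
      _ ≤ |t| * ∑ n ∈ A, ‖a n‖ := by
        apply mul_le_mul_of_nonneg_left _ (abs_nonneg _)
        calc |(∑ n ∈ A, a n * χ n x).re| ≤ ‖∑ n ∈ A, a n * χ n x‖ := Complex.abs_re_le_norm _
          _ ≤ ∑ n ∈ A, ‖a n * χ n x‖ := norm_sum_le _ _
          _ = ∑ n ∈ A, ‖a n‖ := by
            apply Finset.sum_congr rfl
            intro n _
            rw [norm_mul, h.norm, mul_one]
  · intro t
    have h1 := mgf_fin h A hA (fun n => (t : ℂ) * a n)
    have e1 : ∀ x, (∑ n ∈ A, (t : ℂ) * a n * χ n x).re = t * (∑ n ∈ A, a n * χ n x).re := by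
      intro x
      rw [← Complex.re_ofReal_mul, Finset.mul_sum]
      congr 1
      apply Finset.sum_congr rfl
      intro n _
      ring
    simp only [e1] at h1
    refine h1.trans (Real.exp_le_exp.mpr ?_)
    have e2 : ∑ n ∈ A, ‖(t : ℂ) * a n‖ ^ 2 = t ^ 2 * ∑ n ∈ A, ‖a n‖ ^ 2 := by
      rw [Finset.mul_sum]
      apply Finset.sum_congr rfl
      intro n _
      rw [norm_mul, mul_pow, Complex.norm_real, Real.norm_eq_abs, sq_abs]
    rw [e2]
    have := mul_le_mul_of_nonneg_left has (sq_nonneg t)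
    linarith

/-- the easy direction: finite unions -/
theorem union_exp_sq (h : CharSys μ χ) (k : ℕ) (hk : 0 < k) (A : Fin k → Finset Γ)
    (hA : ∀ j, QIF (A j)) (a : Γ → ℂ) (s : ℝ) (hs : 0 < s)
    (has : ∀ j, ∑ n ∈ A j, ‖a n‖ ^ 2 ≤ s) (c : ℝ) (hc : 0 < c)
    (hcs : c ^ 2 = 4 * k ^ 2 * Real.exp 1 * s) :
    ∫⁻ x, ENNReal.ofReal (Real.exp (‖∑ j, ∑ n ∈ A j, a n * χ n x‖ ^ 2 / c ^ 2)) ∂μ ≤
      ENNReal.ofReal (Real.exp 1) := by
  classical
  have hk' : (0 : ℝ) < k := by exact_mod_cast hk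
  -- the `2k` real functions
  let b : Fin 2 → Γ → ℂ := fun e n => if e = 0 then a n else -Complex.I * a n
  let F : Fin k × Fin 2 → X → ℝ := fun p x => (∑ n ∈ A p.1, b p.2 n * χ n x).re
  have hF0 : ∀ j x, F (j, 0) x = (∑ n ∈ A j, a n * χ n x).re := by
    intro j x; simp [F, b]
  have hF1 : ∀ j x, F (j, 1) x = (∑ n ∈ A j, a n * χ n x).im := by
    intro j x
    have e : ∑ n ∈ A j, b 1 n * χ n x = -Complex.I * ∑ n ∈ A j, a n * χ n x := by
      rw [Finset.mul_sum]
      apply Finset.sum_congr rfl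
      intro n _
      simp only [b, if_neg (show (1 : Fin 2) ≠ 0 by decide)]
      ring
    simp only [F]
    rw [e]
    simp
  have hpt : ∀ x, Real.exp (‖∑ j, ∑ n ∈ A j, a n * χ n x‖ ^ 2 / c ^ 2) ≤
      (∑ p : Fin k × Fin 2, Real.exp (F p x ^ 2 / (2 * Real.exp 1 * s))) / (2 * k) := by
    intro x
    have h1 : ‖∑ j, ∑ n ∈ A j, a n * χ n x‖ ^ 2 ≤ k * ∑ j, ‖∑ n ∈ A j, a n * χ n x‖ ^ 2 := by
      calc ‖∑ j, ∑ n ∈ A j, a n * χ n x‖ ^ 2 ≤ (∑ j, ‖∑ n ∈ A j, a n * χ n x‖) ^ 2 :=
            pow_le_pow_left₀ (norm_nonneg _) (norm_sum_le _ _) 2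
        _ ≤ (Finset.univ : Finset (Fin k)).card * ∑ j, ‖∑ n ∈ A j, a n * χ n x‖ ^ 2 :=
            sq_sum_le_card_mul_sum_sq
        _ = k * ∑ j, ‖∑ n ∈ A j, a n * χ n x‖ ^ 2 := by rw [Finset.card_univ, Fintype.card_fin]
    have h2 : ∑ j, ‖∑ n ∈ A j, a n * χ n x‖ ^ 2 = ∑ p : Fin k × Fin 2, F p x ^ 2 := by
      rw [Fintype.sum_prod_type]
      apply Finset.sum_congr rfl
      intro j _
      rw [Fin.sum_univ_two, hF0, hF1, ← Complex.normSq_eq_norm_sq, Complex.normSq_apply]
      ring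
    rw [h2] at h1
    have hcard : (Finset.univ : Finset (Fin k × Fin 2)).card = 2 * k := by
      rw [Finset.card_univ, Fintype.card_prod, Fintype.card_fin, Fintype.card_fin]; ring
    have hne : (Finset.univ : Finset (Fin k × Fin 2)).Nonempty := by
      rw [← Finset.card_pos, hcard]; omega
    have h3 := exp_sum_le (Finset.univ : Finset (Fin k × Fin 2)) hne (fun p => k * F p x ^ 2 / c ^ 2)
    rw [hcard] at h3
    calc Real.exp (‖∑ j, ∑ n ∈ A j, a n * χ n x‖ ^ 2 / c ^ 2)
        ≤ Real.exp (∑ p : Fin k × Fin 2, k * F p x ^ 2 / c ^ 2) := by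
          apply Real.exp_le_exp.mpr
          rw [← Finset.sum_div, ← Finset.mul_sum]
          exact div_le_div_of_nonneg_right h1 (by positivity)
      _ ≤ (∑ p : Fin k × Fin 2, Real.exp (((2 * k : ℕ) : ℝ) * (k * F p x ^ 2 / c ^ 2))) /
            ((2 * k : ℕ) : ℝ) := h3
      _ = (∑ p : Fin k × Fin 2, Real.exp (F p x ^ 2 / (2 * Real.exp 1 * s))) / (2 * k) := by
          push_cast
          congr 1
          apply Finset.sum_congr rfl
          intro p _
          congr 1
          rw [hcs]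
          field_simp
          ring
  calc ∫⁻ x, ENNReal.ofReal (Real.exp (‖∑ j, ∑ n ∈ A j, a n * χ n x‖ ^ 2 / c ^ 2)) ∂μ
      ≤ ∫⁻ x, ENNReal.ofReal ((∑ p : Fin k × Fin 2,
          Real.exp (F p x ^ 2 / (2 * Real.exp 1 * s))) / (2 * k)) ∂μ :=
        lintegral_mono (fun x => ENNReal.ofReal_le_ofReal (hpt x))
    _ = ∫⁻ x, ENNReal.ofReal (1 / (2 * k)) * ∑ p : Fin k × Fin 2,
          ENNReal.ofReal (Real.exp (F p x ^ 2 / (2 * Real.exp 1 * s))) ∂μ := by
        apply lintegral_congr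
        intro x
        rw [← ENNReal.ofReal_sum_of_nonneg (fun p _ => (Real.exp_pos _).le),
          ← ENNReal.ofReal_mul (by positivity)]
        congr 1
        ring
    _ = ENNReal.ofReal (1 / (2 * k)) * ∑ p : Fin k × Fin 2, ∫⁻ x,
          ENNReal.ofReal (Real.exp (F p x ^ 2 / (2 * Real.exp 1 * s))) ∂μ := by
        have hm : ∀ p : Fin k × Fin 2, Measurable (fun x => ENNReal.ofReal
            (Real.exp (F p x ^ 2 / (2 * Real.exp 1 * s)))) := by
          intro p
          apply Measurable.ennreal_ofReal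
          have : Measurable (F p) := Complex.measurable_re.comp (meas_sum h _ _)
          exact ((this.pow_const 2).div_const _).exp
        rw [lintegral_const_mul _ (Finset.measurable_sum _ (fun p _ => hm p)),
          lintegral_finsetSum _ (fun p _ => hm p)]
    _ ≤ ENNReal.ofReal (1 / (2 * k)) * ∑ _p : Fin k × Fin 2, 2 := by
        gcongr with p _
        apply re_exp_sq h (A p.1) (hA p.1) _ s hs
        refine le_trans (Finset.sum_le_sum (fun n _ => ?_)) (has p.1)
        simp only [b]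
        split_ifs <;> simp
    _ = 2 := by
        rw [Finset.sum_const, Finset.card_univ, Fintype.card_prod, Fintype.card_fin, Fintype.card_fin,
          nsmul_eq_mul]
        have e1 : (((k * 2 : ℕ) : ℕ) : ENNReal) = ENNReal.ofReal (2 * k) := by
          rw [← ENNReal.ofReal_natCast]; congr 1; push_cast; ring
        rw [e1, ← mul_assoc, ← ENNReal.ofReal_mul (by positivity)]
        rw [one_div, inv_mul_cancel₀ (by positivity)]
        simp
    _ ≤ ENNReal.ofReal (Real.exp 1) := by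
        rw [show (2 : ENNReal) = ENNReal.ofReal 2 by simp]
        apply ENNReal.ofReal_le_ofReal
        have := Real.exp_one_gt_d9
        linarith

end Pool.Agent.W56.SG
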