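import Pool.Agent.W56.SG
import Pool.Agent.H337R3.Sid7

set_option autoImplicit false
set_option linter.unusedSectionVars false

namespace Pool.Agent.W56.SG

open MeasureTheory Finset

universe u v w

variable {Γ : Type u} [AddCommGroup Γ] {X : Type v} [MeasurableSpace X] {μ : Measure X}
  [IsProbabilityMeasure μ] {χ : Γ → X → ℂ}

/-- orthogonality over a finite subgroup -/
theorem sum_subgroup (h : CharSys μ χ) (M : AddSubgroup Γ) [Fintype M] (x : X)
    (hx : ¬ ∀ m ∈ M, χ m x = 1) : ∑ m : M, χ (m : Γ) x = 0 := by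
  push Not at hx
  obtain ⟨m₀, hm₀, hne⟩ := hx
  have h1 : ∑ m : M, χ (m : Γ) x = (∑ m : M, χ (m : Γ) x) * χ m₀ x := by
    rw [Finset.sum_mul]
    rw [← Equiv.sum_comp (Equiv.addRight (⟨m₀, hm₀⟩ : M)) (fun m : M => χ (m : Γ) x)]
    apply Finset.sum_congr rfl
    intro m _
    simp only [Equiv.coe_addRight, AddSubgroup.coe_add]
    rw [h.add]
  have h2 : (∑ m : M, χ (m : Γ) x) * (χ m₀ x - 1) = 0 := by
    rw [mul_sub, mul_one, ← h1, sub_self]
  rcases mul_eq_zero.mp h2 with h3 | h3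
  · exact h3
  · exact absurd (sub_eq_zero.mp h3) hne

theorem small_of_subgaussian [DecidableEq Γ] (h : CharSys μ χ) (Λ : Set Γ)
    (hfin : ∀ D : Finset Γ, (D : Set Γ) ⊆ Λ → Finite (AddSubgroup.closure (D : Set Γ)))
    (h0 : (0 : Γ) ∉ Λ) (C : ℝ) (hC : 0 < C)
    (hΛ : ∀ A : Finset Γ, (A : Set Γ) ⊆ Λ → A.Nonempty →
      ∫⁻ x, ENNReal.ofReal (Real.exp (‖∑ n ∈ A, χ n x‖ ^ 2 / (C ^ 2 * A.card))) ∂μ ≤
        ENNReal.ofReal (Real.exp 1)) :
    ∃ K : ℕ, Pool.Agent.H337R3.Sid.Small K Λ := by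
  refine ⟨⌈3 * C ^ 2⌉₊, ?_⟩
  intro A hA
  by_cases hAe : A.Nonempty
  swap
  · rw [Finset.not_nonempty_iff_eq_empty] at hAe
    subst hAe
    simp only [Finset.card_empty, pow_zero]
    apply Nat.one_le_pow
    have := hfin ∅ (by simp)
    exact Nat.card_pos
  have hAcard : (0 : ℝ) < A.card := by exact_mod_cast Finset.card_pos.mpr hAe
  set M := AddSubgroup.closure (A : Set Γ) with hM
  have hMfin : Finite M := hfin A hA
  let _ := Fintype.ofFinite M
  set N := Nat.card M with hN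
  have hN2 : 2 ≤ N := by
    obtain ⟨x, hx⟩ := hAe
    have hx0 : x ≠ 0 := by
      rintro rfl
      exact h0 (hA hx)
    have : Nontrivial M := ⟨⟨⟨x, AddSubgroup.subset_closure hx⟩, 0, fun h => hx0 (by
      have := congrArg Subtype.val h
      simpa using this)⟩⟩
    exact Finite.one_lt_card
  have hNpos : (0 : ℝ) < N := by exact_mod_cast (by omega : 0 < N)
  have hmem : ∀ n ∈ A, n ∈ M := fun n hn => AddSubgroup.subset_closure hn
  set g : X → ℝ := fun x => Real.exp (A.card / C ^ 2) / N * (∑ m : M, χ (m : Γ) x).re with hg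
  have hcase : ∀ x, 0 ≤ g x ∧ g x ≤ Real.exp (‖∑ n ∈ A, χ n x‖ ^ 2 / (C ^ 2 * A.card)) := by
    intro x
    by_cases hx : ∀ m ∈ M, χ m x = 1
    · have h1 : ∑ m : M, χ (m : Γ) x = N := by
        rw [Finset.sum_congr rfl (fun (m : M) _ => hx (m : Γ) m.2)]
        rw [Finset.sum_const, Finset.card_univ, nsmul_eq_mul, mul_one, hN, Nat.card_eq_fintype_card]
      have h2 : ∑ n ∈ A, χ n x = A.card := by
        rw [Finset.sum_congr rfl (fun n hn => hx n (hmem n hn))]
        simp
      simp only [hg, h1, h2, Complex.natCast_re, Complex.norm_natCast]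
      rw [div_mul_cancel₀ _ hNpos.ne']
      refine ⟨(Real.exp_pos _).le, le_of_eq ?_⟩
      congr 1
      field_simp
    · have h1 := sum_subgroup h M x hx
      simp only [hg, h1, Complex.zero_re, mul_zero]
      exact ⟨le_rfl, (Real.exp_pos _).le⟩
  have hint : Integrable (fun x => ∑ m : M, χ (m : Γ) x) μ :=
    integrable_finsetSum _ (fun m _ => h.integrable _)
  have hgint : Integrable g μ := by
    have h1 := hint.re
    exact h1.const_mul _
  have hsum : ∫ x, ∑ m : M, χ (m : Γ) x ∂μ = 1 := by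
    rw [integral_finsetSum _ (fun m _ => h.integrable _)]
    rw [Finset.sum_eq_single_of_mem (0 : M) (Finset.mem_univ _)]
    · have : ∀ x, χ ((0 : M) : Γ) x = 1 := fun x => by
        rw [AddSubgroup.coe_zero]; exact h.zero x
      rw [integral_congr_ae (Filter.Eventually.of_forall this)]
      simp
    · intro m _ hm
      apply h.int
      intro h0
      exact hm (Subtype.ext h0)
  have hgval : ∫ x, g x ∂μ = Real.exp (A.card / C ^ 2) / N := by
    simp only [hg]
    rw [integral_const_mul]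
    have h1 : ∫ x, (∑ m : M, χ (m : Γ) x).re ∂μ = (∫ x, ∑ m : M, χ (m : Γ) x ∂μ).re := by
      have := integral_re hint
      exact this
    rw [h1, hsum]
    simp
  have hfinal : Real.exp (A.card / C ^ 2) / N ≤ Real.exp 1 := by
    have h1 : ENNReal.ofReal (Real.exp (A.card / C ^ 2) / N) ≤ ENNReal.ofReal (Real.exp 1) := by
      calc ENNReal.ofReal (Real.exp (A.card / C ^ 2) / N) = ENNReal.ofReal (∫ x, g x ∂μ) := by
            rw [hgval]
        _ = ∫⁻ x, ENNReal.ofReal (g x) ∂μ :=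
            ofReal_integral_eq_lintegral_ofReal hgint (Filter.Eventually.of_forall (fun x => (hcase x).1))
        _ ≤ ∫⁻ x, ENNReal.ofReal (Real.exp (‖∑ n ∈ A, χ n x‖ ^ 2 / (C ^ 2 * A.card))) ∂μ :=
            lintegral_mono (fun x => ENNReal.ofReal_le_ofReal (hcase x).2)
        _ ≤ ENNReal.ofReal (Real.exp 1) := hΛ A hA hAe
    exact (ENNReal.ofReal_le_ofReal_iff (Real.exp_pos _).le).mp h1
  rw [div_le_iff₀ hNpos] at hfinal
  have h1 := Real.log_le_log (Real.exp_pos _) hfinal
  rw [Real.log_exp, Real.log_mul (Real.exp_pos _).ne' hNpos.ne', Real.log_exp] at h1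
  rw [div_le_iff₀ (by positivity)] at h1
  have hlogN : Real.log 2 ≤ Real.log N := Real.log_le_log (by norm_num) (by exact_mod_cast hN2)
  have hl1 := Real.log_two_gt_d9
  have hl2 := Real.log_two_lt_d9
  have h5 : (A.card : ℝ) * Real.log 2 ≤ (⌈3 * C ^ 2⌉₊ : ℝ) * Real.log N := by
    calc (A.card : ℝ) * Real.log 2 ≤ A.card * 1 :=
          mul_le_mul_of_nonneg_left (by linarith) (by positivity)
      _ ≤ (1 + Real.log N) * C ^ 2 := by rw [mul_one]; exact h1
      _ ≤ (3 * Real.log N) * C ^ 2 := by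
          apply mul_le_mul_of_nonneg_right _ (by positivity)
          linarith
      _ = 3 * C ^ 2 * Real.log N := by ring
      _ ≤ _ := mul_le_mul_of_nonneg_right (Nat.le_ceil _) (by linarith)
  have h6 : Real.log ((2 : ℝ) ^ A.card) ≤ Real.log ((N : ℝ) ^ ⌈3 * C ^ 2⌉₊) := by
    rw [Real.log_pow, Real.log_pow]
    exact h5
  have h7 := (Real.log_le_log_iff (by positivity) (by positivity)).mp h6
  exact_mod_cast h7

/-- the `ψ₂` norm -/
noncomputable def psi2 (μ : Measure X) (f : X → ℂ) : ℝ :=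
  sInf {c : ℝ | 0 < c ∧ ∫⁻ x, ENNReal.ofReal (Real.exp (‖f x‖ ^ 2 / c ^ 2)) ∂μ ≤
    ENNReal.ofReal (Real.exp 1)}

/-- **Main theorem, abstract form.** -/
theorem main (h : CharSys μ χ) (m : ℕ) (hm : 0 < m) (Λ : Set Γ) (h0 : (0 : Γ) ∉ Λ)
    (hexp : ∀ x ∈ Λ, m • x = 0) :
    (∃ C : ℝ, ∀ (A : Finset Γ) (a : Γ → ℂ), (A : Set Γ) ⊆ Λ →
      psi2 μ (fun x => ∑ n ∈ A, a n * χ n x) ≤ C * Real.sqrt (∑ n ∈ A, ‖a n‖ ^ 2)) ↔
    ∃ (k : ℕ) (Q : Fin k → Set Γ), (∀ i, Pool.Agent.H337R3.Sid.QI (Q i)) ∧ Λ = ⋃ i, Q i := by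
  classical
  constructor
  · rintro ⟨C, hC⟩
    have hC' : 0 < |C| + 1 := by positivity
    obtain ⟨K, hK⟩ := small_of_subgaussian h Λ (fun D hD =>
        Pool.Agent.H337R3.Sid.closure_finite m hm D (fun x hx => hexp x (hD (Finset.mem_coe.mpr hx))))
      h0 (|C| + 1) hC' (by
        intro A hA hAe
        have hAcard : (0 : ℝ) < A.card := by exact_mod_cast Finset.card_pos.mpr hAe
        have h1 := hC A (fun _ => 1) hA
        simp only [one_mul, norm_one, one_pow, Finset.sum_const, nsmul_eq_mul, mul_one] at h1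
        have h2 : psi2 μ (fun x => ∑ n ∈ A, χ n x) < (|C| + 1) * Real.sqrt A.card := by
          have hs := Real.sqrt_pos.mpr hAcard
          have := mul_lt_mul_of_pos_right (show C < |C| + 1 by linarith [le_abs_self C]) hs
          linarith
        have hbd : ∀ x, ‖∑ n ∈ A, χ n x‖ ≤ A.card := by
          intro x
          calc ‖∑ n ∈ A, χ n x‖ ≤ ∑ n ∈ A, ‖χ n x‖ := norm_sum_le _ _
            _ = A.card := by
              rw [Finset.sum_congr rfl (fun n _ => h.norm n x)]; simp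
        obtain ⟨c, ⟨hc0, hc1⟩, hc2⟩ := exists_lt_of_csInf_lt (by
          refine ⟨A.card, hAcard, ?_⟩
          calc ∫⁻ x, ENNReal.ofReal (Real.exp (‖∑ n ∈ A, χ n x‖ ^ 2 / (A.card : ℝ) ^ 2)) ∂μ
              ≤ ∫⁻ _x, ENNReal.ofReal (Real.exp 1) ∂μ := by
                apply lintegral_mono
                intro x
                apply ENNReal.ofReal_le_ofReal
                apply Real.exp_le_exp.mpr
                rw [div_le_one (by positivity)]
                exact pow_le_pow_left₀ (norm_nonneg _) (hbd x) 2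
            _ = ENNReal.ofReal (Real.exp 1) := by simp) h2
        refine le_trans (lintegral_mono (fun x => ?_)) hc1
        apply ENNReal.ofReal_le_ofReal
        apply Real.exp_le_exp.mpr
        apply div_le_div_of_nonneg_left (by positivity) (by positivity)
        calc c ^ 2 ≤ ((|C| + 1) * Real.sqrt A.card) ^ 2 := pow_le_pow_left₀ hc0.le hc2.le 2
          _ = (|C| + 1) ^ 2 * A.card := by rw [mul_pow, Real.sq_sqrt hAcard.le])
    obtain ⟨Q, hQ, hΛ⟩ := Pool.Agent.H337R3.Sid.finite_union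
      m.primeFactorsList (fun q hq => Nat.prime_of_mem_primeFactorsList hq) K Λ
      (by rw [Nat.prod_primeFactorsList hm.ne']; exact hexp) hK
    exact ⟨_, Q, hQ, hΛ⟩
  · rintro ⟨k, Q, hQ, hΛ⟩
    refine ⟨2 * k * Real.sqrt (Real.exp 1), ?_⟩
    intro A a hA
    set s₀ := ∑ n ∈ A, ‖a n‖ ^ 2 with hs₀
    have hs₀0 : 0 ≤ s₀ := Finset.sum_nonneg (fun n _ => by positivity)
    apply le_of_forall_gt_imp_ge_of_dense
    intro c hc
    have hc0 : 0 < c := lt_of_le_of_lt (by positivity) hc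
    apply csInf_le ⟨0, fun c hc => hc.1.le⟩
    refine ⟨hc0, ?_⟩
    rcases A.eq_empty_or_nonempty with rfl | hAne
    · simp only [Finset.sum_empty, norm_zero]
      norm_num
    have hk : 0 < k := by
      obtain ⟨n, hn⟩ := hAne
      have := hA (Finset.mem_coe.mpr hn)
      rw [hΛ, Set.mem_iUnion] at this
      obtain ⟨i, -⟩ := this
      exact lt_of_le_of_lt (Nat.zero_le _) i.2
    have hk' : (0 : ℝ) < k := by exact_mod_cast hk
    -- a colouring
    have hcol : ∀ n : Γ, ∃ i : Fin k, n ∈ A → n ∈ Q i := by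
      intro n
      by_cases hn : n ∈ A
      · have := hA (Finset.mem_coe.mpr hn)
        rw [hΛ, Set.mem_iUnion] at this
        obtain ⟨i, hi⟩ := this
        exact ⟨i, fun _ => hi⟩
      · exact ⟨⟨0, hk⟩, fun h => absurd h hn⟩
    choose col hcol using hcol
    set B : Fin k → Finset Γ := fun i => A.filter (fun n => col n = i) with hB
    have hQB : ∀ i, QIF (B i) := by
      intro i
      refine hQ i (B i) ?_
      intro n hn
      have := Finset.mem_filter.mp (Finset.mem_coe.mp hn)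
      rw [← this.2]
      exact hcol n this.1
    have hsplit : ∀ x, ∑ n ∈ A, a n * χ n x = ∑ j, ∑ n ∈ B j, a n * χ n x := fun x =>
      (Finset.sum_fiberwise A col (fun n => a n * χ n x)).symm
    have he := Real.exp_pos 1
    have key := union_exp_sq h k hk B hQB a (c ^ 2 / (4 * k ^ 2 * Real.exp 1)) (by positivity) (by
      intro j
      calc ∑ n ∈ B j, ‖a n‖ ^ 2 ≤ s₀ :=
            Finset.sum_le_sum_of_subset_of_nonneg (Finset.filter_subset _ _) (fun n _ _ => by positivity)
        _ ≤ c ^ 2 / (4 * k ^ 2 * Real.exp 1) := by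
          rw [le_div_iff₀ (by positivity)]
          calc s₀ * (4 * k ^ 2 * Real.exp 1) = (2 * k * Real.sqrt (Real.exp 1) * Real.sqrt s₀) ^ 2 := by
                rw [mul_pow, mul_pow, Real.sq_sqrt hs₀0, Real.sq_sqrt he.le]; ring
            _ ≤ c ^ 2 := pow_le_pow_left₀ (by positivity) hc.le 2) c hc0 (by field_simp)
    simp only [hsplit]
    exact key

end Pool.Agent.W56.SG
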